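import Pool.Agent.Helper45.LS.Defs

/-!
# Galois extensions of rings
-/

set_option autoImplicit false

namespace Pool.Agent.Helper45.LS

open scoped TensorProduct

section

variable {U V G : Type} [CommRing U] [CommRing V] [Group G] [MulSemiringAction G V]
  {ρ : U →+* V}

theorem FreeQuotient.exists_one (h : FreeQuotient ρ G) {σ : G} (hσ : σ ≠ 1) :
    ∃ (ι : Type) (_ : Fintype ι) (x y : ι → V), ∑ i, x i * y i = 1 ∧ ∑ i, x i * σ • y i = 0 := by
  classical
  have h1 : (1 : V) ∈ Ideal.span (Set.range fun v : V => v - σ • v) := by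
    rw [h.free σ hσ]
    trivial
  obtain ⟨c, hc⟩ := Finsupp.mem_ideal_span_range_iff_exists_finsupp.1 h1
  rw [Finsupp.sum, ← Finset.sum_coe_sort] at hc
  refine ⟨Option c.support, inferInstance, fun i => i.elim (-∑ b : c.support, c b * σ • (b : V))
    (fun b => c b), fun i => i.elim 1 (fun b => (b : V)), ?_, ?_⟩
  · rw [Fintype.sum_option]
    simp only [Option.elim_none, Option.elim_some, mul_one]
    rw [← hc]
    simp only [mul_sub, Finset.sum_sub_distrib]
    ring
  · rw [Fintype.sum_option]
    simp only [Option.elim_none, Option.elim_some, smul_one, mul_one]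
    ring

theorem FreeQuotient.exists_finset (h : FreeQuotient ρ G) (S : Finset G) (hS : (1 : G) ∉ S) :
    ∃ (ι : Type) (_ : Fintype ι) (x y : ι → V), ∑ i, x i * y i = 1 ∧
      ∀ σ ∈ S, ∑ i, x i * σ • y i = 0 := by
  classical
  induction S using Finset.induction_on with
  | empty => exact ⟨Unit, inferInstance, fun _ => 1, fun _ => 1, by simp, by simp⟩
  | insert τ S hτ ih =>
    obtain ⟨ι, _, x, y, h1, h2⟩ := ih (fun h' => hS (Finset.mem_insert_of_mem h'))
    obtain ⟨κ, _, z, w, h3, h4⟩ := h.exists_one (σ := τ) (by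
      rintro rfl
      exact hS (Finset.mem_insert_self _ _))
    have key : ∀ σ : G, ∑ i : ι × κ, (x i.1 * z i.2) * σ • (y i.1 * w i.2) =
        (∑ i, x i * σ • y i) * ∑ j, z j * σ • w j := by
      intro σ
      rw [Fintype.sum_prod_type, Finset.sum_mul_sum]
      refine Finset.sum_congr rfl fun i _ => Finset.sum_congr rfl fun j _ => ?_
      rw [smul_mul']
      ring
    refine ⟨ι × κ, inferInstance, fun i => x i.1 * z i.2, fun i => y i.1 * w i.2, ?_, ?_⟩
    · have := key 1
      simp only [one_smul] at this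
      rw [this, h1, h3, one_mul]
    · intro σ hσ
      rw [key]
      rcases Finset.mem_insert.1 hσ with rfl | hσ
      · rw [h4, mul_zero]
      · rw [h2 σ hσ, zero_mul]

/-- the coordinates of Chase, Harrison and Rosenberg -/
theorem FreeQuotient.exists_dual [Finite G] (h : FreeQuotient ρ G) :
    ∃ (ι : Type) (_ : Fintype ι) (x y : ι → V), ∑ i, x i * y i = 1 ∧
      ∀ σ : G, σ ≠ 1 → ∑ i, x i * σ • y i = 0 := by
  classical
  cases nonempty_fintype G
  obtain ⟨ι, _, x, y, h1, h2⟩ := h.exists_finset (Finset.univ.erase 1) (by simp)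
  exact ⟨ι, inferInstance, x, y, h1, fun σ hσ => h2 σ (by simp [hσ])⟩

/-- the trace -/
theorem FreeQuotient.exists_tr [Fintype G] (h : FreeQuotient ρ G) :
    ∃ t : V → U, ∀ v, ρ (t v) = ∑ σ : G, σ • v := by
  have h1 : ∀ v : V, ∃ u, ρ u = ∑ σ : G, σ • v := fun v => h.exists_eq _ fun τ => by
    rw [Finset.smul_sum]
    simp only [smul_smul]
    exact Equiv.sum_comp (Equiv.mulLeft τ) (fun σ => σ • v)
  choose t ht using h1
  exact ⟨t, ht⟩

end

/-- dual bases of an extension of rings -/
structure Dual {U V ι : Type} [CommRing U] [CommRing V] [Fintype ι] (ρ : U →+* V) (G : Type)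
    [Group G] [Fintype G] [MulSemiringAction G V] (x y : ι → V) (t : V → U) : Prop where
  injective : Function.Injective ρ
  invariant : ∀ (σ : G) (u : U), σ • ρ u = ρ u
  one : ∑ i, x i * y i = 1
  zero : ∀ σ : G, σ ≠ 1 → ∑ i, x i * σ • y i = 0
  tr : ∀ v, ρ (t v) = ∑ σ : G, σ • v

section

variable {U V ι G : Type} [CommRing U] [CommRing V] [Fintype ι] [Group G] [Fintype G]
  [MulSemiringAction G V] {ρ : U →+* V} {x y : ι → V} {t : V → U}

theorem FreeQuotient.dual (h : FreeQuotient ρ G) :
    ∃ (ι : Type) (_ : Fintype ι) (x y : ι → V) (t : V → U), Dual ρ G x y t := by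
  obtain ⟨ι, _, x, y, h1, h2⟩ := h.exists_dual
  obtain ⟨t, ht⟩ := h.exists_tr
  exact ⟨ι, inferInstance, x, y, t, h.injective, h.invariant, h1, h2, ht⟩

theorem Dual.expand (h : Dual ρ G x y t) (v : V) : v = ∑ i, ρ (t (y i * v)) * x i := by
  classical
  have h1 : ∑ i, ρ (t (y i * v)) * x i = ∑ σ : G, (σ • v) * ∑ i, x i * σ • y i := by
    simp only [h.tr, smul_mul', Finset.sum_mul, Finset.mul_sum]
    rw [Finset.sum_comm]
    refine Finset.sum_congr rfl fun σ _ => Finset.sum_congr rfl fun i _ => ?_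
    ring
  rw [h1, Finset.sum_eq_single 1]
  · simp [h.one]
  · intro σ _ hσ
    rw [h.zero σ hσ, mul_zero]
  · simp

theorem Dual.t_add (h : Dual ρ G x y t) (v w : V) : t (v + w) = t v + t w := by
  apply h.injective
  rw [map_add, h.tr, h.tr, h.tr, ← Finset.sum_add_distrib]
  simp

theorem Dual.t_mul (h : Dual ρ G x y t) (u : U) (v : V) : t (ρ u * v) = u * t v := by
  apply h.injective
  rw [map_mul, h.tr, h.tr, Finset.mul_sum]
  refine Finset.sum_congr rfl fun σ _ => ?_
  rw [smul_mul', h.invariant]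

end

section

variable {U V ι G : Type} [CommRing U] [CommRing V] [Algebra U V] [Fintype ι] [Group G]
  [Fintype G] [MulSemiringAction G V] {x y : ι → V} {t : V → U}

/-- the trace is linear -/
def Dual.lin (h : Dual (algebraMap U V) G x y t) : V →ₗ[U] U where
  toFun := t
  map_add' := h.t_add
  map_smul' u v := by
    rw [Algebra.smul_def, h.t_mul]
    rfl

theorem Dual.finite (h : Dual (algebraMap U V) G x y t) : Module.Finite U V := by
  classical
  refine ⟨⟨Finset.univ.image x, ?_⟩⟩
  rw [eq_top_iff]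
  intro v _
  rw [h.expand v]
  refine Submodule.sum_mem _ fun i _ => ?_
  rw [← Algebra.smul_def]
  exact Submodule.smul_mem _ _ (Submodule.subset_span (by simp))

theorem Dual.projective (h : Dual (algebraMap U V) G x y t) : Module.Projective U V := by
  classical
  let i : V →ₗ[U] (ι → U) := LinearMap.pi fun i => h.lin.comp (LinearMap.mulLeft U (y i))
  let p : (ι → U) →ₗ[U] V := Fintype.linearCombination U x
  refine Module.Projective.of_split i p ?_
  ext v
  change p (i v) = v
  rw [Fintype.linearCombination_apply]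
  conv_rhs => rw [h.expand v]
  refine Finset.sum_congr rfl fun j _ => ?_
  rw [Algebra.smul_def]
  rfl

/-- the action by homomorphisms of algebras -/
def Dual.act (h : Dual (algebraMap U V) G x y t) (σ : G) : V →ₐ[U] V :=
  { MulSemiringAction.toRingHom G V σ with commutes' := h.invariant σ }

theorem Dual.act_apply (h : Dual (algebraMap U V) G x y t) (σ : G) (v : V) :
    h.act σ v = σ • v := rfl

section

variable (h : Dual (algebraMap U V) G x y t) {T : Type} [CommRing T] [Algebra U T]
    (j : V →ₐ[U] T)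

/-- the components of the isomorphism -/
noncomputable def Dual.psi (σ : G) : T ⊗[U] V →ₐ[U] T :=
  Algebra.TensorProduct.lift (AlgHom.id U T) (j.comp (h.act σ)) (fun _ _ => Commute.all _ _)

theorem Dual.psi_tmul (σ : G) (a : T) (v : V) : h.psi j σ (a ⊗ₜ v) = a * j (σ • v) := by
  rw [Dual.psi, Algebra.TensorProduct.lift_tmul]
  rfl

theorem Dual.psi_expand (z : T ⊗[U] V) :
    z = ∑ i, (∑ σ : G, h.psi j σ (((1 : T) ⊗ₜ[U] y i) * z)) ⊗ₜ[U] x i := by
  induction z using TensorProduct.induction_on with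
  | zero => simp
  | add a b ha hb =>
    conv_lhs => rw [ha, hb]
    rw [← Finset.sum_add_distrib]
    refine Finset.sum_congr rfl fun i _ => ?_
    rw [← TensorProduct.add_tmul, ← Finset.sum_add_distrib]
    congr 1
    refine Finset.sum_congr rfl fun σ _ => ?_
    rw [mul_add, map_add]
  | tmul a v =>
    have h1 : ∀ i, ∑ σ : G, h.psi j σ (((1 : T) ⊗ₜ[U] y i) * (a ⊗ₜ[U] v)) =
        t (y i * v) • a := by
      intro i
      simp only [Algebra.TensorProduct.tmul_mul_tmul, one_mul, h.psi_tmul]
      rw [← Finset.mul_sum, ← map_sum, ← h.tr, AlgHom.commutes, mul_comm, Algebra.smul_def]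
    simp only [h1, TensorProduct.smul_tmul]
    rw [← TensorProduct.tmul_sum]
    conv_lhs => rw [h.expand v]
    simp only [Algebra.smul_def]

theorem Dual.psi_injective {z : T ⊗[U] V} (hz : ∀ σ, h.psi j σ z = 0) : z = 0 := by
  rw [h.psi_expand j z]
  refine Finset.sum_eq_zero fun i _ => ?_
  have : ∑ σ : G, h.psi j σ (((1 : T) ⊗ₜ[U] y i) * z) = 0 := by
    refine Finset.sum_eq_zero fun σ _ => ?_
    rw [map_mul, hz, mul_zero]
  rw [this, TensorProduct.zero_tmul]

theorem Dual.psi_surjective (c : G → T) : ∃ z : T ⊗[U] V, ∀ τ, h.psi j τ z = c τ := by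
  classical
  refine ⟨∑ σ : G, ∑ i, (c σ * j (σ • x i)) ⊗ₜ[U] y i, fun τ => ?_⟩
  have h1 : ∀ σ : G, ∑ i, h.psi j τ ((c σ * j (σ • x i)) ⊗ₜ[U] y i) =
      c σ * j (σ • ∑ i, x i * (σ⁻¹ * τ) • y i) := by
    intro σ
    rw [Finset.smul_sum, map_sum, Finset.mul_sum]
    refine Finset.sum_congr rfl fun i _ => ?_
    rw [h.psi_tmul, smul_mul', smul_smul, mul_inv_cancel_left, map_mul, mul_assoc]
  simp only [map_sum, h1]
  rw [Finset.sum_eq_single τ]
  · simp [h.one]
  · intro σ _ hσ
    rw [h.zero (σ⁻¹ * τ) (by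
      intro h2
      exact hσ (inv_mul_eq_one.1 h2)), smul_zero, map_zero, mul_zero]
  · simp

/-- the tensor product with an algebra -/
noncomputable def Dual.equiv : T ⊗[U] V ≃+* (G → T) :=
  RingEquiv.ofBijective (RingHom.pi fun σ => (h.psi j σ : T ⊗[U] V →+* T)) (by
    refine ⟨?_, ?_⟩
    · rw [injective_iff_map_eq_zero]
      intro z hz
      exact h.psi_injective j fun σ => congrFun hz σ
    · intro c
      obtain ⟨z, hz⟩ := h.psi_surjective j c
      exact ⟨z, funext hz⟩)

theorem Dual.equiv_apply (z : T ⊗[U] V) (σ : G) : h.equiv j z σ = h.psi j σ z := rfl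

end

theorem Dual.unramified (h : Dual (algebraMap U V) G x y t) :
    Algebra.FormallyUnramified U V := by
  classical
  have hfin := h.finite
  rw [Algebra.FormallyUnramified.iff_exists_tensorProduct]
  refine ⟨∑ i, x i ⊗ₜ[U] y i, fun s => ?_, ?_⟩
  · apply h.psi_injective (AlgHom.id U V)
    intro σ
    rw [map_mul, map_sum, map_sub]
    simp only [h.psi_tmul, AlgHom.id_apply, one_mul, smul_one, mul_one]
    by_cases hσ : σ = 1
    · subst hσ
      simp
    · rw [h.zero σ hσ, mul_zero]
  · rw [map_sum]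
    simp only [Algebra.TensorProduct.lmul'_apply_tmul]
    exact h.one

theorem Dual.etale (h : Dual (algebraMap U V) G x y t) : Algebra.Etale U V := by
  have h1 := h.finite
  have h2 := h.projective
  have h3 := h.unramified
  have h4 : Module.FinitePresentation U V := Module.finitePresentation_of_projective _ _
  exact Algebra.Etale.of_formallyUnramified_of_flat

end

end Pool.Agent.Helper45.LS
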