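import Pool.Agent.Helper45.LS.OSpr

/-!
# Spreading out of open and closed subschemes
-/

set_option autoImplicit false

namespace Pool.Agent.Helper45.LS

open AlgebraicGeometry CategoryTheory Limits TopologicalSpace Filter Pool.Agent.Helper45.LG

theorem isLocalization_fst (R S : Type) [CommRing R] [CommRing S] :
    @IsLocalization.Away (R × S) _ ((1, 0) : R × S) R _ (RingHom.fst R S).toAlgebra := by
  let _ : Algebra (R × S) R := (RingHom.fst R S).toAlgebra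
  have hk' : RingHom.ker (algebraMap (R × S) R) = Ideal.span {1 - ((1, 0) : R × S)} := by
    apply le_antisymm
    · rintro ⟨a, b⟩ hab
      have ha : a = 0 := hab
      rw [Ideal.mem_span_singleton]
      exact ⟨(0, b), by simp [ha, Prod.ext_iff]⟩
    · rw [Ideal.span_singleton_le_iff_mem]
      change (1 : R) - 1 = 0
      exact sub_self _
  exact IsLocalization.away_of_isIdempotentElem (by simp [IsIdempotentElem]) hk'
    (fun r => ⟨(r, 0), rfl⟩)

theorem isOpenImmersion_fst (R S : Type) [CommRing R] [CommRing S] :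
    IsOpenImmersion (Spec.map (CommRingCat.ofHom (RingHom.fst R S))) := by
  let _ : Algebra (R × S) R := (RingHom.fst R S).toAlgebra
  have hl := isLocalization_fst R S
  exact IsOpenImmersion.of_isLocalization (S := R) ((1, 0) : R × S)

theorem mem_range_fst {x : Spec (CommRingCat.of (ℤ × ℤ))} :
    x ∈ Set.range (Spec.map (CommRingCat.ofHom (RingHom.fst ℤ ℤ))) ↔
      x ∈ PrimeSpectrum.basicOpen ((1, 0) : ℤ × ℤ) := by
  let _ : Algebra (ℤ × ℤ) ℤ := (RingHom.fst ℤ ℤ).toAlgebra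
  have hl := isLocalization_fst ℤ ℤ
  have h3 : Set.range (Spec.map (CommRingCat.ofHom (RingHom.fst ℤ ℤ))) =
      (PrimeSpectrum.basicOpen ((1, 0) : ℤ × ℤ) : Set (PrimeSpectrum (ℤ × ℤ))) :=
    PrimeSpectrum.localization_away_comap_range ℤ ((1, 0) : ℤ × ℤ)
  rw [h3]
  rfl

theorem not_mem_of_snd {x : Spec (CommRingCat.of (ℤ × ℤ))}
    (hx : x ∈ Set.range (Spec.map (CommRingCat.ofHom (RingHom.snd ℤ ℤ)))) :
    x ∉ PrimeSpectrum.basicOpen ((1, 0) : ℤ × ℤ) := by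
  obtain ⟨y, rfl⟩ := hx
  intro h
  have h1 : (1, 0) ∉ (PrimeSpectrum.comap (RingHom.snd ℤ ℤ) y).asIdeal := h
  have h2 : (0 : ℤ) ∈ (show PrimeSpectrum ℤ from y).asIdeal := Ideal.zero_mem _
  exact h1 h2

/-- an open and closed subscheme is the base change of `Spec ℤ ⟶ Spec (ℤ × ℤ)` -/
theorem exists_clopen {Z X : Scheme.{0}} (i : Z ⟶ X) (h1 : IsClosedImmersion i)
    (h2 : IsOpenImmersion i) :
    ∃ (s : X ⟶ Spec (CommRingCat.of (ℤ × ℤ))) (q : Z ⟶ Spec (CommRingCat.of ℤ)),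
      IsPullback i q s (Spec.map (CommRingCat.ofHom (RingHom.fst ℤ ℤ))) := by
  let V : X.Opens := ⟨(Set.range i)ᶜ, i.isClosedEmbedding.isClosed_range.isOpen_compl⟩
  have hV : IsCompl i.opensRange V.ι.opensRange := by
    rw [Scheme.Opens.opensRange_ι]
    refine ⟨?_, ?_⟩
    · rw [disjoint_iff]
      ext x
      change (x ∈ Set.range i ∧ x ∈ (Set.range i)ᶜ) ↔ False
      simp
    · rw [codisjoint_iff]
      ext x
      change (x ∈ Set.range i ∨ x ∈ (Set.range i)ᶜ) ↔ True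
      exact iff_of_true (em _) trivial
  obtain ⟨hc⟩ := nonempty_isColimit_binaryCofanMk_of_isCompl i V.ι hV
  obtain ⟨s, hs1, hs2⟩ : ∃ s : X ⟶ Spec (CommRingCat.of (ℤ × ℤ)),
      i ≫ s = specZIsTerminal.from Z ≫ Spec.map (CommRingCat.ofHom (RingHom.fst ℤ ℤ)) ∧
      V.ι ≫ s = specZIsTerminal.from V ≫ Spec.map (CommRingCat.ofHom (RingHom.snd ℤ ℤ)) := by
    refine ⟨BinaryCofan.IsColimit.desc hc (specZIsTerminal.from Z ≫
      Spec.map (CommRingCat.ofHom (RingHom.fst ℤ ℤ))) (specZIsTerminal.from V ≫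
      Spec.map (CommRingCat.ofHom (RingHom.snd ℤ ℤ))), ?_, ?_⟩
    · exact BinaryCofan.IsColimit.inl_desc hc _ _
    · exact BinaryCofan.IsColimit.inr_desc hc _ _
  have h3 := isOpenImmersion_fst ℤ ℤ
  refine ⟨s, specZIsTerminal.from Z, (IsOpenImmersion.isPullback _ _ _ _ hs1 ?_).flip⟩
  apply Opens.ext
  ext x
  change s x ∈ Set.range (Spec.map (CommRingCat.ofHom (RingHom.fst ℤ ℤ))) ↔ x ∈ Set.range i
  constructor
  · intro hx
    by_contra hx'
    have h4 : x ∈ Set.range V.ι := by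
      rw [Scheme.Opens.range_ι]
      exact hx'
    obtain ⟨y, rfl⟩ := h4
    have h5 : s (V.ι y) = (Spec.map (CommRingCat.ofHom (RingHom.snd ℤ ℤ)))
        ((specZIsTerminal.from V) y) := congrArg (fun χ : V.toScheme ⟶ _ => χ y) hs2
    exact not_mem_of_snd ⟨_, h5.symm⟩ (mem_range_fst.1 hx)
  · rintro ⟨z, rfl⟩
    have h5 : s (i z) = (Spec.map (CommRingCat.ofHom (RingHom.fst ℤ ℤ)))
        ((specZIsTerminal.from Z) z) := congrArg (fun χ : Z ⟶ _ => χ z) hs1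
    exact ⟨_, h5.symm⟩

section

variable {K : Type} [Field K] {P : Scheme.{0} → Prop} {l : Filter (Subring K)}
  (hP : MorinClosed P) (hl : ∀ x : K, ∀ᶠ B in l, x ∈ B) (hft : ∀ᶠ B in l, FT B) {X : Scheme.{0}}
  {f : X ⟶ Spec (CommRingCat.of K)}

include hP hl hft

/-- open and closed subschemes -/
theorem Spr.clopen {Z : Scheme.{0}} (i : Z ⟶ X) (hm : HasModel f) (h1 : IsClosedImmersion i)
    (h2 : IsOpenImmersion i) (h : Spr P l f) : Spr P l (i ≫ f) := by
  obtain ⟨s, q, hsq⟩ := exists_clopen i h1 h2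
  obtain ⟨e, he⟩ : ∃ e : Z ≅ ofib s (RingHom.fst ℤ ℤ), e.hom ≫ ofibFst s (RingHom.fst ℤ ℤ) = i :=
    ⟨hsq.isoPullback, hsq.isoPullback_hom_fst⟩
  rw [← he, Category.assoc]
  apply Spr.of_iso
  obtain ⟨B, X₀, x₀, a, hB, hy1, hy2, hy3, H⟩ := hm
  have hx : IsFT x₀ := ⟨hy1, hy2, hy3⟩
  have hU : Algebra.FiniteType ℤ (ℤ × ℤ) := inferInstance
  have hρ : (RingHom.fst ℤ ℤ).FiniteType :=
    RingHom.FiniteType.of_surjective _ (fun r => ⟨(r, 0), rfl⟩)
  obtain ⟨B₁, h01, hB₁, W, w, b, hw, h4, h5⟩ := exists_ofib_model x₀ hB hx H hU s hρ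
  refine Spr.of_model hP hl hft w hB₁ hw h4 ?_
  filter_upwards [hft, h _ _ x₀ a hB hx H] with B' e1 e2 h'
  obtain ⟨e5, s', ⟨e⟩⟩ := h5 B' h' (h01.trans h') e1
  have hc : IsClosedImmersion (Spec.map (CommRingCat.ofHom (RingHom.fst ℤ ℤ))) :=
    IsClosedImmersion.spec_of_surjective _ (fun r => ⟨(r, 0), rfl⟩)
  have hsq' := (isPullback_ofib s' (RingHom.fst ℤ ℤ)).flip
  have h6 : P (ofib s' (RingHom.fst ℤ ℤ)) :=
    hP.summand _ _ (ofibFst s' (RingHom.fst ℤ ℤ)) e5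
      (MorphismProperty.of_isPullback (P := @IsClosedImmersion) hsq' hc)
      (MorphismProperty.of_isPullback (P := @IsOpenImmersion) hsq' (isOpenImmersion_fst ℤ ℤ))
      (e2 (h01.trans h'))
  exact hP.iso _ _ (arithmetic_ofib e5 hρ) ⟨e.symm⟩ h6

end

end Pool.Agent.Helper45.LS
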