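import Pool.Agent.Helper45.LS.Model

/-!
# Models of closed subschemes
-/

set_option autoImplicit false

namespace Pool.Agent.Helper45.LS

open AlgebraicGeometry CategoryTheory Limits TopologicalSpace

/-- sections over an affine open set descend -/
theorem exists_section {I : Type} [SmallCategory I] [IsCofiltered I] (D : I ⥤ Scheme.{0})
    (c : Cone D) (hc : IsLimit c) [∀ {i j : I} (f : i ⟶ j), IsAffineHom (D.map f)] (i : I)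
    (U : (D.obj i).Opens) (hU : IsAffineOpen U) (s : Γ(c.pt, c.π.app i ⁻¹ᵁ U)) :
    ∃ (j : I) (φ : j ⟶ i) (e : c.π.app i ⁻¹ᵁ U ≤ c.π.app j ⁻¹ᵁ (D.map φ ⁻¹ᵁ U))
      (t : Γ(D.obj j, D.map φ ⁻¹ᵁ U)), (c.π.app j).appLE _ _ e t = s := by
  have h1 : ∀ j : Over i, IsAffine ((opensDiagram D i U).obj j) := fun j => hU.preimage (D.map j.hom)
  obtain ⟨j, t, ht⟩ := exists_appTop_π_eq_of_isLimit (opensDiagram D i U) (opensCone D c i U)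
    (isLimitOpensCone D c hc i U) ((c.π.app i ⁻¹ᵁ U).topIso.inv s)
  have e : c.π.app i ⁻¹ᵁ U ≤ c.π.app j.left ⁻¹ᵁ (D.map j.hom ⁻¹ᵁ U) := by
    rw [← Scheme.Hom.comp_preimage, c.w]
  refine ⟨j.left, j.hom, e, (D.map j.hom ⁻¹ᵁ U).topIso.hom t, ?_⟩
  have h2 : ((c.π.app i ⁻¹ᵁ U).topIso.inv s) = (((c.π.app j.left).resLE _ _ e).app ⊤) t := ht
  rw [Scheme.Hom.resLE_app_top] at h2
  have inj : Function.Injective (c.π.app i ⁻¹ᵁ U).topIso.inv :=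
    (ConcreteCategory.bijective_of_isIso (c.π.app i ⁻¹ᵁ U).topIso.inv).1
  apply inj
  rw [h2]
  rfl

theorem appLE_trans {X Y Z : Scheme.{0}} (p : X ⟶ Y) (q : Y ⟶ Z) (r : X ⟶ Z) (h : p ≫ q = r)
    (U : Z.Opens) (V : Y.Opens) (W : X.Opens) (e₁ : V ≤ q ⁻¹ᵁ U) (e₂ : W ≤ p ⁻¹ᵁ V)
    (e₃ : W ≤ r ⁻¹ᵁ U) (t : Γ(Z, U)) :
    p.appLE V W e₂ (q.appLE U V e₁ t) = r.appLE U W e₃ t := by
  subst h
  have h1 := Scheme.Hom.appLE_comp_appLE p q U V W e₁ e₂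
  exact congrArg (fun χ => (ConcreteCategory.hom χ) t) h1

theorem appLE_cast {X Y : Scheme.{0}} (p : X ⟶ Y) (U : Y.Opens) (W W' : X.Opens) (hW : W = W')
    (e : W' ≤ p ⁻¹ᵁ U) (e₂ : W ≤ p ⁻¹ᵁ U) (t : Γ(Y, U)) (s : Γ(X, W))
    (ht : p.appLE U W' e t = X.presheaf.map (eqToHom hW.symm).op s) :
    p.appLE U W e₂ t = s := by
  subst hW
  simpa using ht

section

variable {K : Type} [Field K] {B : Subring K} {Y₀ : Scheme.{0}}
  (y₀ : Y₀ ⟶ Spec (CommRingCat.of B)) {Y : Scheme.{0}} {a : Y ⟶ Y₀}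
  {f : Y ⟶ Spec (CommRingCat.of K)}

instance isAffineHom_fst {B' : Subring K} (h : B ≤ B') :
    IsAffineHom (pullback.fst y₀ (incl h)) :=
  MorphismProperty.of_isPullback (P := @IsAffineHom)
    (IsPullback.of_hasPullback y₀ (incl h)).flip inferInstance

/-- sections over the preimages of an affine open subset of the model descend -/
theorem exists_section' (H : IsPullback a f y₀ (toB B)) (V : Y₀.Opens) (hV : IsAffineOpen V)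
    (s : Γ(Y, a ⁻¹ᵁ V)) :
    ∃ T : Finset K, ∀ (T' : Finset K) (_ : T ≤ T')
      (e : a ⁻¹ᵁ V ≤ lft y₀ H (le_adj B T') ⁻¹ᵁ (pullback.fst y₀ (incl (le_adj B T')) ⁻¹ᵁ V)),
      ∃ t : Γ(bc y₀ (le_adj B T'), pullback.fst y₀ (incl (le_adj B T')) ⁻¹ᵁ V),
        (lft y₀ H (le_adj B T')).appLE _ _ e t = s := by
  have hW : a ⁻¹ᵁ V = lft y₀ H (le_adj B ∅) ⁻¹ᵁ (pullback.fst y₀ (incl (le_adj B ∅)) ⁻¹ᵁ V) := by
    rw [← Scheme.Hom.comp_preimage, lft_fst]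
  have hU : IsAffineOpen (pullback.fst y₀ (incl (le_adj B ∅)) ⁻¹ᵁ V) := hV.preimage _
  obtain ⟨j, φ, e, t, ht⟩ := exists_section (diag y₀) (cone y₀ H) (limitCone y₀ H)
    (Opposite.op ∅) (pullback.fst y₀ (incl (le_adj B ∅)) ⁻¹ᵁ V) hU
    (Y.presheaf.map (eqToHom hW.symm).op s)
  refine ⟨j.unop, fun T' hT' e' => ?_⟩
  have e₂ : a ⁻¹ᵁ V ≤ (cone y₀ H).π.app j ⁻¹ᵁ ((diag y₀).map φ ⁻¹ᵁ
      (pullback.fst y₀ (incl (le_adj B ∅)) ⁻¹ᵁ V)) := hW.le.trans e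
  have h1 : ((cone y₀ H).π.app j).appLE _ _ e₂ t = s :=
    appLE_cast _ _ _ _ hW e e₂ t s ht
  have e₄ : (diag y₀).map φ ⁻¹ᵁ (pullback.fst y₀ (incl (le_adj B ∅)) ⁻¹ᵁ V) =
      pullback.fst y₀ (incl (le_adj B j.unop)) ⁻¹ᵁ V := by
    rw [← Scheme.Hom.comp_preimage]
    exact congrArg (fun χ => χ ⁻¹ᵁ V) (trans_fst y₀ _ _ _)
  have e₅ : pullback.fst y₀ (incl (le_adj B T')) ⁻¹ᵁ V ≤
      trans y₀ (le_adj B j.unop) (adj_mono B hT') (le_adj B T') ⁻¹ᵁ ((diag y₀).map φ ⁻¹ᵁ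
        (pullback.fst y₀ (incl (le_adj B ∅)) ⁻¹ᵁ V)) := by
    have h2 : trans y₀ (le_adj B j.unop) (adj_mono B hT') (le_adj B T') ⁻¹ᵁ
        (pullback.fst y₀ (incl (le_adj B j.unop)) ⁻¹ᵁ V) =
        pullback.fst y₀ (incl (le_adj B T')) ⁻¹ᵁ V := by
      rw [← Scheme.Hom.comp_preimage, trans_fst]
    exact (h2.symm.trans (congrArg (fun χ => trans y₀ (le_adj B j.unop) (adj_mono B hT')
      (le_adj B T') ⁻¹ᵁ χ) e₄.symm)).le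
  refine ⟨(trans y₀ (le_adj B j.unop) (adj_mono B hT') (le_adj B T')).appLE _ _ e₅ t, ?_⟩
  rw [← h1]
  exact appLE_trans _ _ _ (lft_trans y₀ H _ _ _) _ _ _ e₅ e' e₂ t

end

end Pool.Agent.Helper45.LS
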