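import Pool.Agent.Helper45.LS.Closed

/-!
# Models of closed subschemes
-/

set_option autoImplicit false

namespace Pool.Agent.Helper45.LS

open AlgebraicGeometry CategoryTheory Limits TopologicalSpace

theorem appLE_eq_app {X Y : Scheme.{0}} (p : X ⟶ Y) (U : Y.Opens) (e : p ⁻¹ᵁ U ≤ p ⁻¹ᵁ U)
    (t : Γ(Y, U)) : p.appLE U (p ⁻¹ᵁ U) e t = p.app U t := by
  have h1 : p.appLE U (p ⁻¹ᵁ U) e = p.app U := by simp [Scheme.Hom.appLE]
  rw [h1]

/-- an ideal sheaf is the pullback of its push forward when it is generated by sections which come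
from the target -/
theorem comap_map_eq {Y Y' : Scheme.{0}} (p : Y ⟶ Y') [IsAffineHom p] (I : Y.IdealSheafData)
    {ι : Type} (V : ι → Y'.affineOpens) (hc : ⨆ i, p ⁻¹ᵁ (V i).1 = ⊤)
    (h : ∀ i, (I.ideal ⟨p ⁻¹ᵁ (V i).1, (V i).2.preimage p⟩) ≤
      Ideal.span {s | s ∈ I.ideal ⟨p ⁻¹ᵁ (V i).1, (V i).2.preimage p⟩ ∧
        ∃ t, p.app (V i).1 t = s}) :
    (I.map p).comap p = I := by
  apply le_antisymm (Scheme.IdealSheafData.comap_map_le I p)
  refine Scheme.IdealSheafData.le_of_iSup_eq_top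
    (fun i => ⟨p ⁻¹ᵁ (V i).1, (V i).2.preimage p⟩) hc ?_
  intro i
  refine (h i).trans ?_
  rw [Ideal.span_le]
  rintro s ⟨hs, t, rfl⟩
  have h1 : t ∈ (I.map p).ideal (V i) := by
    rw [Scheme.IdealSheafData.ideal_map_of_isAffineHom]
    exact hs
  have h2 := Scheme.IdealSheafData.le_map_comap (I.map p) p (V i) h1
  rw [Scheme.IdealSheafData.ideal_map_of_isAffineHom] at h2
  exact h2

theorem comap_map_eq' {Y Y' Y₀ : Scheme.{0}} (p : Y ⟶ Y') (q : Y' ⟶ Y₀) (a : Y ⟶ Y₀)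
    (h : p ≫ q = a) [IsAffineHom p] [IsAffineHom q] [IsAffineHom a] (I : Y.IdealSheafData)
    {ι : Type} (V : ι → Y₀.affineOpens) (hc : ⨆ i, (V i).1 = ⊤)
    (S : ∀ i, Set Γ(Y, a ⁻¹ᵁ (V i).1))
    (hS : ∀ i, I.ideal ⟨a ⁻¹ᵁ (V i).1, (V i).2.preimage a⟩ = Ideal.span (S i))
    (hs : ∀ i, ∀ s ∈ S i, ∀ e : a ⁻¹ᵁ (V i).1 ≤ p ⁻¹ᵁ (q ⁻¹ᵁ (V i).1),
      ∃ t, p.appLE (q ⁻¹ᵁ (V i).1) (a ⁻¹ᵁ (V i).1) e t = s) :
    (I.map p).comap p = I := by
  subst h
  apply comap_map_eq p I (fun i => ⟨q ⁻¹ᵁ (V i).1, (V i).2.preimage q⟩)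
  · have h1 : (⨆ i, p ⁻¹ᵁ (q ⁻¹ᵁ (V i).1)) = (p ≫ q) ⁻¹ᵁ (⨆ i, (V i).1) :=
      (Scheme.Hom.preimage_iSup (p ≫ q) _).symm
    rw [h1, hc]
    rfl
  · intro i
    refine (hS i).le.trans (Ideal.span_le.2 ?_)
    intro s hs'
    apply Ideal.subset_span
    refine ⟨(hS i).ge (Ideal.subset_span hs'), ?_⟩
    · obtain ⟨t, ht⟩ := hs i s hs' le_rfl
      refine ⟨t, ?_⟩
      rw [← ht]
      exact (appLE_eq_app p _ _ _).symm

section

variable {K : Type} [Field K] {B : Subring K} {Y₀ : Scheme.{0}}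
  (y₀ : Y₀ ⟶ Spec (CommRingCat.of B)) {Y : Scheme.{0}} {a : Y ⟶ Y₀}
  {f : Y ⟶ Spec (CommRingCat.of K)}

instance isAffineHom_toB (B : Subring K) : IsAffineHom (toB B) := by
  unfold toB
  infer_instance

/-- the ideal of a closed subscheme is generated by sections from the base changes of the model -/
theorem exists_closed (hy : IsFT y₀) (H : IsPullback a f y₀ (toB B)) (I : Y.IdealSheafData) :
    ∃ T : Finset K, ∀ (T' : Finset K) (_ : T ≤ T'),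
      (I.map (lft y₀ H (le_adj B T'))).comap (lft y₀ H (le_adj B T')) = I := by
  classical
  have h0 : CompactSpace Y₀ := compact_of_isFT hy
  have ha : IsAffineHom a := MorphismProperty.of_isPullback (P := @IsAffineHom) H.flip inferInstance
  have hf := hy.of_isPullback H
  have hf' := hf.lft
  have hN : IsLocallyNoetherian Y := LocallyOfFiniteType.isLocallyNoetherian f
  obtain ⟨s, hs, hs'⟩ := isCompact_iff_finite_and_eq_biUnion_affineOpens.1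
    (show IsCompact ((⊤ : Y₀.Opens) : Set Y₀) from isCompact_univ)
  have hfin : Finite s := hs
  have hcov : ⨆ i : s, (i.1.1 : Y₀.Opens) = ⊤ := by
    rw [hs', iSup_subtype]
  have h1 : ∀ i : s, ∃ S : Finset Γ(Y, a ⁻¹ᵁ i.1.1),
      Ideal.span (S : Set Γ(Y, a ⁻¹ᵁ i.1.1)) = I.ideal ⟨a ⁻¹ᵁ i.1.1, i.1.2.preimage a⟩ := by
    intro i
    have h2 : IsNoetherianRing Γ(Y, a ⁻¹ᵁ i.1.1) :=
      IsLocallyNoetherian.component_noetherian ⟨a ⁻¹ᵁ i.1.1, i.1.2.preimage a⟩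
    exact (isNoetherianRing_iff_ideal_fg _).1 h2 _
  choose S hS using h1
  have h2 : ∀ (i : s) (x : Γ(Y, a ⁻¹ᵁ i.1.1)), ∃ T : Finset K, ∀ (T' : Finset K) (_ : T ≤ T')
      (e : a ⁻¹ᵁ i.1.1 ≤ lft y₀ H (le_adj B T') ⁻¹ᵁ
        (pullback.fst y₀ (incl (le_adj B T')) ⁻¹ᵁ i.1.1)),
      ∃ t : Γ(bc y₀ (le_adj B T'), pullback.fst y₀ (incl (le_adj B T')) ⁻¹ᵁ i.1.1),
        (lft y₀ H (le_adj B T')).appLE _ _ e t = x :=
    fun i x => exists_section' y₀ H i.1.1 i.1.2 x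
  choose T hT using h2
  have _ : Fintype s := Fintype.ofFinite s
  let T₁ : Finset K := Finset.univ.biUnion fun i : s => (S i).biUnion fun x => T i x
  refine ⟨T₁, fun T' hT' => ?_⟩
  have h3 : IsAffineHom (lft y₀ H (le_adj B T')) :=
    MorphismProperty.of_isPullback (P := @IsAffineHom) (isPullback_lft y₀ H (le_adj B T')).flip
      inferInstance
  refine comap_map_eq' (lft y₀ H (le_adj B T')) (pullback.fst y₀ (incl (le_adj B T'))) a
    (lft_fst y₀ H _) I (fun i : s => i.1) hcov (fun i => (S i : Set _)) (fun i => (hS i).symm) ?_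
  intro i x hx e
  refine hT i x T' (fun z hz => hT' ?_) e
  exact Finset.mem_biUnion.2 ⟨i, Finset.mem_univ _, Finset.mem_biUnion.2 ⟨x, hx, hz⟩⟩

end

end Pool.Agent.Helper45.LS
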