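import Pool.Agent.Helper45.LS.Fib

/-!
# Classes of rings given by the base changes of a scheme
-/

set_option autoImplicit false

namespace Pool.Agent.Helper45.LS

open AlgebraicGeometry CategoryTheory Limits TopologicalSpace Pool.Agent.Helper45.LG

/-- A class of (finitely generated) rings closed under some affine operations. -/
structure Cls (Q : ∀ (R : Type) [CommRing R], Prop) : Prop where
  iso : ∀ (R S : Type) [CommRing R] [CommRing S], Algebra.FiniteType ℤ R → (R ≃+* S) → Q R → Q S
  zero : ∀ (R : Type) [CommRing R], Subsingleton R → Q R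
  glue : ∀ (R : Type) [CommRing R] (f : R), Algebra.FiniteType ℤ R → Q (R ⧸ Ideal.span {f}) →
    Q (Localization.Away f) → Q R

section

variable {Q : ∀ (R : Type) [CommRing R], Prop}

theorem Cls.prod (hQ : Cls Q) (R S : Type) [CommRing R] [CommRing S]
    (hR : Algebra.FiniteType ℤ R) (hS : Algebra.FiniteType ℤ S) (h1 : Q R) (h2 : Q S) :
    Q (R × S) := by
  have hft : Algebra.FiniteType ℤ (R × S) := inferInstance
  have e1 : Nonempty (S ≃+* (R × S) ⧸ Ideal.span {((1, 0) : R × S)}) := by
    have hs : Function.Surjective (RingHom.snd R S) := fun s => ⟨(0, s), rfl⟩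
    have hk : RingHom.ker (RingHom.snd R S) = Ideal.span {((1, 0) : R × S)} := by
      apply le_antisymm
      · rintro ⟨a, b⟩ hab
        have hb : b = 0 := hab
        rw [Ideal.mem_span_singleton]
        exact ⟨(a, 0), by simp [hb]⟩
      · rw [Ideal.span_singleton_le_iff_mem]
        rfl
    exact ⟨((Ideal.quotEquivOfEq hk.symm).trans
      (RingHom.quotientKerEquivOfSurjective hs)).symm⟩
  have e2 : Nonempty (R ≃+* Localization.Away ((1, 0) : R × S)) := by
    let _ : Algebra (R × S) R := (RingHom.fst R S).toAlgebra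
    have hk : RingHom.ker (algebraMap (R × S) R) = Ideal.span {1 - ((1, 0) : R × S)} := by
      apply le_antisymm
      · rintro ⟨a, b⟩ hab
        have ha : a = 0 := hab
        rw [Ideal.mem_span_singleton]
        exact ⟨(0, b), by simp [ha, Prod.ext_iff]⟩
      · rw [Ideal.span_singleton_le_iff_mem]
        change (1 : R) - 1 = 0
        exact sub_self _
    have hl : IsLocalization.Away ((1, 0) : R × S) R :=
      IsLocalization.away_of_isIdempotentElem (by simp [IsIdempotentElem]) hk
        (fun r => ⟨(r, 0), rfl⟩)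
    exact ⟨(IsLocalization.algEquiv (Submonoid.powers ((1, 0) : R × S)) R
      (Localization.Away ((1, 0) : R × S))).toRingEquiv⟩
  obtain ⟨e1⟩ := e1
  obtain ⟨e2⟩ := e2
  exact hQ.glue (R × S) (1, 0) hft (hQ.iso _ _ hS e1 h2) (hQ.iso _ _ hR e2 h1)

/-- nilpotent elements -/
theorem Cls.nilp (hQ : Cls Q) (R : Type) [CommRing R] (f : R)
    (hft : Algebra.FiniteType ℤ R) (hf : IsNilpotent f) (h : Q (R ⧸ Ideal.span {f})) : Q R := by
  refine hQ.glue R f hft h (hQ.zero _ ?_)
  obtain ⟨n, hn⟩ := hf
  exact IsLocalization.subsingleton (M := Submonoid.powers f) ⟨n, hn⟩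

theorem Cls.quot_prime_pow (hQ : Cls Q) (A : Type) [CommRing A]
    (hft : Algebra.FiniteType ℤ A) (p n : ℕ) (hn : 0 < n) (h : Q (A ⧸ Ideal.span {(p : A)})) :
    Q (A ⧸ Ideal.span {((p ^ n : ℕ) : A)}) := by
  set I : Ideal A := Ideal.span {((p ^ n : ℕ) : A)} with hI
  have hle : I ≤ Ideal.span {(p : A)} := by
    rw [hI, Ideal.span_singleton_le_span_singleton]
    push_cast
    exact dvd_pow_self _ hn.ne'
  have e := DoubleQuot.quotQuotEquivQuotOfLE hle
  have hmap : Ideal.map (Ideal.Quotient.mk I) (Ideal.span {(p : A)}) =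
      Ideal.span {((p : ℕ) : A ⧸ I)} := by
    rw [Ideal.map_span, Set.image_singleton, map_natCast]
  rw [hmap] at e
  refine hQ.nilp (A ⧸ I) ((p : ℕ) : A ⧸ I) (finiteType_quot hft I) ⟨n, ?_⟩
    (hQ.iso _ _ (finiteType_quot hft _) e.symm h)
  have h1 : ((p : ℕ) : A ⧸ I) ^ n = Ideal.Quotient.mk I ((p ^ n : ℕ) : A) := by
    push_cast
    rfl
  rw [h1, Ideal.Quotient.eq_zero_iff_mem, hI]
  exact Ideal.subset_span rfl

theorem Cls.quot_nat (hQ : Cls Q) (A : Type) [CommRing A]
    (hft : Algebra.FiniteType ℤ A) (n : ℕ) (hn : 0 < n)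
    (h : ∀ p : ℕ, p.Prime → Q (A ⧸ Ideal.span {(p : A)})) :
    Q (A ⧸ Ideal.span {(n : A)}) := by
  induction n using Nat.recOnPosPrimePosCoprime with
  | zero => exact absurd hn (lt_irrefl 0)
  | one =>
    apply hQ.zero
    rw [Ideal.Quotient.subsingleton_iff, Nat.cast_one, Ideal.span_singleton_one]
  | prime_pow p n hp hn' => exact hQ.quot_prime_pow A hft p n hn' (h p hp)
  | coprime a b ha hb hab iha ihb =>
    have h1 := iha (zero_lt_one.trans ha)
    have h2 := ihb (zero_lt_one.trans hb)
    have hcop : IsCoprime (Ideal.span {(a : A)}) (Ideal.span {(b : A)}) := by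
      rw [Ideal.isCoprime_span_singleton_iff]
      exact Nat.Coprime.cast hab
    have e := Ideal.quotientMulEquivQuotientProd _ _ hcop
    rw [Ideal.span_singleton_mul_span_singleton, ← Nat.cast_mul] at e
    have hf1 := finiteType_quot hft (Ideal.span {(a : A)})
    have hf2 := finiteType_quot hft (Ideal.span {(b : A)})
    have hf3 : Algebra.FiniteType ℤ ((A ⧸ Ideal.span {(a : A)}) × (A ⧸ Ideal.span {(b : A)})) :=
      inferInstance
    exact hQ.iso _ _ hf3 e.symm (hQ.prod _ _ hf1 hf2 h1 h2)

open Polynomial in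
/-- the quotient by the product of linear factors -/
theorem Cls.quot_split (hQ : Cls Q) {T : Type} [CommRing T]
    (hT : Algebra.FiniteType ℤ T) (h : Q T) (s : Multiset T)
    (hs : ∀ a t, s = a ::ₘ t → IsUnit (t.map (fun b => a - b)).prod) :
    Q (T[X] ⧸ Ideal.span {(s.map (fun a => X - C a)).prod}) := by
  induction s using Multiset.induction_on with
  | empty =>
    apply hQ.zero
    rw [Ideal.Quotient.subsingleton_iff, Multiset.map_zero, Multiset.prod_zero,
      Ideal.span_singleton_one]
  | cons a t ih =>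
    have ht : ∀ b t', t = b ::ₘ t' → IsUnit (t'.map (fun c => b - c)).prod := by
      intro b t' hbt
      have h1 := hs b (a ::ₘ t') (by rw [hbt, Multiset.cons_swap])
      rw [Multiset.map_cons, Multiset.prod_cons] at h1
      exact isUnit_of_mul_isUnit_right h1
    have h2 := ih ht
    have hcop : IsCoprime (Ideal.span {X - C a}) (Ideal.span {(t.map (fun a => X - C a)).prod}) := by
      rw [Ideal.isCoprime_span_singleton_iff]
      set p : T[X] := (t.map (fun a => X - C a)).prod with hp
      have h3 : IsUnit (p.eval a) := by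
        have h4 : p.eval a = (t.map (fun b => a - b)).prod := by
          rw [hp, eval_multiset_prod, Multiset.map_map]
          congr 1
          apply Multiset.map_congr rfl
          intro b _
          simp
        rw [h4]
        exact hs a t rfl
      obtain ⟨u, hu⟩ := h3.exists_left_inv
      obtain ⟨q, hq⟩ := X_sub_C_dvd_sub_C_eval (a := a) (p := p)
      refine ⟨- (C u * q), C u, ?_⟩
      have h5 : p = (X - C a) * q + C (p.eval a) := by rw [← hq]; ring
      have h6 : C u * C (p.eval a) = 1 := by rw [← C_mul, hu, C_1]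
      calc -(C u * q) * (X - C a) + C u * p
          = -(C u * q) * (X - C a) + C u * ((X - C a) * q + C (p.eval a)) := by rw [← h5]
        _ = C u * C (p.eval a) := by ring
        _ = 1 := h6
    have e := Ideal.quotientMulEquivQuotientProd _ _ hcop
    rw [Ideal.span_singleton_mul_span_singleton] at e
    rw [Multiset.map_cons, Multiset.prod_cons]
    have hTX := finiteType_poly hT
    have hf1 := finiteType_quot hTX (Ideal.span {X - C a})
    have hf2 := finiteType_quot hTX (Ideal.span {(t.map (fun a => X - C a)).prod})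
    have hf3 : Algebra.FiniteType ℤ ((T[X] ⧸ Ideal.span {X - C a}) ×
      (T[X] ⧸ Ideal.span {(t.map (fun a => X - C a)).prod})) := inferInstance
    refine hQ.iso _ _ hf3 e.symm (hQ.prod _ _ hf1 hf2 ?_ h2)
    exact hQ.iso _ _ hT (quotientSpanXSubCAlgEquiv a).symm.toRingEquiv h

end

section

variable {P : Scheme.{0} → Prop} (hP : MorinClosed P) {X : Scheme.{0}} (hX : Arithmetic X)

include hP hX

/-- the rings `R` such that the base change of `X` to `R` belongs to `P` -/
theorem cls_fibre : Cls (fun R _ => P (fibre X R)) where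
  iso R S _ _ hR e h := hP.iso _ _ (arithmetic_fibre hX hR) ⟨(fibreIso X e).symm⟩ h
  zero R _ hR := by
    apply hP.empty
    have h1 : IsEmpty (Spec (CommRingCat.of R)) := inferInstanceAs (IsEmpty (PrimeSpectrum R))
    exact Function.isEmpty (fibreTo X R)
  glue R _ f hR h1 h2 :=
    hP.glue _ _ _ _ _ (arithmetic_fibre hX hR) (closedOpen_of_isPullback
      (isPullback_fibreMap X (Ideal.Quotient.mk (Ideal.span {f}))).flip
      (isPullback_fibreMap X (algebraMap R (Localization.Away f))).flip
      (closedOpen_spec R f)) h1 h2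

end

end Pool.Agent.Helper45.LS
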