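import Pool.Agent.Helper45.LG.Base

/-!
# Geometric classes of schemes over a field
-/

set_option autoImplicit false

namespace Pool.Agent.Helper45.LS

open AlgebraicGeometry CategoryTheory Limits Pool.Agent.Helper45.LG

/-- The base change of the scheme `X` to the ring `R`. -/
noncomputable def fibre (X : Scheme.{0}) (R : Type) [CommRing R] : Scheme.{0} :=
  pullback (specZIsTerminal.from X) (specZIsTerminal.from (Spec (CommRingCat.of R)))

/-- The structure map of the base change of `X` to `R`. -/
noncomputable def fibreTo (X : Scheme.{0}) (R : Type) [CommRing R] :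
    fibre X R ⟶ Spec (CommRingCat.of R) :=
  pullback.snd _ _

/-- The scheme `X` over the field `K` has a model: it is the base change of a separated scheme of
finite type over a finitely generated subring of `K`. -/
def HasModel {K : Type} [Field K] {X : Scheme.{0}} (f : X ⟶ Spec (CommRingCat.of K)) : Prop :=
  ∃ (B : Subring K) (Y : Scheme.{0}) (y : Y ⟶ Spec (CommRingCat.of B)) (a : X ⟶ Y),
    Algebra.FiniteType ℤ B ∧ LocallyOfFiniteType y ∧ QuasiCompact y ∧ IsSeparated y ∧
    IsPullback a f y (Spec.map (CommRingCat.ofHom B.subtype))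

/-- The scheme `X` over the field `K` is the base change of a separated scheme `X₀` of finite type
over a finite field `k` all of whose base changes to finite extension fields of `k` belong to the
class `P`. -/
def Seed (P : Scheme.{0} → Prop) {K : Type} [Field K] {X : Scheme.{0}}
    (f : X ⟶ Spec (CommRingCat.of K)) : Prop :=
  ∃ (k : Type) (_ : Field k) (_ : Algebra k K) (X₀ : Scheme.{0})
    (g : X₀ ⟶ Spec (CommRingCat.of k)) (a : X ⟶ X₀),
    Finite k ∧ LocallyOfFiniteType g ∧ QuasiCompact g ∧ IsSeparated g ∧
    IsPullback a f g (Spec.map (CommRingCat.ofHom (algebraMap k K))) ∧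
    ∀ (k' : Type) [Field k'] [Finite k'] [Algebra k k'],
      P (pullback g (Spec.map (CommRingCat.ofHom (algebraMap k k'))))

/-- The group `G` acts freely on the spectrum of the ring `V`, and `U` is the ring of invariants
(via `ρ`). -/
structure FreeQuotient {U V : Type} [CommRing U] [CommRing V] (ρ : U →+* V) (G : Type) [Group G]
    [MulSemiringAction G V] : Prop where
  injective : Function.Injective ρ
  invariant : ∀ (σ : G) (u : U), σ • ρ u = ρ u
  exists_eq : ∀ v : V, (∀ σ : G, σ • v = v) → ∃ u, ρ u = v
  free : ∀ σ : G, σ ≠ 1 → Ideal.span (Set.range fun v : V => v - σ • v) = ⊤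

/-- **The geometric class** of schemes over the field `K` given by the class `P`: it contains the
empty scheme, `Spec K` and the schemes `Seed P`, and it is closed under isomorphisms,
two-out-of-three for a closed subscheme `Z`, its complement `U` and the whole scheme `X`, open and
closed subschemes, affine lines over affine schemes, and descent along the finite etale Galois
coverings of `X` which are the base changes of the coverings `Spec V ⟶ Spec U` given by the free
actions of finite groups on affine schemes. -/
inductive GeometricScheme (P : Scheme.{0} → Prop) (K : Type) [Field K] :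
    ∀ {X : Scheme.{0}}, (X ⟶ Spec (CommRingCat.of K)) → Prop
  | empty {X : Scheme.{0}} (f : X ⟶ Spec (CommRingCat.of K)) : IsEmpty X → GeometricScheme P K f
  | base : GeometricScheme P K (𝟙 (Spec (CommRingCat.of K)))
  | seed {X : Scheme.{0}} (f : X ⟶ Spec (CommRingCat.of K)) : Seed P f → GeometricScheme P K f
  | iso {X Y : Scheme.{0}} (f : X ⟶ Spec (CommRingCat.of K)) (e : Y ≅ X) :
      GeometricScheme P K f → GeometricScheme P K (e.hom ≫ f)
  | glue {Z X U : Scheme.{0}} (f : X ⟶ Spec (CommRingCat.of K)) (i : Z ⟶ X) (j : U ⟶ X) :
      ClosedOpen i j → GeometricScheme P K (i ≫ f) → GeometricScheme P K (j ≫ f) →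
      GeometricScheme P K f
  | closed {Z X U : Scheme.{0}} (f : X ⟶ Spec (CommRingCat.of K)) (i : Z ⟶ X) (j : U ⟶ X) :
      HasModel f → ClosedOpen i j → GeometricScheme P K f → GeometricScheme P K (j ≫ f) →
      GeometricScheme P K (i ≫ f)
  | opn {Z X U : Scheme.{0}} (f : X ⟶ Spec (CommRingCat.of K)) (i : Z ⟶ X) (j : U ⟶ X) :
      HasModel f → ClosedOpen i j → GeometricScheme P K f → GeometricScheme P K (i ≫ f) →
      GeometricScheme P K (j ≫ f)
  | clopen {Z X : Scheme.{0}} (f : X ⟶ Spec (CommRingCat.of K)) (i : Z ⟶ X) :
      HasModel f → IsClosedImmersion i → IsOpenImmersion i → GeometricScheme P K f →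
      GeometricScheme P K (i ≫ f)
  | line (R : Type) [CommRing R] [Algebra K R] : Algebra.FiniteType K R →
      GeometricScheme P K (Spec.map (CommRingCat.ofHom (algebraMap K R))) →
      GeometricScheme P K (Spec.map (CommRingCat.ofHom (algebraMap K (Polynomial R))))
  | quotient {X : Scheme.{0}} (f : X ⟶ Spec (CommRingCat.of K)) (U V G : Type) [CommRing U]
      [CommRing V] [Group G] [MulSemiringAction G V] (ρ : U →+* V)
      (s : X ⟶ Spec (CommRingCat.of U)) : Finite G → FreeQuotient ρ G →
      GeometricScheme P K (pullback.fst s (Spec.map (CommRingCat.ofHom ρ)) ≫ f) →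
      GeometricScheme P K f

end Pool.Agent.Helper45.LS
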