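import Pool.Agent.Helper45.LS.Limit

/-!
# The base changes of a scheme over a subring of a field
-/

set_option autoImplicit false

namespace Pool.Agent.Helper45.LS

open AlgebraicGeometry CategoryTheory Limits

variable {K : Type} [Field K]

/-- `Spec K ⟶ Spec B` -/
noncomputable def toB (B : Subring K) : Spec (CommRingCat.of K) ⟶ Spec (CommRingCat.of B) :=
  Spec.map (CommRingCat.ofHom B.subtype)

/-- `Spec B' ⟶ Spec B` -/
noncomputable def incl {B B' : Subring K} (h : B ≤ B') :
    Spec (CommRingCat.of B') ⟶ Spec (CommRingCat.of B) :=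
  Spec.map (CommRingCat.ofHom (Subring.inclusion h))

instance {B B' : Subring K} (h : B ≤ B') : IsAffineHom (incl h) := by
  unfold incl
  infer_instance

theorem toB_incl {B B' : Subring K} (h : B ≤ B') : toB B' ≫ incl h = toB B := by
  rw [toB, incl, toB, ← Spec.map_comp, incl_subtype]

theorem incl_comp {B B' B'' : Subring K} (h : B ≤ B') (h' : B' ≤ B'') :
    incl h' ≫ incl h = incl (h.trans h') := by
  rw [incl, incl, incl, ← Spec.map_comp, incl_incl]

theorem incl_self (B : Subring K) : incl (le_refl B) = 𝟙 _ := by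
  rw [incl, incl_refl, Spec.map_id]

section

variable {B : Subring K} {Y₀ : Scheme.{0}} (y₀ : Y₀ ⟶ Spec (CommRingCat.of B))

/-- the base change of `Y₀` to `B'` -/
noncomputable abbrev bc {B' : Subring K} (h : B ≤ B') : Scheme.{0} := pullback y₀ (incl h)

/-- its structure map -/
noncomputable abbrev bcs {B' : Subring K} (h : B ≤ B') : bc y₀ h ⟶ Spec (CommRingCat.of B') :=
  pullback.snd y₀ (incl h)

/-- the transition maps -/
noncomputable def trans {B' B'' : Subring K} (h : B ≤ B') (h' : B' ≤ B'') (h'' : B ≤ B'') :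
    bc y₀ h'' ⟶ bc y₀ h :=
  pullback.lift (pullback.fst _ _) (pullback.snd _ _ ≫ incl h') (by
    rw [Category.assoc, incl_comp, pullback.condition])

@[reassoc (attr := simp)]
theorem trans_fst {B' B'' : Subring K} (h : B ≤ B') (h' : B' ≤ B'') (h'' : B ≤ B'') :
    trans y₀ h h' h'' ≫ pullback.fst _ _ = pullback.fst _ _ := by
  rw [trans, pullback.lift_fst]

@[reassoc (attr := simp)]
theorem trans_snd {B' B'' : Subring K} (h : B ≤ B') (h' : B' ≤ B'') (h'' : B ≤ B'') :
    trans y₀ h h' h'' ≫ pullback.snd _ _ = pullback.snd _ _ ≫ incl h' := by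
  rw [trans, pullback.lift_snd]

theorem isPullback_trans {B' B'' : Subring K} (h : B ≤ B') (h' : B' ≤ B'') (h'' : B ≤ B'') :
    IsPullback (trans y₀ h h' h'') (bcs y₀ h'') (bcs y₀ h) (incl h') := by
  have h1 : IsPullback (pullback.fst y₀ (incl h'')) (pullback.snd y₀ (incl h'')) y₀ (incl h'') :=
    IsPullback.of_hasPullback _ _
  have h2 : IsPullback (pullback.fst y₀ (incl h)) (pullback.snd y₀ (incl h)) y₀ (incl h) :=
    IsPullback.of_hasPullback _ _
  refine IsPullback.of_right ?_ (trans_snd y₀ h h' h'') h2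
  rw [trans_fst, incl_comp]
  exact h1

theorem trans_comp {B₁ B₂ B₃ : Subring K} (h₁ : B ≤ B₁) (h₂ : B ≤ B₂) (h₃ : B ≤ B₃)
    (h₁₂ : B₁ ≤ B₂) (h₂₃ : B₂ ≤ B₃) (h₁₃ : B₁ ≤ B₃) :
    trans y₀ h₂ h₂₃ h₃ ≫ trans y₀ h₁ h₁₂ h₂ = trans y₀ h₁ h₁₃ h₃ := by
  apply pullback.hom_ext
  · simp
  · simp [incl_comp]

theorem trans_self {B' : Subring K} (h : B ≤ B') (h' : B' ≤ B') :
    trans y₀ h h' h = 𝟙 _ := by
  apply pullback.hom_ext
  · simp
  · simp [incl_self]

/-- the diagram of the base changes -/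
noncomputable def diag : (Finset K)ᵒᵖ ⥤ Scheme.{0} where
  obj T := bc y₀ (le_adj B T.unop)
  map f := trans y₀ _ (adj_mono B (leOfHom f.unop)) _
  map_id _ := trans_self y₀ _ _
  map_comp _ _ := (trans_comp y₀ _ _ _ _ _ _).symm

/-- the map to the diagram of the spectra -/
noncomputable def diagMap : diag y₀ ⟶ specDiag B where
  app T := bcs y₀ (le_adj B T.unop)
  naturality _ _ _ := trans_snd y₀ _ _ _

variable {Y : Scheme.{0}} {a : Y ⟶ Y₀} {f : Y ⟶ Spec (CommRingCat.of K)}
  (H : IsPullback a f y₀ (toB B))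

include H in
theorem lft_aux {B' : Subring K} (h : B ≤ B') : a ≫ y₀ = (f ≫ toB B') ≫ incl h := by
  rw [Category.assoc, toB_incl]
  exact H.w

/-- the map from `Y` to the base change -/
noncomputable def lft {B' : Subring K} (h : B ≤ B') : Y ⟶ bc y₀ h :=
  pullback.lift a (f ≫ toB B') (lft_aux y₀ H h)

@[reassoc (attr := simp)]
theorem lft_fst {B' : Subring K} (h : B ≤ B') : lft y₀ H h ≫ pullback.fst _ _ = a := by
  rw [lft, pullback.lift_fst]

@[reassoc (attr := simp)]
theorem lft_snd {B' : Subring K} (h : B ≤ B') : lft y₀ H h ≫ pullback.snd _ _ = f ≫ toB B' := by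
  rw [lft, pullback.lift_snd]

theorem isPullback_lft {B' : Subring K} (h : B ≤ B') :
    IsPullback (lft y₀ H h) f (bcs y₀ h) (toB B') := by
  have h2 : IsPullback (pullback.fst y₀ (incl h)) (pullback.snd y₀ (incl h)) y₀ (incl h) :=
    IsPullback.of_hasPullback _ _
  refine IsPullback.of_right ?_ (lft_snd y₀ H h) h2
  rw [lft_fst, toB_incl]
  exact H

@[reassoc (attr := simp)]
theorem lft_trans {B' B'' : Subring K} (h : B ≤ B') (h' : B' ≤ B'') (h'' : B ≤ B'') :
    lft y₀ H h'' ≫ trans y₀ h h' h'' = lft y₀ H h := by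
  apply pullback.hom_ext
  · simp
  · simp [toB_incl]

/-- the cone with the point `Y` -/
noncomputable def cone : Cone (diag y₀) where
  pt := Y
  π := { app := fun T => lft y₀ H (le_adj B T.unop)
         naturality := fun _ _ _ => (Category.id_comp _).trans (lft_trans y₀ H _ _ _).symm }

/-- `Y` is the limit of the base changes -/
noncomputable def limitCone : IsLimit (cone y₀ H) :=
  have : IsConnected (Finset K)ᵒᵖ := IsCofiltered.isConnected _
  isLimitOfIsPullbackOfIsConnected (diagMap y₀) (cone y₀ H) (specCone B)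
    { hom := f
      w := fun T => (lft_snd y₀ H (le_adj B T.unop)).symm }
    (fun T => isPullback_lft y₀ H (le_adj B T.unop)) (specLimit B)

end

end Pool.Agent.Helper45.LS
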