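import Pool.Agent.Helper45.LS.SprSeed

/-!
# The base changes of an arithmetic scheme
-/

set_option autoImplicit false

namespace Pool.Agent.Helper45.LS

open AlgebraicGeometry CategoryTheory Limits TopologicalSpace Pool.Agent.Helper45.LG

variable (X : Scheme.{0})

/-- the projection of the base change -/
noncomputable def fibreFst (R : Type) [CommRing R] : fibre X R ⟶ X := pullback.fst _ _

/-- functoriality of the base change -/
noncomputable def fibreMap {R S : Type} [CommRing R] [CommRing S] (u : R →+* S) :
    fibre X S ⟶ fibre X R :=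
  pullback.lift (fibreFst X S) (fibreTo X S ≫ Spec.map (CommRingCat.ofHom u))
    (specZIsTerminal.hom_ext _ _)

@[reassoc (attr := simp)]
theorem fibreMap_to {R S : Type} [CommRing R] [CommRing S] (u : R →+* S) :
    fibreMap X u ≫ fibreTo X R = fibreTo X S ≫ Spec.map (CommRingCat.ofHom u) :=
  pullback.lift_snd _ _ _

@[reassoc (attr := simp)]
theorem fibreMap_fst {R S : Type} [CommRing R] [CommRing S] (u : R →+* S) :
    fibreMap X u ≫ fibreFst X R = fibreFst X S :=
  pullback.lift_fst _ _ _

theorem isPullback_fibre (R : Type) [CommRing R] :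
    IsPullback (fibreFst X R) (fibreTo X R) (specZIsTerminal.from X)
      (specZIsTerminal.from (Spec (CommRingCat.of R))) :=
  IsPullback.of_hasPullback _ _

theorem isPullback_fibreMap {R S : Type} [CommRing R] [CommRing S] (u : R →+* S) :
    IsPullback (fibreMap X u) (fibreTo X S) (fibreTo X R) (Spec.map (CommRingCat.ofHom u)) := by
  refine IsPullback.of_right ?_ (fibreMap_to X u) (isPullback_fibre X R)
  rw [fibreMap_fst, specZIsTerminal.hom_ext (Spec.map (CommRingCat.ofHom u) ≫
    specZIsTerminal.from (Spec (CommRingCat.of R))) (specZIsTerminal.from _)]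
  exact isPullback_fibre X S

theorem fibreMap_id (R : Type) [CommRing R] : fibreMap X (RingHom.id R) = 𝟙 (fibre X R) := by
  apply (isPullback_fibre X R).hom_ext
  · simp
  · simp

theorem fibreMap_comp {R S T : Type} [CommRing R] [CommRing S] [CommRing T] (u : R →+* S)
    (v : S →+* T) : fibreMap X (v.comp u) = fibreMap X v ≫ fibreMap X u := by
  apply (isPullback_fibre X R).hom_ext
  · simp
  · simp

/-- isomorphic rings have isomorphic fibres -/
noncomputable def fibreIso {R S : Type} [CommRing R] [CommRing S] (e : R ≃+* S) :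
    fibre X S ≅ fibre X R where
  hom := fibreMap X (e : R →+* S)
  inv := fibreMap X (e.symm : S →+* R)
  hom_inv_id := by
    rw [← fibreMap_comp]
    simp [fibreMap_id]
  inv_hom_id := by
    rw [← fibreMap_comp]
    simp [fibreMap_id]

/-- base change preserves the cartesian squares -/
theorem isPullback_fibre_square {R S T U : Type} [CommRing R] [CommRing S] [CommRing T]
    [CommRing U] {a : R →+* S} {b : R →+* T} {c : S →+* U} {d : T →+* U}
    (h : IsPushout (CommRingCat.ofHom a) (CommRingCat.ofHom b) (CommRingCat.ofHom c)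
      (CommRingCat.ofHom d)) :
    IsPullback (fibreMap X c) (fibreMap X d) (fibreMap X a) (fibreMap X b) := by
  have h1 : IsPullback (Spec.map (CommRingCat.ofHom c)) (Spec.map (CommRingCat.ofHom d))
      (Spec.map (CommRingCat.ofHom a)) (Spec.map (CommRingCat.ofHom b)) :=
    isPullback_SpecMap_of_isPushout _ _ _ _ h
  have hw : c.comp a = d.comp b := congrArg CommRingCat.Hom.hom h.w
  have h2 := (isPullback_fibreMap X d).flip.paste_horiz h1
  rw [← fibreMap_to, ← fibreMap_to] at h2
  exact IsPullback.of_right h2 (by rw [← fibreMap_comp, ← fibreMap_comp, hw])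
    (isPullback_fibreMap X a).flip

variable {X}

theorem isFT_fibreTo (hX : Arithmetic X) (R : Type) [CommRing R] : IsFT (fibreTo X R) := by
  obtain ⟨f, h1, h2, h3⟩ := hX
  have h : IsFT (specZIsTerminal.from X) := by
    rw [specZIsTerminal.hom_ext (specZIsTerminal.from X) f]
    exact ⟨h1, h2, h3⟩
  exact h.of_isPullback (isPullback_fibre X R)

theorem arithmetic_fibre (hX : Arithmetic X) {R : Type} [CommRing R]
    (hR : Algebra.FiniteType ℤ R) : Arithmetic (fibre X R) :=
  arithmetic_of_isFT hR (isFT_fibreTo hX R)

theorem fibreInt (X : Scheme.{0}) : Nonempty (fibre X ℤ ≅ X) := by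
  have h1 : IsIso (specZIsTerminal.from (Spec (CommRingCat.of ℤ))) := by
    rw [specZIsTerminal.hom_ext (specZIsTerminal.from (Spec (CommRingCat.of ℤ))) (𝟙 _)]
    infer_instance
  have h2 : IsIso (fibreFst X ℤ) :=
    MorphismProperty.of_isPullback (P := MorphismProperty.isomorphisms _)
      (isPullback_fibre X ℤ).flip h1
  exact ⟨asIso (fibreFst X ℤ)⟩

end Pool.Agent.Helper45.LS
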