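import Pool.Agent.Helper45.LS.Line
import Pool.Agent.Helper45.LS.Chr

/-!
# Descent along free quotients
-/

set_option autoImplicit false

namespace Pool.Agent.Helper45.LS

open AlgebraicGeometry CategoryTheory Limits TopologicalSpace Pool.Agent.Helper45.LG

section

variable {U : Type} [CommRing U] {Q : ∀ (R : Type) [CommRing R], (U →+* R) → Prop}

theorem finiteType_pi {T : Type} [CommRing T] {τ : U →+* T} (hT : τ.FiniteType) (α : Type)
    [Finite α] : (RingHom.pi fun _ : α => τ).FiniteType := by
  have h1 : Module.Finite T (α → T) := inferInstance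
  have h2 : Algebra.FiniteType T (α → T) := inferInstance
  have h3 : (algebraMap T (α → T)).FiniteType := RingHom.finiteType_algebraMap.2 h2
  exact h3.comp hT

/-- finite powers -/
theorem OCls.pi (hQ : OCls U Q) {T : Type} [CommRing T] {τ : U →+* T} (hT : τ.FiniteType)
    (h : Q T τ) (α : Type) [Fintype α] : Q (α → T) (RingHom.pi fun _ => τ) := by
  refine Fintype.induction_empty_option (P := fun α _ => Q (α → T) (RingHom.pi fun _ => τ))
    ?_ ?_ ?_ α
  · intro α β _ e ih
    let E : (α → T) ≃+* (β → T) :=
      { toFun := fun f b => f (e.symm b)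
        invFun := fun f a => f (e a)
        left_inv := fun f => by funext a; simp
        right_inv := fun f => by funext b; simp
        map_mul' := fun _ _ => rfl
        map_add' := fun _ _ => rfl }
    have : Fintype α := Fintype.ofEquiv β e.symm
    exact hQ.iso _ _ (RingHom.pi fun _ : α => τ) _ E rfl (finiteType_pi hT α) ih
  · exact hQ.zero _ _ inferInstance
  · intro α _ ih
    let E : T × (α → T) ≃+* (Option α → T) :=
      { toFun := fun f a => a.elim f.1 f.2
        invFun := fun f => (f none, fun a => f (some a))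
        left_inv := fun f => rfl
        right_inv := fun f => by funext a; cases a <;> rfl
        map_mul' := fun _ _ => by funext a; cases a <;> rfl
        map_add' := fun _ _ => by funext a; cases a <;> rfl }
    refine hQ.iso _ _ (τ.prod (RingHom.pi fun _ : α => τ)) _ E ?_
      (finiteType_prod hT (finiteType_pi hT α)) (hQ.prod _ _ _ _ hT (finiteType_pi hT α) h ih)
    ext u a
    cases a <;> rfl

end

/-- the pushout of a Galois extension -/
theorem isPushout_dual {U V T ι G : Type} [CommRing U] [CommRing V] [CommRing T] [Fintype ι]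
    [Group G] [Fintype G] [MulSemiringAction G V] {x y : ι → V} {t : V → U} {ρ : U →+* V}
    (h : Dual ρ G x y t) (j : V →+* T) :
    IsPushout (CommRingCat.ofHom (j.comp ρ)) (CommRingCat.ofHom ρ)
      (CommRingCat.ofHom (RingHom.pi fun _ : G => RingHom.id T))
      (CommRingCat.ofHom (RingHom.pi fun σ : G => j.comp (MulSemiringAction.toRingHom G V σ))) := by
  let _ : Algebra U V := ρ.toAlgebra
  let _ : Algebra U T := (j.comp ρ).toAlgebra
  have h' : Dual (algebraMap U V) G x y t := h
  let j' : V →ₐ[U] T := { j with commutes' := fun _ => rfl }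
  have h1 := CommRingCat.isPushout_tensorProduct U T V
  refine IsPushout.of_iso h1 (Iso.refl _) (Iso.refl _) (Iso.refl _)
    (h'.equiv j').toCommRingCatIso ?_ ?_ ?_ ?_
  · rw [Iso.refl_hom, Iso.refl_hom, Category.id_comp, Category.comp_id]
  · rw [Iso.refl_hom, Iso.refl_hom, Category.id_comp, Category.comp_id]
  · apply CommRingCat.hom_ext
    ext a σ
    have h2 : h'.equiv j' (a ⊗ₜ[U] 1) σ = a := by
      rw [h'.equiv_apply, h'.psi_tmul, smul_one, map_one, mul_one]
    exact h2
  · apply CommRingCat.hom_ext
    ext v σ
    have h2 : h'.equiv j' (1 ⊗ₜ[U] v) σ = j (σ • v) := by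
      rw [h'.equiv_apply, h'.psi_tmul, one_mul]
      rfl
    exact h2

section

variable {P : Scheme.{0} → Prop} (hP : MorinClosed P) {X : Scheme.{0}} (hX : Arithmetic X)
  {U V G : Type} [CommRing U] [CommRing V] [Group G] [Finite G] [MulSemiringAction G V]
  (s : X ⟶ Spec (CommRingCat.of U)) {ρ : U →+* V}

include hP hX

/-- the fibre powers of a free quotient -/
theorem fibrePower_free (h : FreeQuotient ρ G) (hQ : P (ofib s ρ)) (n : ℕ) :
    ∃ (T : Type) (_ : CommRing T) (j : V →+* T)
      (e : (fibrePower (ofibFst s ρ) n).left ≅ ofib s (j.comp ρ)),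
      (fibrePower (ofibFst s ρ) n).hom = e.hom ≫ ofibFst s (j.comp ρ) ∧
      (j.comp ρ).FiniteType ∧ P (ofib s (j.comp ρ)) := by
  cases nonempty_fintype G
  obtain ⟨ι, _, x, y, t, hd⟩ := h.dual
  have hρ : ρ.FiniteType := by
    let _ : Algebra U V := ρ.toAlgebra
    have h' : Dual (algebraMap U V) G x y t := hd
    have h1 := h'.finite
    have h2 : Algebra.FiniteType U V := inferInstance
    exact RingHom.finiteType_algebraMap.2 h2
  induction n with
  | zero =>
    refine ⟨V, inferInstance, RingHom.id _, Iso.refl _, ?_, ?_, ?_⟩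
    · exact (Category.id_comp _).symm
    · exact hρ
    · exact hQ
  | succ n ih =>
    obtain ⟨T, _, j, e, h1, hT, h2⟩ := ih
    have hpo := isPushout_dual hd j
    have hj : ((RingHom.pi fun _ : G => RingHom.id T).comp j).comp ρ =
        (RingHom.pi fun _ : G => RingHom.id T).comp (j.comp ρ) := by rw [RingHom.comp_assoc]
    have hj' : (RingHom.pi fun σ : G => j.comp (MulSemiringAction.toRingHom G V σ)).comp ρ =
        ((RingHom.pi fun _ : G => RingHom.id T).comp j).comp ρ := by
      ext u σ
      exact congrArg j (h.invariant σ u)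
    have hpb := isPullback_ofib_over s hpo hj.symm hj'
    have hpb' : IsPullback (ofibMap s (RingHom.pi fun _ : G => RingHom.id T) hj.symm ≫ e.inv)
        (ofibMap s _ hj') (fibrePower (ofibFst s ρ) n).hom (ofibFst s ρ) := by
      refine IsPullback.of_iso hpb (Iso.refl _) e.symm (Iso.refl _) (Iso.refl _) ?_ ?_ ?_ ?_
      · simp
      · simp
      · rw [h1]
        simp
      · simp
    have hpi : (RingHom.pi fun _ : G => (j.comp ρ)) =
        ((RingHom.pi fun _ : G => RingHom.id T).comp j).comp ρ := by
      ext u σ
      rfl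
    have hT' := finiteType_pi hT G
    rw [hpi] at hT'
    refine ⟨G → T, inferInstance, (RingHom.pi fun _ : G => RingHom.id T).comp j,
      hpb'.isoPullback.symm, ?_, hT', ?_⟩
    · have hF : e.inv ≫ (fibrePower (ofibFst s ρ) n).hom = ofibFst s (j.comp ρ) := by
        rw [Iso.inv_comp_eq]
        exact h1
      have h3 : pullback.fst (fibrePower (ofibFst s ρ) n).hom
          (ofibFst s ρ) ≫ (fibrePower (ofibFst s ρ) n).hom =
          hpb'.isoPullback.inv ≫ ofibMap s (RingHom.pi fun _ : G => RingHom.id T) hj.symm ≫
            ofibFst s (j.comp ρ) := by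
        rw [← hF, ← hpb'.isoPullback_inv_fst]
        simp only [Category.assoc]
      rw [ofibMap_fst] at h3
      exact h3
    · have h4 := (ocls hP hX s).pi hT h2 G
      rw [← hpi]
      exact h4

/-- descent along a free quotient -/
theorem descent_free (h : FreeQuotient ρ G) (hQ : P (ofib s ρ)) : P X := by
  cases nonempty_fintype G
  obtain ⟨ι, _, x, y, t, hd⟩ := h.dual
  have hsq := (isPullback_ofib s ρ).flip
  let _ : Algebra U V := ρ.toAlgebra
  have hd' : Dual (algebraMap U V) G x y t := hd
  have hfin := hd'.finite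
  have het := hd'.etale
  refine hP.etale _ _ (ofibFst s ρ) hX ?_ ?_ ?_ ?_
  · have h1 : IsFinite (Spec.map (CommRingCat.ofHom ρ)) := by
      rw [IsFinite.SpecMap_iff]
      exact RingHom.finite_algebraMap.2 hfin
    exact MorphismProperty.of_isPullback (P := @IsFinite) hsq h1
  · have h1 : Etale (Spec.map (CommRingCat.ofHom ρ)) := by
      rw [HasRingHomProperty.Spec_iff (P := @Etale)]
      exact RingHom.etale_algebraMap.2 het
    exact MorphismProperty.of_isPullback (P := @Etale) hsq h1
  · have h1 : Surjective (Spec.map (CommRingCat.ofHom ρ)) := by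
      refine ⟨?_⟩
      have hint : ρ.IsIntegral :=
        algebraMap_isIntegral_iff.2 (inferInstanceAs (Algebra.IsIntegral U V))
      exact hint.comap_surjective h.injective
    exact MorphismProperty.of_isPullback (P := @Surjective) hsq h1
  · intro n
    obtain ⟨T, _, j, e, -, hT, h2⟩ := fibrePower_free hP hX s h hQ n
    exact hP.iso _ _ (arithmetic_ofib hX hT) ⟨e.symm⟩ h2

end

end Pool.Agent.Helper45.LS
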