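import Pool.Agent.Helper45.LS.Chr

/-!
# Noetherian descent of free quotients
-/

set_option autoImplicit false

namespace Pool.Agent.Helper45.LS

open CategoryTheory Limits

open scoped TensorProduct

section

variable {U₀ V₀ U V ι G : Type} [CommRing U₀] [CommRing V₀] [CommRing U] [CommRing V] [Fintype ι]
  [Group G] [Fintype G] [MulSemiringAction G V₀] [MulSemiringAction G V] {ρ₀ : U₀ →+* V₀}
  {ρ : U →+* V} {x₀ y₀ : ι → V₀} {t₀ : V₀ → U₀} {x y : ι → V} {t : V → U}

/-- the base change of a Galois extension -/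
theorem Dual.isPushout (h₀ : Dual ρ₀ G x₀ y₀ t₀) (h : Dual ρ G x y t) (φ : U₀ →+* U)
    (ψ : V₀ →+* V) (hc : ∀ u, ρ (φ u) = ψ (ρ₀ u)) (hψ : ∀ (σ : G) v, ψ (σ • v) = σ • ψ v)
    (hx : ∀ i, ψ (x₀ i) = x i) (hy : ∀ i, ψ (y₀ i) = y i) :
    IsPushout (CommRingCat.ofHom φ) (CommRingCat.ofHom ρ₀) (CommRingCat.ofHom ρ)
      (CommRingCat.ofHom ψ) := by
  let _ : Algebra U₀ V₀ := ρ₀.toAlgebra
  let _ : Algebra U₀ U := φ.toAlgebra
  let _ : Algebra U₀ V := (ρ.comp φ).toAlgebra
  have h₀' : Dual (algebraMap U₀ V₀) G x₀ y₀ t₀ := h₀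
  let ρ' : U →ₐ[U₀] V := { ρ with commutes' := fun _ => rfl }
  let ψ' : V₀ →ₐ[U₀] V := { ψ with commutes' := fun u => (hc u).symm }
  let Φ : U ⊗[U₀] V₀ →ₐ[U₀] V := Algebra.TensorProduct.lift ρ' ψ' (fun _ _ => Commute.all _ _)
  have hΦ : ∀ (u : U) (v : V₀), Φ (u ⊗ₜ v) = ρ u * ψ v := fun u v =>
    Algebra.TensorProduct.lift_tmul _ _ _ _ _
  have key : ∀ z : U ⊗[U₀] V₀, z = ∑ i, t (y i * Φ z) ⊗ₜ[U₀] x₀ i := by
    intro z
    induction z using TensorProduct.induction_on with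
    | zero =>
      have h0 : t 0 = 0 := by
        have := h.t_mul 0 0
        rwa [map_zero, zero_mul, zero_mul] at this
      simp [h0]
    | add a b ha hb =>
      conv_lhs => rw [ha, hb]
      rw [← Finset.sum_add_distrib]
      refine Finset.sum_congr rfl fun i _ => ?_
      rw [← TensorProduct.add_tmul, map_add, mul_add, h.t_add]
    | tmul a v =>
      have h1 : ∀ i, t (y i * Φ (a ⊗ₜ[U₀] v)) = t₀ (y₀ i * v) • a := by
        intro i
        apply h.injective
        have h2 : y i * Φ (a ⊗ₜ[U₀] v) = ρ a * ψ (y₀ i * v) := by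
          rw [hΦ, map_mul, hy]
          ring
        have h3 : ρ (algebraMap U₀ U (t₀ (y₀ i * v))) = ψ (ρ₀ (t₀ (y₀ i * v))) := hc _
        have h4 : ρ (t (ψ (y₀ i * v))) = ψ (ρ₀ (t₀ (y₀ i * v))) := by
          rw [h.tr, h₀.tr, map_sum]
          simp only [hψ]
        rw [h2, h.t_mul, Algebra.smul_def, map_mul ρ a, map_mul ρ (algebraMap U₀ U _), h3, h4]
        ring
      simp only [h1, TensorProduct.smul_tmul]
      rw [← TensorProduct.tmul_sum]
      conv_lhs => rw [h₀'.expand v]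
      simp only [Algebra.smul_def]
  have hbij : Function.Bijective Φ := by
    refine ⟨?_, ?_⟩
    · rw [injective_iff_map_eq_zero]
      intro z hz
      have h0 : t 0 = 0 := by
        have := h.t_mul 0 0
        rwa [map_zero, zero_mul, zero_mul] at this
      rw [key z, hz]
      simp [h0]
    · intro v
      refine ⟨∑ i, t (y i * v) ⊗ₜ[U₀] x₀ i, ?_⟩
      rw [map_sum]
      simp only [hΦ, hx]
      exact (h.expand v).symm
  have h1 := CommRingCat.isPushout_tensorProduct U₀ U V₀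
  refine IsPushout.of_iso h1 (Iso.refl _) (Iso.refl _) (Iso.refl _)
    (RingEquiv.ofBijective Φ hbij).toCommRingCatIso ?_ ?_ ?_ ?_
  · rw [Iso.refl_hom, Iso.refl_hom, Category.id_comp, Category.comp_id]
  · rw [Iso.refl_hom, Iso.refl_hom, Category.id_comp, Category.comp_id]
  · apply CommRingCat.hom_ext
    ext a
    have h2 : Φ (a ⊗ₜ[U₀] 1) = ρ a := by rw [hΦ, map_one, mul_one]
    exact h2
  · apply CommRingCat.hom_ext
    ext v
    have h2 : Φ (1 ⊗ₜ[U₀] v) = ψ v := by rw [hΦ, map_one, one_mul]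
    exact h2

end

theorem finiteType_closure {V : Type} [CommRing V] (F : Finset V) :
    Algebra.FiniteType ℤ (Subring.closure (F : Set V)) := by
  let A : Subalgebra ℤ V := Algebra.adjoin ℤ (F : Set V)
  have hA : ∀ x, x ∈ A ↔ x ∈ Subring.closure (F : Set V) := by
    intro x
    constructor
    · intro hx
      have h1 : A ≤ subalgebraOfSubring (Subring.closure (F : Set V)) := by
        rw [Algebra.adjoin_le_iff]
        exact Subring.subset_closure
      exact h1 hx
    · intro hx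
      have h1 : Subring.closure (F : Set V) ≤ A.toSubring := by
        rw [Subring.closure_le]
        exact Algebra.subset_adjoin
      exact h1 hx
  have h1 : Algebra.FiniteType ℤ A := (Subalgebra.fg_iff_finiteType _).1 ⟨F, rfl⟩
  let e : A →+* Subring.closure (F : Set V) :=
    A.val.toRingHom.codRestrict _ (fun x => (hA _).1 x.2)
  exact Algebra.FiniteType.of_surjective e.toIntAlgHom
    (fun x => ⟨⟨x.1, (hA _).2 x.2⟩, rfl⟩)

/-- **Noetherian descent.** -/
theorem FreeQuotient.exists_noetherian {U V G : Type} [CommRing U] [CommRing V] [Group G]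
    [Finite G] [MulSemiringAction G V] {ρ : U →+* V} (h : FreeQuotient ρ G) :
    ∃ (U₀ V₀ : Type) (_ : CommRing U₀) (_ : CommRing V₀) (_ : MulSemiringAction G V₀)
      (ρ₀ : U₀ →+* V₀) (φ : U₀ →+* U) (ψ : V₀ →+* V), FreeQuotient ρ₀ G ∧
      Algebra.FiniteType ℤ U₀ ∧ IsPushout (CommRingCat.ofHom φ) (CommRingCat.ofHom ρ₀)
        (CommRingCat.ofHom ρ) (CommRingCat.ofHom ψ) := by
  classical
  cases nonempty_fintype G
  obtain ⟨ι, _, x, y, t, hd⟩ := h.dual
  let F : Finset V := (Finset.univ : Finset (G × ι)).image (fun p => p.1 • x p.2) ∪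
    (Finset.univ : Finset (G × ι)).image (fun p => p.1 • y p.2)
  let V₀ : Subring V := Subring.closure (F : Set V)
  have hxF : ∀ (σ : G) i, σ • x i ∈ V₀ := fun σ i => Subring.subset_closure (by
    simp only [F, Finset.coe_union, Finset.coe_image]
    exact Or.inl ⟨(σ, i), by simp, rfl⟩)
  have hyF : ∀ (σ : G) i, σ • y i ∈ V₀ := fun σ i => Subring.subset_closure (by
    simp only [F, Finset.coe_union, Finset.coe_image]
    exact Or.inr ⟨(σ, i), by simp, rfl⟩)
  have hx1 : ∀ i, x i ∈ V₀ := fun i => by simpa using hxF 1 i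
  have hy1 : ∀ i, y i ∈ V₀ := fun i => by simpa using hyF 1 i
  have hinv : IsInvariantSubring G V₀ := by
    refine ⟨fun σ v hv => ?_⟩
    have h1 : V₀ ≤ V₀.comap (MulSemiringAction.toRingHom G V σ) := by
      rw [Subring.closure_le]
      intro v hv
      simp only [F, Finset.coe_union, Finset.coe_image] at hv
      rcases hv with ⟨⟨τ, i⟩, -, rfl⟩ | ⟨⟨τ, i⟩, -, rfl⟩
      · change σ • τ • x i ∈ V₀
        rw [smul_smul]
        exact hxF _ _
      · change σ • τ • y i ∈ V₀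
        rw [smul_smul]
        exact hyF _ _
    exact h1 hv
  let U₀ : Subring U := V₀.comap ρ
  let ρ₀ : U₀ →+* V₀ := (ρ.comp U₀.subtype).codRestrict V₀ (fun u => u.2)
  have hρ₀ : ∀ u : U₀, ((ρ₀ u : V₀) : V) = ρ u := fun u => rfl
  have hsm : ∀ (σ : G) (v : V₀), ((σ • v : V₀) : V) = σ • (v : V) := fun σ v => rfl
  have hfree : FreeQuotient ρ₀ G := by
    refine ⟨?_, ?_, ?_, ?_⟩
    · intro a b hab
      apply Subtype.ext
      apply h.injective
      rw [← hρ₀, ← hρ₀, hab]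
    · intro σ u
      apply Subtype.ext
      rw [hsm, hρ₀, h.invariant]
    · intro v hv
      obtain ⟨u, hu⟩ := h.exists_eq v (fun σ => by rw [← hsm, hv])
      refine ⟨⟨u, ?_⟩, Subtype.ext hu⟩
      change ρ u ∈ V₀
      rw [hu]
      exact v.2
    · intro σ hσ
      rw [Ideal.eq_top_iff_one]
      have h1 : (1 : V₀) = ∑ i, (⟨x i, hx1 i⟩ : V₀) *
          ((⟨y i, hy1 i⟩ : V₀) - σ • (⟨y i, hy1 i⟩ : V₀)) := by
        apply Subtype.ext
        have h2 : ((∑ i, (⟨x i, hx1 i⟩ : V₀) *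
            ((⟨y i, hy1 i⟩ : V₀) - σ • (⟨y i, hy1 i⟩ : V₀)) : V₀) : V) =
            ∑ i, x i * (y i - σ • y i) := by
          rw [AddSubmonoidClass.coe_finsetSum]
          rfl
        rw [h2]
        simp only [mul_sub, Finset.sum_sub_distrib, hd.one, hd.zero σ hσ, sub_zero]
        rfl
      rw [h1]
      exact Ideal.sum_mem _ fun i _ => Ideal.mul_mem_left _ _ (Ideal.subset_span ⟨_, rfl⟩)
  obtain ⟨t₀, ht₀⟩ := hfree.exists_tr
  have hd₀ : Dual ρ₀ G (fun i => (⟨x i, hx1 i⟩ : V₀)) (fun i => ⟨y i, hy1 i⟩) t₀ := by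
    refine ⟨hfree.injective, hfree.invariant, ?_, ?_, ht₀⟩
    · apply Subtype.ext
      rw [AddSubmonoidClass.coe_finsetSum]
      exact hd.one
    · intro σ hσ
      apply Subtype.ext
      rw [AddSubmonoidClass.coe_finsetSum]
      exact hd.zero σ hσ
  refine ⟨U₀, V₀, inferInstance, inferInstance, inferInstance, ρ₀, U₀.subtype, V₀.subtype, hfree,
    ?_, hd₀.isPushout hd U₀.subtype V₀.subtype (fun u => rfl) (fun σ v => rfl) (fun i => rfl)
      (fun i => rfl)⟩
  let _ : Algebra U₀ V₀ := ρ₀.toAlgebra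
  have hd₀' : Dual (algebraMap U₀ V₀) G (fun i => (⟨x i, hx1 i⟩ : V₀)) (fun i => ⟨y i, hy1 i⟩)
    t₀ := hd₀
  have h2 := hd₀'.finite
  have h3 : Algebra.FiniteType ℤ V₀ := finiteType_closure F
  have h4 : IsScalarTower ℤ U₀ V₀ := inferInstance
  exact ⟨fg_of_fg_of_fg ℤ U₀ V₀ h3.out h2.fg_top hfree.injective⟩

end Pool.Agent.Helper45.LS
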