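import Pool.Agent.Helper45.LS.FreeDesc
import Pool.Agent.Helper45.LS.FreeNoeth

/-!
# Spreading out of free quotients
-/

set_option autoImplicit false

namespace Pool.Agent.Helper45.LS

open AlgebraicGeometry CategoryTheory Limits TopologicalSpace Filter Pool.Agent.Helper45.LG

section

variable {K : Type} [Field K] {P : Scheme.{0} → Prop} {l : Filter (Subring K)}
  (hP : MorinClosed P) (hl : ∀ x : K, ∀ᶠ B in l, x ∈ B) (hft : ∀ᶠ B in l, FT B) {X : Scheme.{0}}
  {f : X ⟶ Spec (CommRingCat.of K)}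

include hP hl hft

theorem Spr.free_ft {U V G : Type} [CommRing U] [CommRing V] [Group G] [Finite G]
    [MulSemiringAction G V] {ρ : U →+* V} (hU : Algebra.FiniteType ℤ U)
    (s : X ⟶ Spec (CommRingCat.of U)) (hg : FreeQuotient ρ G)
    (h : Spr P l (ofibFst s ρ ≫ f)) : Spr P l f := by
  intro B X₀ x₀ a hB hx H
  have hρ : ρ.FiniteType := by
    cases nonempty_fintype G
    obtain ⟨ι, _, x, y, t, hd⟩ := hg.dual
    let _ : Algebra U V := ρ.toAlgebra
    have h' : Dual (algebraMap U V) G x y t := hd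
    have h1 := h'.finite
    have h2 : Algebra.FiniteType U V := inferInstance
    exact RingHom.finiteType_algebraMap.2 h2
  obtain ⟨B₁, h01, hB₁, W, w, b, hw, h1, h2⟩ := exists_ofib_model x₀ hB hx H hU s hρ
  filter_upwards [hft, h _ _ w b hB₁ hw h1, eventually_le hl hB₁] with B' e1 e2 e3 h''
  obtain ⟨e5, s', ⟨e⟩⟩ := h2 B' e3 h'' e1
  exact descent_free hP e5 s' hg
    (hP.iso _ _ (arithmetic_of_isFT e1 (isFT_bcs w hw e3)) ⟨e⟩ (e2 e3))

/-- free quotients -/
theorem Spr.free {U V G : Type} [CommRing U] [CommRing V] [Group G] [Finite G]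
    [MulSemiringAction G V] {ρ : U →+* V} (s : X ⟶ Spec (CommRingCat.of U))
    (hg : FreeQuotient ρ G) (h : Spr P l (ofibFst s ρ ≫ f)) : Spr P l f := by
  obtain ⟨U₀, V₀, _, _, _, ρ₀, φ, ψ, hg₀, hU, hpo⟩ := hg.exists_noetherian
  have h1 : IsPullback (ofibFst s ρ)
      (ofibTo s ρ ≫ Spec.map (CommRingCat.ofHom ψ))
      (s ≫ Spec.map (CommRingCat.ofHom φ)) (Spec.map (CommRingCat.ofHom ρ₀)) :=
    (isPullback_ofib s ρ).paste_vert (isPullback_SpecMap_of_isPushout _ _ _ _ hpo)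
  refine Spr.free_ft hP hl hft hU (s ≫ Spec.map (CommRingCat.ofHom φ)) hg₀ ?_
  have h2 := Spr.of_iso h1.isoPullback.symm h
  have h3 : h1.isoPullback.symm.hom ≫ ofibFst s ρ =
      ofibFst (s ≫ Spec.map (CommRingCat.ofHom φ)) ρ₀ :=
    h1.isoPullback_inv_fst
  rw [← Category.assoc, h3] at h2
  exact h2

end

end Pool.Agent.Helper45.LS
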