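import Pool.Agent.Helper45.LS.FreeSpr

/-!
# Spreading out of the geometric class
-/

set_option autoImplicit false

namespace Pool.Agent.Helper45.LS

open AlgebraicGeometry CategoryTheory Limits TopologicalSpace Filter Pool.Agent.Helper45.LG

/-- **Spreading out of geometric schemes.** -/
theorem GeometricScheme.spr {P : Scheme.{0} → Prop} (hP : MorinClosed P) {K : Type} [Field K]
    {l : Filter (Subring K)} [l.NeBot] (hl : ∀ x : K, ∀ᶠ B in l, x ∈ B) (hft : ∀ᶠ B in l, FT B)
    (hB : ∀ᶠ B : Subring K in l, onRings P B)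
    (hS : ∀ {X : Scheme.{0}} (f : X ⟶ Spec (CommRingCat.of K)), LS.Seed P f → Spr P l f)
    {X : Scheme.{0}} {f : X ⟶ Spec (CommRingCat.of K)} (h : GeometricScheme P K f) :
    Spr P l f := by
  induction h with
  | empty f h => exact Spr.empty hP hl hft f h
  | base => exact Spr.base hP hl hft hB
  | seed f h => exact hS f h
  | iso f e _ ih => exact Spr.of_iso e ih
  | glue f i j h _ _ ih1 ih2 => exact Spr.glue hP hl hft h ih1 ih2
  | closed f i j hm h _ _ ih1 ih2 => exact Spr.closed hP hl hft hm h ih1 ih2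
  | opn f i j hm h _ _ ih1 ih2 => exact Spr.opn hP hl hft hm h ih1 ih2
  | clopen f i hm h1 h2 _ ih => exact Spr.clopen hP hl hft i hm h1 h2 ih
  | line R hR _ ih => exact Spr.line hP hl hft hR ih
  | quotient f U V G ρ s hG hρ _ ih => exact Spr.free hP hl hft s hρ ih

end Pool.Agent.Helper45.LS
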