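import Pool.Agent.Helper45.LG.Scheme

/-!
# A field as a filtered colimit of finitely generated subrings
-/

set_option autoImplicit false

namespace Pool.Agent.Helper45.LS

open AlgebraicGeometry CategoryTheory Limits

variable {K : Type} [Field K]

/-- the subring generated by `B` and the finite set `T` -/
def adj (B : Subring K) (T : Finset K) : Subring K := Subring.closure ((B : Set K) ∪ T)

theorem le_adj (B : Subring K) (T : Finset K) : B ≤ adj B T := fun _ hx =>
  Subring.subset_closure (Or.inl hx)

theorem mem_adj (B : Subring K) {T : Finset K} {x : K} (hx : x ∈ T) : x ∈ adj B T :=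
  Subring.subset_closure (Or.inr hx)

theorem adj_le {B B' : Subring K} {T : Finset K} (h : B ≤ B') (hT : ∀ x ∈ T, x ∈ B') :
    adj B T ≤ B' := by
  rw [adj, Subring.closure_le]
  rintro x (hx | hx)
  · exact h hx
  · exact hT x hx

theorem adj_mono (B : Subring K) {T T' : Finset K} (h : T ≤ T') : adj B T ≤ adj B T' :=
  adj_le (le_adj B T') fun _ hx => mem_adj B (h hx)

theorem ft_adj {B : Subring K} (hB : LG.FT B) (T : Finset K) : LG.FT (adj B T) := by
  classical
  obtain ⟨S, hS⟩ := hB.out
  let F : Finset K := S.image (fun b : B => (b : K)) ∪ T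
  let A : Subalgebra ℤ K := Algebra.adjoin ℤ (F : Set K)
  have hA : ∀ x, x ∈ adj B T ↔ x ∈ A := by
    intro x
    constructor
    · intro hx
      have h1 : adj B T ≤ A.toSubring := by
        apply adj_le
        · intro b hb
          have h2 : (⟨b, hb⟩ : B) ∈ Algebra.adjoin ℤ (S : Set B) := by rw [hS]; trivial
          have h3 : Algebra.adjoin ℤ (S : Set B) ≤
              A.comap (B.subtype.toIntAlgHom) := by
            rw [Algebra.adjoin_le_iff]
            intro c hc
            apply Algebra.subset_adjoin
            simp only [F, Finset.coe_union, Finset.coe_image]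
            exact Or.inl ⟨c, hc, rfl⟩
          exact h3 h2
        · intro y hy
          apply Algebra.subset_adjoin
          simp only [F, Finset.coe_union, Finset.coe_image]
          exact Or.inr hy
      exact h1 hx
    · intro hx
      have h1 : A ≤ subalgebraOfSubring (adj B T) := by
        rw [Algebra.adjoin_le_iff]
        intro y hy
        simp only [F, Finset.coe_union, Finset.coe_image] at hy
        rcases hy with ⟨c, -, rfl⟩ | hy
        · exact le_adj B T c.2
        · exact mem_adj B hy
      exact h1 hx
  have h1 : Algebra.FiniteType ℤ A := (Subalgebra.fg_iff_finiteType _).1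
    (Subalgebra.fg_adjoin_finset F)
  let e : A →+* adj B T := (A.val.toRingHom).codRestrict (adj B T) (fun x => (hA x).2 x.2)
  have he : Function.Surjective e := fun y => ⟨⟨y, (hA y).1 y.2⟩, rfl⟩
  have h2 : (Ring.toIntAlgebra A) = (Subalgebra.algebra A : Algebra ℤ A) := Subsingleton.elim _ _
  exact LG.finiteType_of_surj (by rw [h2]; exact h1) e he

theorem incl_subtype (A B : Subring K) (h : A ≤ B) :
    CommRingCat.ofHom (Subring.inclusion h) ≫ CommRingCat.ofHom B.subtype =
      CommRingCat.ofHom A.subtype := rfl

theorem incl_incl (A B C : Subring K) (h : A ≤ B) (h' : B ≤ C) :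
    CommRingCat.ofHom (Subring.inclusion h) ≫ CommRingCat.ofHom (Subring.inclusion h') =
      CommRingCat.ofHom (Subring.inclusion (h.trans h')) := rfl

theorem incl_refl (A : Subring K) :
    CommRingCat.ofHom (Subring.inclusion (le_refl A)) = 𝟙 (CommRingCat.of A) := rfl

/-- the diagram of the finitely generated extensions of `B` in `K` -/
def ringDiag (B : Subring K) : Finset K ⥤ CommRingCat.{0} where
  obj T := CommRingCat.of (adj B T)
  map h := CommRingCat.ofHom (Subring.inclusion (adj_mono B (leOfHom h)))
  map_id T := incl_refl (adj B T)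
  map_comp _ _ := (incl_incl _ _ _ _ _).symm

/-- the cocone with the point `K` -/
def ringCocone (B : Subring K) : Cocone (ringDiag B) where
  pt := CommRingCat.of K
  ι := { app := fun T => CommRingCat.ofHom (adj B T).subtype
         naturality := fun _ _ _ => incl_subtype _ _ _ }

/-- the value of a cocone at an element -/
theorem cocone_key {B : Subring K} (s : Cocone (ringDiag B)) {T T' : Finset K} (x : K)
    (hx : x ∈ adj B T) (hx' : x ∈ adj B T') :
    (s.ι.app T).hom (⟨x, hx⟩ : adj B T) = (s.ι.app T').hom (⟨x, hx'⟩ : adj B T') := by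
  classical
  have h1 := congrArg (fun χ => χ.hom (⟨x, hx⟩ : adj B T))
    (s.w (homOfLE (Finset.subset_union_left : T ≤ T ∪ T')))
  have h2 := congrArg (fun χ => χ.hom (⟨x, hx'⟩ : adj B T'))
    (s.w (homOfLE (Finset.subset_union_right : T' ≤ T ∪ T')))
  exact h1.symm.trans h2

/-- the map given by a cocone -/
noncomputable def ringDesc {B : Subring K} (s : Cocone (ringDiag B)) : K →+* s.pt where
  toFun x := (s.ι.app {x}).hom (⟨x, mem_adj B (Finset.mem_singleton_self x)⟩ : adj B {x})
  map_one' := (s.ι.app {1}).hom.map_one
  map_zero' := (s.ι.app {0}).hom.map_zero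
  map_mul' x y := by
    classical
    have hx : x ∈ adj B {x, y} := mem_adj B (by simp)
    have hy : y ∈ adj B {x, y} := mem_adj B (by simp)
    rw [cocone_key s x _ hx, cocone_key s y _ hy, cocone_key s (x * y) _ (mul_mem hx hy)]
    exact (s.ι.app {x, y}).hom.map_mul (⟨x, hx⟩ : adj B {x, y}) (⟨y, hy⟩ : adj B {x, y})
  map_add' x y := by
    classical
    have hx : x ∈ adj B {x, y} := mem_adj B (by simp)
    have hy : y ∈ adj B {x, y} := mem_adj B (by simp)
    rw [cocone_key s x _ hx, cocone_key s y _ hy, cocone_key s (x + y) _ (add_mem hx hy)]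
    exact (s.ι.app {x, y}).hom.map_add (⟨x, hx⟩ : adj B {x, y}) (⟨y, hy⟩ : adj B {x, y})

theorem ringDesc_apply {B : Subring K} (s : Cocone (ringDiag B)) (T : Finset K) (x : adj B T) :
    ringDesc s x.1 = (s.ι.app T).hom x :=
  cocone_key s x.1 _ x.2

/-- `K` is the colimit of the diagram -/
noncomputable def ringColimit (B : Subring K) : IsColimit (ringCocone B) where
  desc s := CommRingCat.ofHom (ringDesc s)
  fac s T := by
    apply CommRingCat.hom_ext
    apply RingHom.ext
    intro x
    exact ringDesc_apply s T x
  uniq s m hm := by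
    apply CommRingCat.hom_ext
    apply RingHom.ext
    intro x
    have := congrArg (fun χ => χ.hom (⟨x, mem_adj B (Finset.mem_singleton_self x)⟩ : adj B {x}))
      (hm {x})
    exact this

/-- the diagram of the spectra -/
noncomputable def specDiag (B : Subring K) : (Finset K)ᵒᵖ ⥤ Scheme.{0} := (ringDiag B).op ⋙ Scheme.Spec

/-- the cone with the point `Spec K` -/
noncomputable def specCone (B : Subring K) : Cone (specDiag B) := Scheme.Spec.mapCone (ringCocone B).op

/-- `Spec K` is the limit -/
noncomputable def specLimit (B : Subring K) : IsLimit (specCone B) :=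
  isLimitOfPreserves Scheme.Spec (ringColimit B).op

end Pool.Agent.Helper45.LS
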