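import Pool.Agent.Helper45.LS.Clopen

/-!
# Spreading out of affine lines
-/

set_option autoImplicit false

namespace Pool.Agent.Helper45.LS

open AlgebraicGeometry CategoryTheory Limits TopologicalSpace Filter Pool.Agent.Helper45.LG

section

variable {K : Type} [Field K] {P : Scheme.{0} → Prop} {l : Filter (Subring K)}
  (hP : MorinClosed P) (hl : ∀ x : K, ∀ᶠ B in l, x ∈ B) (hft : ∀ᶠ B in l, FT B)

include hP hl hft

theorem spread_of_spr [l.NeBot] {R : Type} [CommRing R] [Algebra K R]
    (hR : Algebra.FiniteType K R)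
    (h : Spr P l (Spec.map (CommRingCat.ofHom (algebraMap K R)))) : Spread (onRings P) l R := by
  obtain ⟨n, m, x, f, hx⟩ := exists_rep hR
  obtain ⟨B, ⟨f', hf'⟩, hB⟩ := ((exists_lifts hl f).and hft).exists
  have hx' : Rep x (fun k => MvPolynomial.map (algebraMap B K) (f' k)) := by
    have : (fun k => MvPolynomial.map (algebraMap B K) (f' k)) = f := funext hf'
    rw [this]
    exact hx
  obtain ⟨g, H⟩ := isPullback_rep (rep_std f') hx'
  have hy := isFT_spec (finiteType_std' f')
  refine Spread.of_one (ringClosed hP) hl hft hx ?_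
  filter_upwards [h B _ _ _ hB hy H, hft, eventually_le hl hB] with B' h1 h2 h3 g' hg'
  let _ : Algebra B B' := (Subring.inclusion h3).toAlgebra
  let f'' : Fin m → MvPolynomial (Fin n) B' := fun k => MvPolynomial.map (algebraMap B B') (f' k)
  have h4 : g' = f'' := lifts_unique hg' (fun k => by
    simp only [f'']
    rw [MvPolynomial.map_map]
    exact hf' k)
  obtain ⟨g'', H'⟩ := isPullback_rep (D := B') (rep_std f') (rep_std f'')
  have H'' : IsPullback (Spec.map (CommRingCat.ofHom g''))
      (Spec.map (CommRingCat.ofHom (algebraMap B' (Std f''))))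
      (Spec.map (CommRingCat.ofHom (algebraMap B (Std f')))) (incl h3) := H'
  rw [h4]
  exact hP.iso _ _ (arithmetic_of_isFT h2 (isFT_bcs _ hy h3)) ⟨H''.isoPullback.symm⟩ (h1 h3)

/-- affine lines -/
theorem Spr.line [l.NeBot] {R : Type} [CommRing R] [Algebra K R] (hR : Algebra.FiniteType K R)
    (h : Spr P l (Spec.map (CommRingCat.ofHom (algebraMap K R)))) :
    Spr P l (Spec.map (CommRingCat.ofHom (algebraMap K (Polynomial R)))) :=
  Spr.affine hP hl hft inferInstance
    (Spread.poly (ringClosed hP) hl hft hR (spread_of_spr hP hl hft hR h))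

/-- the empty scheme -/
theorem Spr.empty [l.NeBot] {X : Scheme.{0}} (f : X ⟶ Spec (CommRingCat.of K)) (h : IsEmpty X) :
    Spr P l f := by
  have h1 : Spr P l (Spec.map (CommRingCat.ofHom (algebraMap K PUnit.{1}))) := by
    have h2 : Algebra.FiniteType K PUnit.{1} :=
      Algebra.FiniteType.of_surjective (Algebra.ofId K PUnit.{1})
        (fun r => ⟨0, Subsingleton.elim _ _⟩)
    refine Spr.affine hP hl hft h2 ?_
    intro σ ρ _ _ x f hx
    have h3 : (1 : MvPolynomial σ K) ∈ Ideal.span (Set.range f) :=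
      hx.mem_span (Subsingleton.elim _ _)
    filter_upwards [mem_eventually hl h3] with B h4 g hg
    apply (ringClosed hP).zero
    have h5 := h4 g hg 1 (map_one _)
    exact Ideal.Quotient.subsingleton_iff.2 ((Ideal.eq_top_iff_one _).2 h5)
  have h2 : IsEmpty (Spec (CommRingCat.of PUnit.{1})) :=
    inferInstanceAs (IsEmpty (PrimeSpectrum PUnit.{1}))
  let e : X ≅ Spec (CommRingCat.of PUnit.{1}) :=
    (isInitialOfIsEmpty (X := X)).uniqueUpToIso isInitialOfIsEmpty
  have h3 := Spr.of_iso e h1
  rw [isInitialOfIsEmpty.hom_ext f (e.hom ≫ Spec.map (CommRingCat.ofHom (algebraMap K PUnit.{1})))]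
  exact h3

/-- the spectrum of the field -/
theorem Spr.base [l.NeBot] (hB : ∀ᶠ B : Subring K in l, onRings P B) :
    Spr P l (𝟙 (Spec (CommRingCat.of K))) := by
  have h1 : Spr P l (Spec.map (CommRingCat.ofHom (algebraMap K K))) := by
    refine Spr.affine hP hl hft inferInstance ?_
    have hx : Rep (C := K) (R := K) (fun i : Empty => i.elim) (fun i : Empty => i.elim) := by
      refine ⟨fun i => i.elim, fun E _ _ y _ => ⟨Algebra.ofId K E, fun j => j.elim⟩, ?_⟩
      intro E _ _ φ ψ _
      exact Subsingleton.elim _ _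
    refine Spread.of_one (ringClosed hP) hl hft hx ?_
    filter_upwards [hB, hft] with B h1 h2 g hg
    have hx' : Rep (C := B) (R := B) (fun i : Empty => i.elim) g := by
      refine ⟨fun i => i.elim, fun E _ _ y _ => ⟨Algebra.ofId B E, fun j => j.elim⟩, ?_⟩
      intro E _ _ φ ψ _
      exact Subsingleton.elim _ _
    obtain ⟨e, -⟩ := hx'.equiv (rep_std g)
    exact (ringClosed hP).iso _ _ h2 e.toRingEquiv h1
  have h2 : Spec.map (CommRingCat.ofHom (algebraMap K K)) = 𝟙 (Spec (CommRingCat.of K)) := by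
    have h3 : CommRingCat.ofHom (algebraMap K K) = 𝟙 (CommRingCat.of K) := rfl
    rw [h3, Spec.map_id]
  rw [← h2]
  exact h1

end

end Pool.Agent.Helper45.LS
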