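import Pool.Agent.Helper45.LS.GeoSpr

/-!
# Arithmetic schemes with geometric fibres in the geometric classes
-/

set_option autoImplicit false

namespace Pool.Agent.Helper45.LS

open AlgebraicGeometry CategoryTheory Limits TopologicalSpace Filter Pool.Agent.Helper45.LG

/-- a variant of `quot_nat` -/
theorem quot_nat' {Q : ∀ (R : Type) [CommRing R], Prop} (hQ : Cls Q) (A : Type) [CommRing A]
    (hft : Algebra.FiniteType ℤ A) (n : ℕ) (hn : 0 < n)
    (h : ∀ p : ℕ, p.Prime → p ∣ n → Q (A ⧸ Ideal.span {(p : A)})) :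
    Q (A ⧸ Ideal.span {(n : A)}) := by
  induction n using Nat.recOnPosPrimePosCoprime with
  | zero => exact absurd hn (lt_irrefl 0)
  | one =>
    apply hQ.zero
    rw [Ideal.Quotient.subsingleton_iff, Nat.cast_one, Ideal.span_singleton_one]
  | prime_pow p n hp hn' =>
    exact hQ.quot_prime_pow A hft p n hn' (h p hp (dvd_pow_self _ hn'.ne'))
  | coprime a b ha hb hab iha ihb =>
    have h1 := iha (zero_lt_one.trans ha) (fun p hp hd => h p hp (hd.trans (dvd_mul_right _ _)))
    have h2 := ihb (zero_lt_one.trans hb) (fun p hp hd => h p hp (hd.trans (dvd_mul_left _ _)))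
    have hcop : IsCoprime (Ideal.span {(a : A)}) (Ideal.span {(b : A)}) := by
      rw [Ideal.isCoprime_span_singleton_iff]
      exact Nat.Coprime.cast hab
    have e := Ideal.quotientMulEquivQuotientProd _ _ hcop
    rw [Ideal.span_singleton_mul_span_singleton, ← Nat.cast_mul] at e
    have hf1 := finiteType_quot hft (Ideal.span {(a : A)})
    have hf2 := finiteType_quot hft (Ideal.span {(b : A)})
    have hf3 : Algebra.FiniteType ℤ ((A ⧸ Ideal.span {(a : A)}) × (A ⧸ Ideal.span {(b : A)})) :=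
      inferInstance
    exact hQ.iso _ _ hf3 e.symm (hQ.prod _ _ hf1 hf2 h1 h2)

section

variable {P : Scheme.{0} → Prop} (hP : MorinClosed P) {X : Scheme.{0}} (hX : Arithmetic X)

include hP hX

/-- descent along a Galois covering of the base -/
theorem descent_fibre {R : Type} [CommRing R] {g : Polynomial R} (hR : Algebra.FiniteType ℤ R)
    (hg : GalPoly g) (h : P (fibre X (AdjoinRoot g))) : P (fibre X R) := by
  have hX' := arithmetic_fibre hX hR
  refine descent_over hP hX' (fibreTo X R) hg ?_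
  have hft : Algebra.FiniteType ℤ (AdjoinRoot g) :=
    Algebra.FiniteType.trans (S := R) hR inferInstance
  exact hP.iso _ _ (arithmetic_fibre hX hft)
    ⟨(isPullback_fibreMap X (AdjoinRoot.of g)).isoPullback⟩ h

/-- from the geometric fibre to an etale Galois descent -/
theorem exists_descent_fibre {K : Type} [Field K] {Cp : ∀ (C : Type) [CommRing C], Prop}
    (hT : ∀ T : Finset K, ∃ B : Subring K, GoodSub (onRings P) Cp B ∧ ∀ x ∈ T, x ∈ B)
    (hS : ∀ l : Filter (Subring K), (∀ x : K, ∀ᶠ B in l, x ∈ B) →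
      (∀ᶠ B in l, GoodSub (onRings P) Cp B) →
      ∀ {X : Scheme.{0}} (f : X ⟶ Spec (CommRingCat.of K)), LS.Seed P f → Spr P l f)
    (h : GeometricScheme P K (fibreTo X K)) :
    ∃ (C : Type) (_ : CommRing C), Cp C ∧ P (fibre X C) := by
  classical
  let S : Finset K → Set (Subring K) := fun T => {B | GoodSub (onRings P) Cp B ∧ ∀ x ∈ T, x ∈ B}
  let l : Filter (Subring K) := ⨅ T, 𝓟 (S T)
  have hdir : Directed (· ≥ ·) fun T => 𝓟 (S T) := by
    intro T T'
    refine ⟨T ∪ T', ?_, ?_⟩
    · apply principal_mono.2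
      rintro B ⟨h1, h2⟩
      exact ⟨h1, fun x hx => h2 x (Finset.mem_union_left _ hx)⟩
    · apply principal_mono.2
      rintro B ⟨h1, h2⟩
      exact ⟨h1, fun x hx => h2 x (Finset.mem_union_right _ hx)⟩
  have hne : l.NeBot := by
    apply iInf_neBot_of_directed' hdir
    intro T
    rw [principal_neBot_iff]
    exact hT T
  have hl : ∀ x : K, ∀ᶠ B in l, x ∈ B := fun x => by
    have h1 : S {x} ∈ l := mem_iInf_of_mem {x} (mem_principal_self _)
    filter_upwards [h1] with B hB
    exact hB.2 x (Finset.mem_singleton_self x)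
  have hgood : ∀ᶠ B in l, GoodSub (onRings P) Cp B := by
    have h1 : S ∅ ∈ l := mem_iInf_of_mem ∅ (mem_principal_self _)
    filter_upwards [h1] with B hB
    exact hB.1
  have hft : ∀ᶠ B in l, FT B := by
    filter_upwards [hgood] with B hB
    obtain ⟨C, _, g, e, -, h1, -⟩ := hB
    have h4 : Algebra.FiniteType ℤ (AdjoinRoot g) :=
      Algebra.FiniteType.trans (S := C) h1 inferInstance
    exact finiteType_of_surj h4 (e : AdjoinRoot g →+* B) e.surjective
  have hQB : ∀ᶠ B : Subring K in l, onRings P B := by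
    filter_upwards [hgood] with B hB
    obtain ⟨C, _, g, e, -, -, -, -, -, -, h1⟩ := hB
    exact h1
  obtain ⟨B₀, hB₀⟩ := hft.exists
  have hs := GeometricScheme.spr hP hl hft hQB (fun f => hS l hl hgood f) h
    B₀ (fibre X B₀) (fibreTo X B₀) (fibreMap X B₀.subtype) hB₀ (isFT_fibreTo hX B₀)
    (isPullback_fibreMap X B₀.subtype)
  obtain ⟨B, hB, hBQ, hle, hBft⟩ := (hs.and (hgood.and ((eventually_le hl hB₀).and hft))).exists
  obtain ⟨C, _, g, e, h1, h2, h3, h4, h5, h6, -⟩ := hBQ
  refine ⟨C, inferInstance, h1, descent_fibre hP hX h2 ⟨h3, h4, h5, h6⟩ ?_⟩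
  have h7 : IsPullback (fibreMap X (Subring.inclusion hle)) (fibreTo X B) (fibreTo X B₀)
      (incl hle) := isPullback_fibreMap X (Subring.inclusion hle)
  have h8 : P (fibre X B) :=
    hP.iso _ _ (arithmetic_of_isFT hBft (isFT_bcs (fibreTo X B₀) (isFT_fibreTo hX B₀) hle))
      ⟨h7.isoPullback.symm⟩ (hB hle)
  exact hP.iso _ _ (arithmetic_fibre hX hBft) ⟨fibreIso X e⟩ h8

/-- **Arithmetic schemes with geometric fibres in the geometric classes.** -/
theorem scheme_main
    (h0 : GeometricScheme P (AlgebraicClosure ℚ) (fibreTo X (AlgebraicClosure ℚ))) :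
    ∃ N : ℕ, 0 < N ∧ ((∀ p : ℕ, [Fact p.Prime] → p ∣ N → P (fibre X (ZMod p)) ∨
      GeometricScheme P (AlgebraicClosure (ZMod p)) (fibreTo X (AlgebraicClosure (ZMod p)))) →
    P X) := by
  have hQ := morinRings hP
  have hC := cls_fibre hP hX
  have hZ : Algebra.FiniteType ℤ ℤ := inferInstance
  have hZp : ∀ p : ℕ, (ZMod p ≃+* ℤ ⧸ Ideal.span {((p : ℕ) : ℤ)}) := fun p =>
    (Int.quotientSpanNatEquivZMod p).symm
  have hT : ∀ T : Finset (AlgebraicClosure ℚ), ∃ B, GoodSub (onRings P) IsZAway B ∧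
      ∀ x ∈ T, x ∈ B := by
    let _ : Algebra ℚ (AlgebraicClosure ℚ) := AlgebraicClosure.instAlgebra ℚ
    exact fun T => exists_good_number ℚ hQ T
  have hno : ∀ {Y : Scheme.{0}} (f : Y ⟶ Spec (CommRingCat.of (AlgebraicClosure ℚ))),
      ¬ LS.Seed P f := by
    rintro Y f ⟨k, _, _, R₀, _, _, hk, -⟩
    have h0 : CharZero k := (algebraMap k (AlgebraicClosure ℚ)).charZero
    exact not_finite k
  obtain ⟨C, _, ⟨N, hN, ⟨e⟩⟩, hC'⟩ := exists_descent_fibre hP hX hT
    (fun l _ _ _ f hf => absurd hf (hno f)) h0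
  have hft' : Algebra.FiniteType ℤ C :=
    finiteType_of_surj (finiteType_away hZ (N : ℤ)) (e.symm : Localization.Away (N : ℤ) →+* C)
      e.symm.surjective
  refine ⟨N, hN, fun hp => ?_⟩
  have hp' : ∀ p : ℕ, p.Prime → p ∣ N → P (fibre X (ℤ ⧸ Ideal.span {((p : ℕ) : ℤ)})) := by
    intro p hpp hpN
    have hfact : Fact p.Prime := ⟨hpp⟩
    have hft : Algebra.FiniteType ℤ (ZMod p) := by
      have : Module.Finite ℤ (ZMod p) := Module.Finite.of_finite
      infer_instance
    suffices h : P (fibre X (ZMod p)) from hC.iso _ _ hft (hZp p) h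
    rcases hp p hpN with h | h
    · exact h
    · obtain ⟨C, _, ⟨e⟩, hC'⟩ := exists_descent_fibre hP hX (fun T => exists_good_finite hQ p T)
        (fun l hl hgood _ f hf => Spr.seed hP p hl hgood f hf) h
      have hft' : Algebra.FiniteType ℤ C :=
        finiteType_of_surj hft (e.symm : ZMod p →+* C) e.symm.surjective
      exact hC.iso _ _ hft' e hC'
  have h1 : P (fibre X ℤ) :=
    hC.glue ℤ (N : ℤ) hZ (quot_nat' hC ℤ hZ N hN hp') (hC.iso _ _ hft' e hC')
  obtain ⟨E⟩ := fibreInt X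
  exact hP.iso _ _ (arithmetic_fibre hX hZ) ⟨E⟩ h1

end

end Pool.Agent.Helper45.LS
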