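import Pool.Agent.Helper45.LS.Diag

/-!
# Models of schemes over finitely generated subrings
-/

set_option autoImplicit false

namespace Pool.Agent.Helper45.LS

open AlgebraicGeometry CategoryTheory Limits

/-- separated morphisms of finite type -/
structure IsFT {X S : Scheme.{0}} (f : X ⟶ S) : Prop where
  lft : LocallyOfFiniteType f
  qc : QuasiCompact f
  sep : IsSeparated f

theorem IsFT.comp {X Y Z : Scheme.{0}} {f : X ⟶ Y} {g : Y ⟶ Z} (hf : IsFT f) (hg : IsFT g) :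
    IsFT (f ≫ g) := by
  obtain ⟨_, _, _⟩ := hf
  obtain ⟨_, _, _⟩ := hg
  exact ⟨inferInstance, inferInstance, inferInstance⟩

theorem IsFT.of_isPullback {X Y X' Y' : Scheme.{0}} {g' : X' ⟶ X} {f' : X' ⟶ Y'} {f : X ⟶ Y}
    {g : Y' ⟶ Y} (h : IsPullback g' f' f g) (hf : IsFT f) : IsFT f' := by
  obtain ⟨h1, h2, h3⟩ := hf
  exact ⟨MorphismProperty.of_isPullback h h1, MorphismProperty.of_isPullback h h2,
    MorphismProperty.of_isPullback h h3⟩

theorem isNoetherianRing_of_ft {R : Type} [CommRing R] (h : Algebra.FiniteType ℤ R) :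
    IsNoetherianRing R := Algebra.FiniteType.isNoetherianRing ℤ R

theorem lfp_of_lft {X Y : Scheme.{0}} (f : X ⟶ Y) [IsLocallyNoetherian Y]
    [LocallyOfFiniteType f] : LocallyOfFinitePresentation f := by
  rw [HasRingHomProperty.iff_appLE (P := @LocallyOfFinitePresentation)]
  intro U V e
  have h1 := (HasRingHomProperty.iff_appLE (P := @LocallyOfFiniteType) (f := f)).1
    inferInstance U V e
  have h2 : IsNoetherianRing Γ(Y, U) := IsLocallyNoetherian.component_noetherian U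
  exact RingHom.FinitePresentation.of_finiteType.1 h1

theorem isLocallyNoetherian_spec {R : Type} [CommRing R] (h : Algebra.FiniteType ℤ R) :
    IsLocallyNoetherian (Spec (CommRingCat.of R)) := by
  have : IsNoetherianRing (CommRingCat.of R) := isNoetherianRing_of_ft h
  infer_instance

section

variable {K : Type} [Field K] {B : Subring K} {Y₀ : Scheme.{0}}
  (y₀ : Y₀ ⟶ Spec (CommRingCat.of B))

theorem isFT_bcs (hy : IsFT y₀) {B' : Subring K} (h : B ≤ B') : IsFT (bcs y₀ h) :=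
  hy.of_isPullback (IsPullback.of_hasPullback _ _)

instance isAffineHom_trans {B' B'' : Subring K} (h : B ≤ B') (h' : B' ≤ B'') (h'' : B ≤ B'') :
    IsAffineHom (trans y₀ h h' h'') :=
  MorphismProperty.of_isPullback (P := @IsAffineHom) (isPullback_trans y₀ h h' h'').flip
    inferInstance

instance isAffineHom_diag {T T' : (Finset K)ᵒᵖ} (f : T ⟶ T') : IsAffineHom ((diag y₀).map f) :=
  isAffineHom_trans y₀ _ _ _

theorem compact_of_isFT {X : Scheme.{0}} {S : Scheme.{0}} [IsAffine S] {f : X ⟶ S}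
    (hf : IsFT f) : CompactSpace X := by
  have := hf.qc
  exact (quasiCompact_iff_compactSpace f).1 inferInstance

theorem qs_of_isFT {X : Scheme.{0}} {S : Scheme.{0}} [IsAffine S] {f : X ⟶ S}
    (hf : IsFT f) : QuasiSeparatedSpace X := by
  have := hf.sep
  exact (quasiSeparated_iff_quasiSeparatedSpace f).1 inferInstance

theorem compact_diag (hy : IsFT y₀) (T : (Finset K)ᵒᵖ) : CompactSpace ((diag y₀).obj T) :=
  compact_of_isFT (isFT_bcs y₀ hy _)

theorem qs_diag (hy : IsFT y₀) (T : (Finset K)ᵒᵖ) : QuasiSeparatedSpace ((diag y₀).obj T) :=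
  qs_of_isFT (isFT_bcs y₀ hy _)

variable {Y : Scheme.{0}} {a : Y ⟶ Y₀} {f : Y ⟶ Spec (CommRingCat.of K)}

/-- a model of an affine scheme becomes affine -/
theorem exists_affine (hy : IsFT y₀) (H : IsPullback a f y₀ (toB B)) [IsAffine Y] :
    ∃ T : Finset K, IsAffine (bc y₀ (le_adj B T)) := by
  have h1 := compact_diag y₀ hy
  have h2 := qs_diag y₀ hy
  have h3 : IsAffine (cone y₀ H).pt := ‹IsAffine Y›
  obtain ⟨T, hT⟩ := Scheme.exists_isAffine_of_isLimit (diag y₀) (cone y₀ H) (limitCone y₀ H)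
  exact ⟨T.unop, hT⟩

/-- the structure maps to `Spec B` -/
noncomputable def diagBase : diag y₀ ⟶ (Functor.const (Finset K)ᵒᵖ).obj
    (Spec (CommRingCat.of B)) where
  app T := pullback.fst y₀ (incl (le_adj B T.unop)) ≫ y₀
  naturality _ _ _ := (trans_fst_assoc y₀ _ _ _ y₀).trans (Category.comp_id _).symm

variable {Y₁ : Scheme.{0}} (y₁ : Y₁ ⟶ Spec (CommRingCat.of B)) {a₁ : Y ⟶ Y₁}

/-- morphisms descend -/
theorem exists_hom (hB : LG.FT B) (hy : IsFT y₀) (H : IsPullback a f y₀ (toB B)) (hy₁ : IsFT y₁)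
    (h₁ : a₁ ≫ y₁ = f ≫ toB B) :
    ∃ (T : Finset K) (g : bc y₀ (le_adj B T) ⟶ Y₁), lft y₀ H (le_adj B T) ≫ g = a₁ ∧
      g ≫ y₁ = pullback.fst _ _ ≫ y₀ := by
  have h1 := compact_diag y₀ hy
  have h2 := qs_diag y₀ hy
  have h3 := isLocallyNoetherian_spec hB
  have h4 := hy₁.lft
  have h5 : LocallyOfFinitePresentation y₁ := lfp_of_lft y₁
  obtain ⟨T, g, hg, hg'⟩ := Scheme.exists_π_app_comp_eq_of_locallyOfFinitePresentation (diag y₀)
    (diagBase y₀) y₁ (cone y₀ H) (limitCone y₀ H) a₁ (by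
      ext T
      change lft y₀ H (le_adj B T.unop) ≫ pullback.fst _ _ ≫ y₀ = a₁ ≫ y₁
      rw [lft_fst_assoc, h₁, H.w])
  exact ⟨T.unop, g, hg, hg'⟩

/-- equality of morphisms descends -/
theorem exists_eq (hy : IsFT y₀) (H : IsPullback a f y₀ (toB B)) (hy₁ : IsFT y₁) {T : Finset K}
    (g g' : bc y₀ (le_adj B T) ⟶ Y₁) (h : g ≫ y₁ = pullback.fst _ _ ≫ y₀)
    (h' : g' ≫ y₁ = pullback.fst _ _ ≫ y₀)
    (hg : lft y₀ H (le_adj B T) ≫ g = lft y₀ H (le_adj B T) ≫ g') :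
    ∃ (T' : Finset K) (hT : T ≤ T'), trans y₀ (le_adj B T) (adj_mono B hT) (le_adj B T') ≫ g =
      trans y₀ (le_adj B T) (adj_mono B hT) (le_adj B T') ≫ g' := by
  have h1 := compact_diag y₀ hy
  have h4 := hy₁.lft
  obtain ⟨T', hT, e⟩ := Scheme.exists_hom_comp_eq_comp_of_locallyOfFiniteType (diag y₀)
    (diagBase y₀) y₁ (cone y₀ H) (limitCone y₀ H) (i := Opposite.op T) g g' h.symm h'.symm hg
  exact ⟨T'.unop, leOfHom hT.unop, e⟩

end

section

variable {K : Type} [Field K] {B : Subring K} {Y₀ Y₁ : Scheme.{0}}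
  (y₀ : Y₀ ⟶ Spec (CommRingCat.of B)) (y₁ : Y₁ ⟶ Spec (CommRingCat.of B))
  {Y : Scheme.{0}} {f : Y ⟶ Spec (CommRingCat.of K)} {a₀ : Y ⟶ Y₀} {a₁ : Y ⟶ Y₁}

/-- the morphism of the base changes given by `g` -/
noncomputable def ext {B' B'' : Subring K} (h : B ≤ B') (h' : B' ≤ B'') (h'' : B ≤ B'')
    (g : bc y₀ h ⟶ Y₁) (hg : g ≫ y₁ = pullback.fst _ _ ≫ y₀) : bc y₀ h'' ⟶ bc y₁ h'' :=
  pullback.lift (trans y₀ h h' h'' ≫ g) (pullback.snd _ _) (by
    rw [Category.assoc, hg, trans_fst_assoc, pullback.condition])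

theorem lft_ext (H₀ : IsPullback a₀ f y₀ (toB B)) (H₁ : IsPullback a₁ f y₁ (toB B))
    {B' B'' : Subring K} (h : B ≤ B') (h' : B' ≤ B'') (h'' : B ≤ B'')
    (g : bc y₀ h ⟶ Y₁) (hg : g ≫ y₁ = pullback.fst _ _ ≫ y₀) (hl : lft y₀ H₀ h ≫ g = a₁) :
    lft y₀ H₀ h'' ≫ ext y₀ y₁ h h' h'' g hg = lft y₁ H₁ h'' := by
  apply pullback.hom_ext
  · rw [Category.assoc, ext, pullback.lift_fst, lft_trans_assoc, hl, lft_fst]
  · rw [Category.assoc, ext, pullback.lift_snd, lft_snd, lft_snd]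

/-- one half of the uniqueness of the models -/
theorem exists_comp_eq (hy₀ : IsFT y₀) (H₀ : IsPullback a₀ f y₀ (toB B))
    (H₁ : IsPullback a₁ f y₁ (toB B)) {T₀ T₁ : Finset K} (g₀ : bc y₀ (le_adj B T₀) ⟶ Y₁)
    (hg₀ : g₀ ≫ y₁ = pullback.fst _ _ ≫ y₀) (hl₀ : lft y₀ H₀ (le_adj B T₀) ≫ g₀ = a₁)
    (g₁ : bc y₁ (le_adj B T₁) ⟶ Y₀)
    (hg₁ : g₁ ≫ y₀ = pullback.fst _ _ ≫ y₁) (hl₁ : lft y₁ H₁ (le_adj B T₁) ≫ g₁ = a₀) :
    ∃ T : Finset K, ∀ (T' : Finset K) (_ : T ≤ T') (h₀ : T₀ ≤ T') (h₁ : T₁ ≤ T'),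
      ext y₀ y₁ (le_adj B T₀) (adj_mono B h₀) (le_adj B T') g₀ hg₀ ≫
        ext y₁ y₀ (le_adj B T₁) (adj_mono B h₁) (le_adj B T') g₁ hg₁ = 𝟙 _ := by
  classical
  let T₂ : Finset K := T₀ ∪ T₁
  have h₀ : T₀ ≤ T₂ := Finset.subset_union_left
  have h₁ : T₁ ≤ T₂ := Finset.subset_union_right
  let G := ext y₀ y₁ (le_adj B T₀) (adj_mono B h₀) (le_adj B T₂) g₀ hg₀ ≫
    ext y₁ y₀ (le_adj B T₁) (adj_mono B h₁) (le_adj B T₂) g₁ hg₁ ≫ pullback.fst _ _
  have hG : G ≫ y₀ = pullback.fst _ _ ≫ y₀ := by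
    simp only [G, Category.assoc]
    rw [pullback.condition]
    have e1 : ext y₁ y₀ (le_adj B T₁) (adj_mono B h₁) (le_adj B T₂) g₁ hg₁ ≫
        pullback.snd _ _ = pullback.snd _ _ := by rw [ext, pullback.lift_snd]
    have e0 : ext y₀ y₁ (le_adj B T₀) (adj_mono B h₀) (le_adj B T₂) g₀ hg₀ ≫
        pullback.snd _ _ = pullback.snd _ _ := by rw [ext, pullback.lift_snd]
    rw [reassoc_of% e1, reassoc_of% e0]
  have hl : lft y₀ H₀ (le_adj B T₂) ≫ G = lft y₀ H₀ (le_adj B T₂) ≫ pullback.fst _ _ := by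
    simp only [G]
    rw [← Category.assoc, lft_ext y₀ y₁ H₀ H₁ _ _ _ g₀ hg₀ hl₀, ← Category.assoc,
      lft_ext y₁ y₀ H₁ H₀ _ _ _ g₁ hg₁ hl₁]
  obtain ⟨T, hT, e⟩ := exists_eq y₀ y₀ hy₀ H₀ hy₀ G (pullback.fst _ _) hG rfl hl
  refine ⟨T, fun T' hT' h₀' h₁' => ?_⟩
  apply pullback.hom_ext
  · rw [Category.assoc, Category.id_comp, ext, ext, pullback.lift_fst]
    have e3 : T₂ ≤ T' := hT.trans hT'
    -- compare with the situation over `T₂`
    have e4 : pullback.lift (trans y₀ (le_adj B T₀) (adj_mono B h₀') (le_adj B T') ≫ g₀)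
        (pullback.snd _ _) (by rw [Category.assoc, hg₀, trans_fst_assoc, pullback.condition]) ≫
        trans y₁ (le_adj B T₁) (adj_mono B h₁') (le_adj B T') =
        trans y₀ (le_adj B T₂) (adj_mono B e3) (le_adj B T') ≫
        ext y₀ y₁ (le_adj B T₀) (adj_mono B h₀) (le_adj B T₂) g₀ hg₀ ≫
        trans y₁ (le_adj B T₁) (adj_mono B h₁) (le_adj B T₂) := by
      apply pullback.hom_ext
      · rw [Category.assoc, trans_fst, pullback.lift_fst, Category.assoc, Category.assoc,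
          trans_fst, ext, pullback.lift_fst, ← Category.assoc, trans_comp]
      · rw [Category.assoc, trans_snd, pullback.lift_snd_assoc, Category.assoc, Category.assoc,
          trans_snd, ext, pullback.lift_snd_assoc, trans_snd_assoc, incl_comp]
    rw [reassoc_of% e4]
    have e5 : trans y₀ (le_adj B T₂) (adj_mono B e3) (le_adj B T') ≫ G =
        trans y₀ (le_adj B T₂) (adj_mono B e3) (le_adj B T') ≫ pullback.fst _ _ := by
      rw [← trans_comp y₀ (le_adj B T₂) (le_adj B T) (le_adj B T') (adj_mono B hT)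
        (adj_mono B hT') (adj_mono B e3), Category.assoc, Category.assoc, e]
    rw [trans_fst] at e5
    simp only [G] at e5
    have e6 : ext y₁ y₀ (le_adj B T₁) (adj_mono B h₁) (le_adj B T₂) g₁ hg₁ ≫
        pullback.fst _ _ = trans y₁ (le_adj B T₁) (adj_mono B h₁) (le_adj B T₂) ≫ g₁ := by
      rw [ext, pullback.lift_fst]
    rw [e6] at e5
    exact e5
  · rw [Category.assoc, Category.id_comp, ext, ext, pullback.lift_snd, pullback.lift_snd]

/-- **Uniqueness of the models.** -/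
theorem exists_iso (hB : LG.FT B) (hy₀ : IsFT y₀) (hy₁ : IsFT y₁)
    (H₀ : IsPullback a₀ f y₀ (toB B)) (H₁ : IsPullback a₁ f y₁ (toB B)) :
    ∃ T : Finset K, ∀ (B' : Subring K) (h : B ≤ B'), (∀ x ∈ T, x ∈ B') →
      Nonempty (bc y₀ h ≅ bc y₁ h) := by
  classical
  obtain ⟨T₀, g₀, hl₀, hg₀⟩ := exists_hom y₀ y₁ hB hy₀ H₀ hy₁ H₁.w
  obtain ⟨T₁, g₁, hl₁, hg₁⟩ := exists_hom y₁ y₀ hB hy₁ H₁ hy₀ H₀.w
  obtain ⟨T₂, h₂⟩ := exists_comp_eq y₀ y₁ hy₀ H₀ H₁ g₀ hg₀ hl₀ g₁ hg₁ hl₁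
  obtain ⟨T₃, h₃⟩ := exists_comp_eq y₁ y₀ hy₁ H₁ H₀ g₁ hg₁ hl₁ g₀ hg₀ hl₀
  let T : Finset K := (T₀ ∪ T₁) ∪ (T₂ ∪ T₃)
  have i₀ : T₀ ≤ T := Finset.subset_union_left.trans Finset.subset_union_left
  have i₁ : T₁ ≤ T := Finset.subset_union_right.trans Finset.subset_union_left
  have i₂ : T₂ ≤ T := Finset.subset_union_left.trans Finset.subset_union_right
  have i₃ : T₃ ≤ T := Finset.subset_union_right.trans Finset.subset_union_right
  let e : bc y₀ (le_adj B T) ≅ bc y₁ (le_adj B T) :=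
    { hom := ext y₀ y₁ (le_adj B T₀) (adj_mono B i₀) (le_adj B T) g₀ hg₀
      inv := ext y₁ y₀ (le_adj B T₁) (adj_mono B i₁) (le_adj B T) g₁ hg₁
      hom_inv_id := h₂ T i₂ i₀ i₁
      inv_hom_id := h₃ T i₃ i₁ i₀ }
  have he : e.hom ≫ bcs y₁ (le_adj B T) = bcs y₀ (le_adj B T) := by
    simp only [e, ext, pullback.lift_snd]
  refine ⟨T, fun B' h hT => ?_⟩
  have h' : adj B T ≤ B' := adj_le h hT
  have H₂ : IsPullback (trans y₀ (le_adj B T) h' h ≫ e.hom) (bcs y₀ h) (bcs y₁ (le_adj B T))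
      (incl h') := by
    refine IsPullback.of_iso (isPullback_trans y₀ (le_adj B T) h' h) (Iso.refl _) e (Iso.refl _)
      (Iso.refl _) ?_ ?_ ?_ ?_
    · simp
    · simp
    · simp [he]
    · simp
  exact ⟨H₂.isoIsPullback _ _ (isPullback_trans y₁ (le_adj B T) h' h)⟩

end

end Pool.Agent.Helper45.LS
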