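import Pool.Agent.Helper45.LS.OSplit

/-!
# Descent along monogenic Galois coverings
-/

set_option autoImplicit false

namespace Pool.Agent.Helper45.LS

open AlgebraicGeometry CategoryTheory Limits TopologicalSpace Pool.Agent.Helper45.LG

section

variable {P : Scheme.{0} → Prop} (hP : MorinClosed P) {X : Scheme.{0}} (hX : Arithmetic X)
  {U : Type} [CommRing U] (s : X ⟶ Spec (CommRingCat.of U))

theorem isIso_ofibFst_id : IsIso (ofibFst s (RingHom.id U)) := by
  have h : IsIso (Spec.map (CommRingCat.ofHom (RingHom.id U))) := by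
    rw [CommRingCat.ofHom_id, Spec.map_id]
    infer_instance
  exact MorphismProperty.of_isPullback (P := MorphismProperty.isomorphisms _)
    (isPullback_ofib s (RingHom.id U)).flip h

/-- the square over `X` -/
theorem isPullback_ofib_over {S T V : Type} [CommRing S] [CommRing T]
    [CommRing V] {a : U →+* S} {b : U →+* T} {c : S →+* V} {d : T →+* V}
    (h : IsPushout (CommRingCat.ofHom a) (CommRingCat.ofHom b) (CommRingCat.ofHom c)
      (CommRingCat.ofHom d)) {υ : U →+* V} (hc : c.comp a = υ) (hd : d.comp b = υ) :
    IsPullback (ofibMap s c hc) (ofibMap s d hd) (ofibFst s a) (ofibFst s b) := by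
  have h1 := isPullback_ofib_square s h (ρ := RingHom.id U) (RingHom.comp_id a)
    (RingHom.comp_id b) hc hd
  have h2 := isIso_ofibFst_id s
  refine IsPullback.of_iso h1 (Iso.refl _) (Iso.refl _) (Iso.refl _)
    (asIso (ofibFst s (RingHom.id U))) ?_ ?_ ?_ ?_
  · simp
  · simp
  · simp
  · simp

include hP hX

/-- the fibre powers of a Galois covering -/
theorem fibrePower_ofib {g : Polynomial U}
    (hu : IsUnit (Polynomial.aeval (AdjoinRoot.root g) (Polynomial.derivative g)))
    (hs : ∃ s : Multiset (AdjoinRoot g), g.map (AdjoinRoot.of g) =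
      (s.map fun a => Polynomial.X - Polynomial.C a).prod)
    (hQ : P (ofib s (AdjoinRoot.of g))) (n : ℕ) :
    ∃ (T : Type) (_ : CommRing T) (j : AdjoinRoot g →+* T)
      (e : (fibrePower (ofibFst s (AdjoinRoot.of g)) n).left ≅ ofib s (j.comp (AdjoinRoot.of g))),
      (fibrePower (ofibFst s (AdjoinRoot.of g)) n).hom =
        e.hom ≫ ofibFst s (j.comp (AdjoinRoot.of g)) ∧
      (j.comp (AdjoinRoot.of g)).FiniteType ∧ P (ofib s (j.comp (AdjoinRoot.of g))) := by
  have hft : ∀ {T : Type} [CommRing T] (f : Polynomial T), (AdjoinRoot.of f).FiniteType := by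
    intro T _ f
    have h1 : Algebra.FiniteType T (AdjoinRoot f) := inferInstance
    exact RingHom.finiteType_algebraMap.2 h1
  induction n with
  | zero =>
    refine ⟨AdjoinRoot g, inferInstance, RingHom.id _, Iso.refl _, ?_, ?_, ?_⟩
    · exact (Category.id_comp _).symm
    · exact hft g
    · exact hQ
  | succ n ih =>
    obtain ⟨T, _, j, e, h1, hT, h2⟩ := ih
    generalize hu' : j.comp (AdjoinRoot.of g) = u at *
    have h0 : Polynomial.eval₂ ((AdjoinRoot.of (g.map u)).comp u) (AdjoinRoot.root (g.map u)) g =
        0 := by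
      rw [← Polynomial.eval₂_map]
      exact AdjoinRoot.eval₂_root _
    let i : AdjoinRoot g →+* AdjoinRoot (g.map u) :=
      AdjoinRoot.lift ((AdjoinRoot.of (g.map u)).comp u) (AdjoinRoot.root (g.map u)) h0
    have hi : i.comp (AdjoinRoot.of g) = (AdjoinRoot.of (g.map u)).comp u := by
      ext x
      exact AdjoinRoot.lift_of h0
    have hpo := isPushout_adjoinRoot g u i hi (AdjoinRoot.lift_root h0)
    have hj : ((AdjoinRoot.of (g.map u)).comp j).comp (AdjoinRoot.of g) =
        (AdjoinRoot.of (g.map u)).comp u := by rw [RingHom.comp_assoc, hu']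
    have hpb := isPullback_ofib_over s hpo hj.symm (hi.trans hj.symm)
    have hpb' : IsPullback (ofibMap s (AdjoinRoot.of (g.map u)) hj.symm ≫ e.inv)
        (ofibMap s i (hi.trans hj.symm)) (fibrePower (ofibFst s (AdjoinRoot.of g)) n).hom
        (ofibFst s (AdjoinRoot.of g)) := by
      refine IsPullback.of_iso hpb (Iso.refl _) e.symm (Iso.refl _) (Iso.refl _) ?_ ?_ ?_ ?_
      · simp
      · simp
      · rw [h1]
        simp
      · simp
    have hT' : (((AdjoinRoot.of (g.map u)).comp j).comp (AdjoinRoot.of g)).FiniteType := by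
      rw [hj]
      exact (hft _).comp hT
    refine ⟨AdjoinRoot (g.map u), inferInstance, (AdjoinRoot.of (g.map u)).comp j,
      hpb'.isoPullback.symm, ?_, hT', ?_⟩
    · have hF : e.inv ≫ (fibrePower (ofibFst s (AdjoinRoot.of g)) n).hom = ofibFst s u := by
        rw [Iso.inv_comp_eq]
        exact h1
      have h3 : pullback.fst (fibrePower (ofibFst s (AdjoinRoot.of g)) n).hom
          (ofibFst s (AdjoinRoot.of g)) ≫ (fibrePower (ofibFst s (AdjoinRoot.of g)) n).hom =
          hpb'.isoPullback.inv ≫ ofibMap s (AdjoinRoot.of (g.map u)) hj.symm ≫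
            ofibFst s u := by
        rw [← hF, ← hpb'.isoPullback_inv_fst]
        simp only [Category.assoc]
      rw [ofibMap_fst] at h3
      exact h3
    · obtain ⟨m, hm⟩ := hs
      have h3 : g.map u = ((m.map j).map fun a => Polynomial.X - Polynomial.C a).prod := by
        have h4 := congrArg (Polynomial.map j) hm
        rw [Polynomial.map_map, Polynomial.map_multiset_prod, Multiset.map_map, hu'] at h4
        rw [Multiset.map_map, h4]
        congr 1
        apply Multiset.map_congr rfl
        intro a _
        simp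
      have h4 := (ocls hP hX s).quot_split hT h2 (m.map j)
        (fun a t hat => unit_of_root hu hm j a t hat)
      rw [← h3] at h4
      rw [hj]
      exact h4

/-- descent along a Galois covering of the base -/
theorem descent_over {g : Polynomial U} (hg : GalPoly g)
    (h : P (ofib s (AdjoinRoot.of g))) : P X := by
  have hsq := (isPullback_ofib s (AdjoinRoot.of g)).flip
  have hfin := hg.monic.finite_adjoinRoot
  refine hP.etale _ _ (ofibFst s (AdjoinRoot.of g)) hX ?_ ?_ ?_ ?_
  · have h1 : IsFinite (Spec.map (CommRingCat.ofHom (AdjoinRoot.of g))) := by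
      rw [IsFinite.SpecMap_iff]
      exact RingHom.finite_algebraMap.2 hfin
    exact MorphismProperty.of_isPullback (P := @IsFinite) hsq h1
  · have h1 : Etale (Spec.map (CommRingCat.ofHom (AdjoinRoot.of g))) := by
      rw [HasRingHomProperty.Spec_iff (P := @Etale)]
      exact RingHom.etale_algebraMap.2 (etale_adjoinRoot hg.monic hg.unit)
    exact MorphismProperty.of_isPullback (P := @Etale) hsq h1
  · have h1 : Surjective (Spec.map (CommRingCat.ofHom (AdjoinRoot.of g))) := by
      refine ⟨?_⟩
      have hint : (AdjoinRoot.of g).IsIntegral :=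
        algebraMap_isIntegral_iff.2 (inferInstanceAs (Algebra.IsIntegral U (AdjoinRoot g)))
      exact hint.comap_surjective (of_injective hg.monic hg.deg)
    exact MorphismProperty.of_isPullback (P := @Surjective) hsq h1
  · intro n
    obtain ⟨T, _, j, e, -, hT, h2⟩ := fibrePower_ofib hP hX s hg.unit hg.split h n
    exact hP.iso _ _ (arithmetic_ofib hX hT) ⟨e.symm⟩ h2

end

end Pool.Agent.Helper45.LS
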