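import Pool.Agent.Helper45.LS.Over

/-!
# Split algebras
-/

set_option autoImplicit false

namespace Pool.Agent.Helper45.LS

open Pool.Agent.Helper45.LG Polynomial

variable {U : Type} [CommRing U] {Q : ∀ (R : Type) [CommRing R], (U →+* R) → Prop}

theorem finiteType_prod {R S : Type} [CommRing R] [CommRing S] {ρ : U →+* R} {σ : U →+* S}
    (hρ : ρ.FiniteType) (hσ : σ.FiniteType) : (ρ.prod σ).FiniteType := by
  let _ : Algebra U R := ρ.toAlgebra
  let _ : Algebra U S := σ.toAlgebra
  have h1 : Algebra.FiniteType U R := hρ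
  have h2 : Algebra.FiniteType U S := hσ
  have h3 : Algebra.FiniteType U (R × S) := inferInstance
  exact (RingHom.finiteType_algebraMap.2 h3)

theorem OCls.prod (hQ : OCls U Q) (R S : Type) [CommRing R] [CommRing S] (ρ : U →+* R)
    (σ : U →+* S) (hR : ρ.FiniteType) (hS : σ.FiniteType) (h1 : Q R ρ) (h2 : Q S σ) :
    Q (R × S) (ρ.prod σ) := by
  have hs : Function.Surjective (RingHom.snd R S) := fun s => ⟨(0, s), rfl⟩
  have hk : Ideal.span {((1, 0) : R × S)} = RingHom.ker (RingHom.snd R S) := by
    apply le_antisymm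
    · rw [Ideal.span_singleton_le_iff_mem]
      rfl
    · rintro ⟨a, b⟩ hab
      have hb : b = 0 := hab
      rw [Ideal.mem_span_singleton]
      exact ⟨(a, 0), by simp [hb]⟩
  let e1 : (R × S) ⧸ Ideal.span {((1, 0) : R × S)} ≃+* S :=
    (Ideal.quotEquivOfEq hk).trans (RingHom.quotientKerEquivOfSurjective hs)
  have he1 : ∀ x : R × S, e1 (Ideal.Quotient.mk _ x) = x.2 := fun x => rfl
  let _ : Algebra (R × S) R := (RingHom.fst R S).toAlgebra
  have hk' : RingHom.ker (algebraMap (R × S) R) = Ideal.span {1 - ((1, 0) : R × S)} := by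
    apply le_antisymm
    · rintro ⟨a, b⟩ hab
      have ha : a = 0 := hab
      rw [Ideal.mem_span_singleton]
      exact ⟨(0, b), by simp [ha, Prod.ext_iff]⟩
    · rw [Ideal.span_singleton_le_iff_mem]
      change (1 : R) - 1 = 0
      exact sub_self _
  have hl : IsLocalization.Away ((1, 0) : R × S) R :=
    IsLocalization.away_of_isIdempotentElem (by simp [IsIdempotentElem]) hk'
      (fun r => ⟨(r, 0), rfl⟩)
  let e2 : R ≃ₐ[R × S] (Localization.Away ((1, 0) : R × S)) :=
    IsLocalization.algEquiv (Submonoid.powers ((1, 0) : R × S)) R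
      (Localization.Away ((1, 0) : R × S))
  have he2 : ∀ x : R × S, e2 x.1 = algebraMap _ _ x := fun x => e2.commutes x
  refine hQ.glue (R × S) (ρ.prod σ) (1, 0) (finiteType_prod hR hS) ?_ ?_
  · refine hQ.iso _ _ σ _ e1.symm ?_ hS h2
    ext u
    apply e1.injective
    simp [he1]
  · refine hQ.iso _ _ ρ _ e2.toRingEquiv ?_ hR h1
    ext u
    exact he2 (ρ u, σ u)

/-- the quotient by the product of linear factors -/
theorem OCls.quot_split (hQ : OCls U Q) {T : Type} [CommRing T] {τ : U →+* T}
    (hT : τ.FiniteType) (h : Q T τ) (s : Multiset T)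
    (hs : ∀ a t, s = a ::ₘ t → IsUnit (t.map (fun b => a - b)).prod) :
    Q (T[X] ⧸ Ideal.span {(s.map (fun a => X - C a)).prod})
      ((Ideal.Quotient.mk _).comp (C.comp τ)) := by
  have hTX : (C.comp τ : U →+* T[X]).FiniteType := by
    have h1 : (C : T →+* T[X]).FiniteType := by
      have h2 : Algebra.FiniteType T T[X] := inferInstance
      exact RingHom.finiteType_algebraMap.2 h2
    exact h1.comp hT
  have hquot : ∀ I : Ideal T[X], ((Ideal.Quotient.mk I).comp (C.comp τ)).FiniteType := fun I =>
    RingHom.FiniteType.comp_surjective hTX Ideal.Quotient.mk_surjective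
  induction s using Multiset.induction_on with
  | empty =>
    apply hQ.zero
    rw [Ideal.Quotient.subsingleton_iff, Multiset.map_zero, Multiset.prod_zero,
      Ideal.span_singleton_one]
  | cons a t ih =>
    have ht : ∀ b t', t = b ::ₘ t' → IsUnit (t'.map (fun c => b - c)).prod := by
      intro b t' hbt
      have h1 := hs b (a ::ₘ t') (by rw [hbt, Multiset.cons_swap])
      rw [Multiset.map_cons, Multiset.prod_cons] at h1
      exact isUnit_of_mul_isUnit_right h1
    have h2 := ih ht
    have hcop : IsCoprime (Ideal.span {X - C a}) (Ideal.span {(t.map (fun a => X - C a)).prod}) := by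
      rw [Ideal.isCoprime_span_singleton_iff]
      set p : T[X] := (t.map (fun a => X - C a)).prod with hp
      have h3 : IsUnit (p.eval a) := by
        have h4 : p.eval a = (t.map (fun b => a - b)).prod := by
          rw [hp, eval_multiset_prod, Multiset.map_map]
          congr 1
          apply Multiset.map_congr rfl
          intro b _
          simp
        rw [h4]
        exact hs a t rfl
      obtain ⟨u, hu⟩ := h3.exists_left_inv
      obtain ⟨q, hq⟩ := X_sub_C_dvd_sub_C_eval (a := a) (p := p)
      refine ⟨- (C u * q), C u, ?_⟩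
      have h5 : p = (X - C a) * q + C (p.eval a) := by rw [← hq]; ring
      have h6 : C u * C (p.eval a) = 1 := by rw [← C_mul, hu, C_1]
      calc -(C u * q) * (X - C a) + C u * p
          = -(C u * q) * (X - C a) + C u * ((X - C a) * q + C (p.eval a)) := by rw [← h5]
        _ = C u * C (p.eval a) := by ring
        _ = 1 := h6
    have heq : Ideal.span {((a ::ₘ t).map (fun a => X - C a)).prod} =
        Ideal.span {X - C a} * Ideal.span {(t.map (fun a => X - C a)).prod} := by
      rw [Ideal.span_singleton_mul_span_singleton, Multiset.map_cons, Multiset.prod_cons]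
    let e : (T[X] ⧸ Ideal.span {((a ::ₘ t).map (fun a => X - C a)).prod}) ≃+*
        (T[X] ⧸ Ideal.span {X - C a}) × (T[X] ⧸ Ideal.span {(t.map (fun a => X - C a)).prod}) :=
      (Ideal.quotEquivOfEq heq).trans (Ideal.quotientMulEquivQuotientProd _ _ hcop)
    have he : ∀ x : T[X], e (Ideal.Quotient.mk _ x) =
        (Ideal.Quotient.mk _ x, Ideal.Quotient.mk _ x) := fun x => rfl
    let e3 : T ≃+* T[X] ⧸ Ideal.span {X - C a} := (quotientSpanXSubCAlgEquiv a).symm.toRingEquiv
    have he3 : ∀ x : T, e3 x = Ideal.Quotient.mk _ (C x) := fun x =>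
      (quotientSpanXSubCAlgEquiv a).symm.commutes x
    have h7 : Q (T[X] ⧸ Ideal.span {X - C a}) ((Ideal.Quotient.mk _).comp (C.comp τ)) := by
      refine hQ.iso _ _ τ _ e3 ?_ hT h
      ext u
      exact he3 (τ u)
    refine hQ.iso _ _ (((Ideal.Quotient.mk _).comp (C.comp τ)).prod
      ((Ideal.Quotient.mk _).comp (C.comp τ))) _ e.symm ?_ (finiteType_prod (hquot _) (hquot _))
      (hQ.prod _ _ _ _ (hquot _) (hquot _) h7 h2)
    ext u
    apply e.injective
    simp [he]

end Pool.Agent.Helper45.LS
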