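import Pool.Agent.Helper45.LS.ODesc

/-!
# Spreading out of coverings
-/

set_option autoImplicit false

namespace Pool.Agent.Helper45.LS

open AlgebraicGeometry CategoryTheory Limits TopologicalSpace Filter Pool.Agent.Helper45.LG

/-- transitivity of the base change -/
theorem ofib_of_isPullback {X X' W : Scheme.{0}} {U R : Type} [CommRing U] [CommRing R]
    {s : X ⟶ Spec (CommRingCat.of U)} {ρ : U →+* R} {q : W ⟶ ofib s ρ} {m : W ⟶ X'}
    {t : X' ⟶ X} (h : IsPullback q m (ofibFst s ρ) t) :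
    IsPullback m (q ≫ ofibTo s ρ) (t ≫ s) (Spec.map (CommRingCat.ofHom ρ)) :=
  h.flip.paste_vert (isPullback_ofib s ρ)

section

variable {K : Type} [Field K] {X : Scheme.{0}} {f : X ⟶ Spec (CommRingCat.of K)}

/-- morphisms to an arithmetic affine scheme descend -/
theorem exists_hom_spec {B : Subring K} {X₀ : Scheme.{0}} (x₀ : X₀ ⟶ Spec (CommRingCat.of B))
    {a : X ⟶ X₀} (hB : FT B) (hx : IsFT x₀) (H : IsPullback a f x₀ (toB B)) {U : Type}
    [CommRing U] (hU : Algebra.FiniteType ℤ U) (s : X ⟶ Spec (CommRingCat.of U)) :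
    ∃ (T : Finset K) (s' : bc x₀ (le_adj B T) ⟶ Spec (CommRingCat.of U)),
      lft x₀ H (le_adj B T) ≫ s' = s := by
  have h1 : IsFT (fibreTo (Spec (CommRingCat.of U)) B) :=
    isFT_fibreTo (arithmetic_of_finiteType hU) B
  obtain ⟨T, γ, hγ, -⟩ := exists_hom x₀ (fibreTo (Spec (CommRingCat.of U)) B) hB hx H h1
    (a₁ := (isPullback_fibre (Spec (CommRingCat.of U)) B).lift s (f ≫ toB B)
      (specZIsTerminal.hom_ext _ _)) ((isPullback_fibre _ _).lift_snd _ _ _)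
  refine ⟨T, γ ≫ fibreFst _ _, ?_⟩
  rw [reassoc_of% hγ]
  exact (isPullback_fibre _ _).lift_fst _ _ _

/-- models of coverings -/
theorem exists_ofib_model {B : Subring K} {X₀ : Scheme.{0}} (x₀ : X₀ ⟶ Spec (CommRingCat.of B))
    {a : X ⟶ X₀} (hB : FT B) (hx : IsFT x₀) (H : IsPullback a f x₀ (toB B)) {U R : Type}
    [CommRing U] [CommRing R] (hU : Algebra.FiniteType ℤ U) (s : X ⟶ Spec (CommRingCat.of U))
    {ρ : U →+* R} (hρ : ρ.FiniteType) :
    ∃ (B₁ : Subring K) (_ : B ≤ B₁) (_ : FT B₁) (W : Scheme.{0})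
      (w : W ⟶ Spec (CommRingCat.of B₁)) (b : ofib s ρ ⟶ W), IsFT w ∧
      IsPullback b (ofibFst s ρ ≫ f) w (toB B₁) ∧ ∀ (B' : Subring K) (h' : B₁ ≤ B')
      (h'' : B ≤ B'), FT B' → Arithmetic (bc x₀ h'') ∧
        ∃ (s' : bc x₀ h'' ⟶ Spec (CommRingCat.of U)), Nonempty (bc w h' ≅ ofib s' ρ) := by
  obtain ⟨T, s', hs'⟩ := exists_hom_spec x₀ hB hx H hU s
  subst hs'
  have hB₁ : FT (adj B T) := ft_adj hB T
  have hz : IsFT (bcs x₀ (le_adj B T)) := isFT_bcs x₀ hx _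
  have hp := isPullback_lft x₀ H (le_adj B T)
  generalize lft x₀ H (le_adj B T) = p at hp
  have h1 : IsFT (Spec.map (CommRingCat.ofHom ρ)) := by
    refine ⟨?_, inferInstance, inferInstance⟩
    rw [HasRingHomProperty.Spec_iff (P := @LocallyOfFiniteType)]
    exact hρ
  have h2 : IsFT (ofibFst s' ρ) := h1.of_isPullback (isPullback_ofib s' ρ).flip
  let b : ofib (p ≫ s') ρ ⟶ ofib s' ρ := (isPullback_ofib s' ρ).lift (ofibFst (p ≫ s') ρ ≫ p)
    (ofibTo (p ≫ s') ρ) (by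
      rw [Category.assoc]
      exact (isPullback_ofib (p ≫ s') ρ).w)
  have hb1 : b ≫ ofibFst s' ρ = ofibFst (p ≫ s') ρ ≫ p :=
    (isPullback_ofib s' ρ).lift_fst _ _ _
  have hb2 : b ≫ ofibTo s' ρ = ofibTo (p ≫ s') ρ := (isPullback_ofib s' ρ).lift_snd _ _ _
  have hb : IsPullback b (ofibFst (p ≫ s') ρ) (ofibFst s' ρ) p := by
    refine IsPullback.of_right (h₁₂ := ofibTo s' ρ) (h₂₂ := s')
      (v₁₃ := Spec.map (CommRingCat.ofHom ρ)) ?_ hb1 (isPullback_ofib s' ρ).flip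
    rw [hb2]
    exact (isPullback_ofib (p ≫ s') ρ).flip
  refine ⟨adj B T, le_adj B T, hB₁, ofib s' ρ, ofibFst s' ρ ≫ bcs x₀ (le_adj B T), b,
    h2.comp hz, hb.paste_vert hp, fun B' h' h'' hB' => ⟨arithmetic_of_isFT hB'
      (isFT_bcs x₀ hx h''), ?_⟩⟩
  obtain ⟨m, hm⟩ := exists_bc_map x₀ (le_adj B T) h' h'' (ofibFst s' ρ)
  exact ⟨trans x₀ (le_adj B T) h' h'' ≫ s', ⟨(ofib_of_isPullback hm).isoPullback⟩⟩

end

section

variable {K : Type} [Field K] {P : Scheme.{0} → Prop} {l : Filter (Subring K)}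
  (hP : MorinClosed P) (hl : ∀ x : K, ∀ᶠ B in l, x ∈ B) (hft : ∀ᶠ B in l, FT B) {X : Scheme.{0}}
  {f : X ⟶ Spec (CommRingCat.of K)}

include hP hl hft

theorem Spr.galois_ft {U : Type} [CommRing U] (hU : Algebra.FiniteType ℤ U)
    (s : X ⟶ Spec (CommRingCat.of U)) {g : Polynomial U} (hg : GalPoly g)
    (h : Spr P l (ofibFst s (AdjoinRoot.of g) ≫ f)) : Spr P l f := by
  intro B X₀ x₀ a hB hx H
  have hρ : (AdjoinRoot.of g).FiniteType := by
    have h1 : Algebra.FiniteType U (AdjoinRoot g) := inferInstance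
    exact RingHom.finiteType_algebraMap.2 h1
  obtain ⟨B₁, h01, hB₁, W, w, b, hw, h1, h2⟩ := exists_ofib_model x₀ hB hx H hU s hρ
  filter_upwards [hft, h _ _ w b hB₁ hw h1, eventually_le hl hB₁] with B' e1 e2 e3 h''
  obtain ⟨e5, s', ⟨e⟩⟩ := h2 B' e3 h'' e1
  exact descent_over hP e5 s' hg
    (hP.iso _ _ (arithmetic_of_isFT e1 (isFT_bcs w hw e3)) ⟨e⟩ (e2 e3))

/-- Galois coverings -/
theorem Spr.galois {U : Type} [CommRing U] (s : X ⟶ Spec (CommRingCat.of U)) {g : Polynomial U}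
    (hg : GalPoly g) (h : Spr P l (ofibFst s (AdjoinRoot.of g) ≫ f)) : Spr P l f := by
  obtain ⟨U₀, _, φ, G, hU, hG, rfl⟩ := exists_universal hg
  have hpo := isPushout_adjoinRoot G φ (adjMap φ G) (adjMap_comp φ G) (adjMap_root φ G)
  have h1 : IsPullback (ofibFst s (AdjoinRoot.of (G.map φ)))
      (ofibTo s (AdjoinRoot.of (G.map φ)) ≫ Spec.map (CommRingCat.ofHom (adjMap φ G)))
      (s ≫ Spec.map (CommRingCat.ofHom φ)) (Spec.map (CommRingCat.ofHom (AdjoinRoot.of G))) :=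
    (isPullback_ofib s (AdjoinRoot.of (G.map φ))).paste_vert
      (isPullback_SpecMap_of_isPushout _ _ _ _ hpo)
  refine Spr.galois_ft hP hl hft hU (s ≫ Spec.map (CommRingCat.ofHom φ)) hG ?_
  have h2 := Spr.of_iso h1.isoPullback.symm h
  have h3 : h1.isoPullback.symm.hom ≫ ofibFst s (AdjoinRoot.of (G.map φ)) =
      ofibFst (s ≫ Spec.map (CommRingCat.ofHom φ)) (AdjoinRoot.of G) :=
    h1.isoPullback_inv_fst
  rw [← Category.assoc, h3] at h2
  exact h2

end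

end Pool.Agent.Helper45.LS
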