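import Pool.Agent.Helper45.LS.Cls

/-!
# The base changes of a scheme over an affine base
-/

set_option autoImplicit false

namespace Pool.Agent.Helper45.LS

open AlgebraicGeometry CategoryTheory Limits TopologicalSpace Pool.Agent.Helper45.LG

section

variable {X : Scheme.{0}} {U : Type} [CommRing U] (s : X ⟶ Spec (CommRingCat.of U))

/-- the base change along a ring homomorphism -/
noncomputable def ofib {R : Type} [CommRing R] (ρ : U →+* R) : Scheme.{0} :=
  pullback s (Spec.map (CommRingCat.ofHom ρ))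

/-- its structure map -/
noncomputable def ofibTo {R : Type} [CommRing R] (ρ : U →+* R) :
    ofib s ρ ⟶ Spec (CommRingCat.of R) := pullback.snd _ _

/-- its projection -/
noncomputable def ofibFst {R : Type} [CommRing R] (ρ : U →+* R) : ofib s ρ ⟶ X :=
  pullback.fst _ _

theorem isPullback_ofib {R : Type} [CommRing R] (ρ : U →+* R) :
    IsPullback (ofibFst s ρ) (ofibTo s ρ) s (Spec.map (CommRingCat.ofHom ρ)) :=
  IsPullback.of_hasPullback _ _

/-- functoriality -/
noncomputable def ofibMap {R S : Type} [CommRing R] [CommRing S] {ρ : U →+* R} {σ : U →+* S}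
    (u : R →+* S) (h : u.comp ρ = σ) : ofib s σ ⟶ ofib s ρ :=
  (isPullback_ofib s ρ).lift (ofibFst s σ) (ofibTo s σ ≫ Spec.map (CommRingCat.ofHom u)) (by
    rw [(isPullback_ofib s σ).w, Category.assoc, ← Spec.map_comp, ← CommRingCat.ofHom_comp, h])

@[reassoc (attr := simp)]
theorem ofibMap_to {R S : Type} [CommRing R] [CommRing S] {ρ : U →+* R} {σ : U →+* S}
    (u : R →+* S) (h : u.comp ρ = σ) :
    ofibMap s u h ≫ ofibTo s ρ = ofibTo s σ ≫ Spec.map (CommRingCat.ofHom u) :=
  (isPullback_ofib s ρ).lift_snd _ _ _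

@[reassoc (attr := simp)]
theorem ofibMap_fst {R S : Type} [CommRing R] [CommRing S] {ρ : U →+* R} {σ : U →+* S}
    (u : R →+* S) (h : u.comp ρ = σ) :
    ofibMap s u h ≫ ofibFst s ρ = ofibFst s σ :=
  (isPullback_ofib s ρ).lift_fst _ _ _

theorem isPullback_ofibMap {R S : Type} [CommRing R] [CommRing S] {ρ : U →+* R} {σ : U →+* S}
    (u : R →+* S) (h : u.comp ρ = σ) :
    IsPullback (ofibMap s u h) (ofibTo s σ) (ofibTo s ρ) (Spec.map (CommRingCat.ofHom u)) := by
  refine IsPullback.of_right ?_ (ofibMap_to s u h) (isPullback_ofib s ρ)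
  rw [ofibMap_fst, ← Spec.map_comp, ← CommRingCat.ofHom_comp, h]
  exact isPullback_ofib s σ

theorem ofibMap_id {R : Type} [CommRing R] {ρ : U →+* R} (h : (RingHom.id R).comp ρ = ρ) :
    ofibMap s (RingHom.id R) h = 𝟙 _ := by
  apply (isPullback_ofib s ρ).hom_ext
  · simp
  · simp

theorem ofibMap_comp {R S T : Type} [CommRing R] [CommRing S] [CommRing T] {ρ : U →+* R}
    {σ : U →+* S} {τ : U →+* T} (u : R →+* S) (v : S →+* T) (h : u.comp ρ = σ)
    (h' : v.comp σ = τ) (h'' : (v.comp u).comp ρ = τ) :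
    ofibMap s (v.comp u) h'' = ofibMap s v h' ≫ ofibMap s u h := by
  apply (isPullback_ofib s ρ).hom_ext
  · simp
  · simp

/-- isomorphic algebras have isomorphic base changes -/
theorem ofib_iso {R S : Type} [CommRing R] [CommRing S] {ρ : U →+* R} {σ : U →+* S}
    (e : R ≃+* S) (h : (e : R →+* S).comp ρ = σ) : Nonempty (ofib s ρ ≅ ofib s σ) := by
  have h1 : IsIso (Spec.map (CommRingCat.ofHom (e : R →+* S))) :=
    inferInstanceAs (IsIso (specEquiv e).hom)
  have h2 : IsIso (ofibMap s (e : R →+* S) h) :=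
    MorphismProperty.of_isPullback (P := MorphismProperty.isomorphisms _)
      (isPullback_ofibMap s (e : R →+* S) h).flip h1
  exact ⟨(asIso (ofibMap s (e : R →+* S) h)).symm⟩

/-- base change preserves the cartesian squares -/
theorem isPullback_ofib_square {R S T V : Type} [CommRing R] [CommRing S] [CommRing T]
    [CommRing V] {a : R →+* S} {b : R →+* T} {c : S →+* V} {d : T →+* V}
    (h : IsPushout (CommRingCat.ofHom a) (CommRingCat.ofHom b) (CommRingCat.ofHom c)
      (CommRingCat.ofHom d)) {ρ : U →+* R} {σ : U →+* S} {τ : U →+* T} {υ : U →+* V}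
    (ha : a.comp ρ = σ) (hb : b.comp ρ = τ) (hc : c.comp σ = υ) (hd : d.comp τ = υ) :
    IsPullback (ofibMap s c hc) (ofibMap s d hd) (ofibMap s a ha) (ofibMap s b hb) := by
  have h1 : IsPullback (Spec.map (CommRingCat.ofHom c)) (Spec.map (CommRingCat.ofHom d))
      (Spec.map (CommRingCat.ofHom a)) (Spec.map (CommRingCat.ofHom b)) :=
    isPullback_SpecMap_of_isPushout _ _ _ _ h
  have hw : c.comp a = d.comp b := congrArg CommRingCat.Hom.hom h.w
  have h2 := (isPullback_ofibMap s d hd).flip.paste_horiz h1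
  rw [← ofibMap_to s c hc, ← ofibMap_to s b hb] at h2
  refine IsPullback.of_right h2 ?_ (isPullback_ofibMap s a ha).flip
  have h3 : (c.comp a).comp ρ = υ := by rw [RingHom.comp_assoc, ha, hc]
  have h4 : (d.comp b).comp ρ = υ := by rw [RingHom.comp_assoc, hb, hd]
  rw [← ofibMap_comp s a c ha hc h3, ← ofibMap_comp s b d hb hd h4]
  congr 1

theorem ofib_id (h : IsIso (Spec.map (CommRingCat.ofHom (RingHom.id U)))) :
    Nonempty (ofib s (RingHom.id U) ≅ X) := by
  have h2 : IsIso (ofibFst s (RingHom.id U)) :=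
    MorphismProperty.of_isPullback (P := MorphismProperty.isomorphisms _)
      (isPullback_ofib s (RingHom.id U)).flip h
  exact ⟨asIso (ofibFst s (RingHom.id U))⟩

variable {s}

theorem arithmetic_ofib (hX : Arithmetic X) {R : Type} [CommRing R] {ρ : U →+* R}
    (hρ : ρ.FiniteType) : Arithmetic (ofib s ρ) := by
  have h1 : IsFT (Spec.map (CommRingCat.ofHom ρ)) := by
    refine ⟨?_, inferInstance, inferInstance⟩
    rw [HasRingHomProperty.Spec_iff (P := @LocallyOfFiniteType)]
    exact hρ
  have h2 : IsFT (ofibFst s ρ) := h1.of_isPullback (isPullback_ofib s ρ).flip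
  obtain ⟨f, h3, h4, h5⟩ := hX
  obtain ⟨h6, h7, h8⟩ := h2.comp (g := f) ⟨h3, h4, h5⟩
  exact ⟨_, h6, h7, h8⟩

end

/-- A class of algebras of finite type over the ring `U` closed under some affine operations. -/
structure OCls (U : Type) [CommRing U] (Q : ∀ (R : Type) [CommRing R], (U →+* R) → Prop) :
    Prop where
  iso : ∀ (R S : Type) [CommRing R] [CommRing S] (ρ : U →+* R) (σ : U →+* S) (e : R ≃+* S),
    (e : R →+* S).comp ρ = σ → ρ.FiniteType → Q R ρ → Q S σ
  zero : ∀ (R : Type) [CommRing R] (ρ : U →+* R), Subsingleton R → Q R ρ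
  glue : ∀ (R : Type) [CommRing R] (ρ : U →+* R) (f : R), ρ.FiniteType →
    Q (R ⧸ Ideal.span {f}) ((Ideal.Quotient.mk (Ideal.span {f})).comp ρ) →
    Q (Localization.Away f) ((algebraMap R (Localization.Away f)).comp ρ) → Q R ρ

theorem ocls {P : Scheme.{0} → Prop} (hP : MorinClosed P) {X : Scheme.{0}} (hX : Arithmetic X)
    {U : Type} [CommRing U] (s : X ⟶ Spec (CommRingCat.of U)) :
    OCls U (fun _ _ ρ => P (ofib s ρ)) where
  iso R S _ _ ρ σ e h hρ hR := hP.iso _ _ (arithmetic_ofib hX hρ) (ofib_iso s e h) hR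
  zero R _ ρ hR := by
    apply hP.empty
    have h1 : IsEmpty (Spec (CommRingCat.of R)) := inferInstanceAs (IsEmpty (PrimeSpectrum R))
    exact Function.isEmpty (ofibTo s ρ)
  glue R _ ρ f hρ h1 h2 :=
    hP.glue _ _ _ _ _ (arithmetic_ofib hX hρ) (closedOpen_of_isPullback
      (isPullback_ofibMap s (Ideal.Quotient.mk (Ideal.span {f})) rfl).flip
      (isPullback_ofibMap s (algebraMap R (Localization.Away f)) rfl).flip
      (closedOpen_spec R f)) h1 h2

end Pool.Agent.Helper45.LS
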