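import Pool.Agent.Helper45.LS.Closed2

/-!
# Models of closed subschemes and their complements
-/

set_option autoImplicit false

namespace Pool.Agent.Helper45.LS

open AlgebraicGeometry CategoryTheory Limits TopologicalSpace Pool.Agent.Helper45.LG

theorem range_of_isPullback {P X Y Z : Scheme.{0}} {p : P ⟶ X} {q : P ⟶ Y} {f : X ⟶ Z}
    {g : Y ⟶ Z} (h : IsPullback p q f g) : Set.range q = g ⁻¹' Set.range f := by
  ext y
  constructor
  · rintro ⟨x, rfl⟩
    refine ⟨p x, ?_⟩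
    have := congrArg (fun χ : P ⟶ Z => χ x) h.w
    exact this
  · rintro ⟨x, hx⟩
    obtain ⟨z, -, hz⟩ := Scheme.exists_preimage_of_isPullback h x y hx
    exact ⟨z, hz⟩

/-- a closed subscheme and its complement are stable under base change -/
theorem closedOpen_of_isPullback {Z X U Z' X' U' : Scheme.{0}} {i : Z ⟶ X} {j : U ⟶ X}
    {i' : Z' ⟶ X'} {j' : U' ⟶ X'} {g : X' ⟶ X} {b : Z' ⟶ Z} {c : U' ⟶ U}
    (hi : IsPullback b i' i g) (hj : IsPullback c j' j g) (h : ClosedOpen i j) :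
    ClosedOpen i' j' := by
  obtain ⟨h1, h2, h3⟩ := h
  refine ⟨MorphismProperty.of_isPullback hi h1, MorphismProperty.of_isPullback hj h2, ?_⟩
  rw [range_of_isPullback hi, range_of_isPullback hj, h3, Set.preimage_compl]

section

variable {K : Type} [Field K] {B : Subring K} {Y₀ : Scheme.{0}}
  (y₀ : Y₀ ⟶ Spec (CommRingCat.of B)) {Y Z U : Scheme.{0}} {a : Y ⟶ Y₀}
  {f : Y ⟶ Spec (CommRingCat.of K)} {i : Z ⟶ Y} {j : U ⟶ Y}

/-- a closed subscheme and its complement have models -/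
theorem exists_pair (hy : IsFT y₀) (H : IsPullback a f y₀ (toB B)) (h : ClosedOpen i j) :
    ∃ (T : Finset K) (Z' U' : Scheme.{0}) (i' : Z' ⟶ bc y₀ (le_adj B T))
      (j' : U' ⟶ bc y₀ (le_adj B T)) (b : Z ⟶ Z') (c : U ⟶ U'), ClosedOpen i' j' ∧
      IsPullback b (i ≫ f) (i' ≫ bcs y₀ (le_adj B T)) (toB (adj B T)) ∧
      IsPullback c (j ≫ f) (j' ≫ bcs y₀ (le_adj B T)) (toB (adj B T)) := by
  obtain ⟨h1, h2, h3⟩ := h
  obtain ⟨T, hT⟩ := exists_closed y₀ hy H i.ker
  have hT := hT T le_rfl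
  have hp := isPullback_lft y₀ H (le_adj B T)
  generalize lft y₀ H (le_adj B T) = p at hT hp
  let J := i.ker.map p
  have hi : i ≫ p = (IsClosedImmersion.lift J.subschemeι (i ≫ p) (by
      rw [Scheme.IdealSheafData.ker_subschemeι, ← Scheme.IdealSheafData.map_ker])) ≫
      J.subschemeι := (IsClosedImmersion.lift_fac _ _ _).symm
  generalize IsClosedImmersion.lift J.subschemeι (i ≫ p) _ = b at hi
  have hsq : IsPullback i b p J.subschemeι :=
    isPullback_of_isClosedImmersion i J.subschemeι b p hi (by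
      rw [Scheme.IdealSheafData.ker_subschemeι]
      exact hT)
  let V : (bc y₀ (le_adj B T)).Opens := ⟨(Set.range J.subschemeι)ᶜ,
    (J.subschemeι.isClosedEmbedding.isClosed_range).isOpen_compl⟩
  have hV : ClosedOpen J.subschemeι V.ι :=
    ⟨inferInstance, inferInstance, Scheme.Opens.range_ι V⟩
  have hr : Set.range i = p ⁻¹' Set.range J.subschemeι := range_of_isPullback hsq.flip
  have hj : Set.range (j ≫ p) ⊆ Set.range V.ι := by
    rw [Scheme.Opens.range_ι]
    rintro _ ⟨x, rfl⟩ hx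
    have h4 : j x ∈ Set.range j := ⟨x, rfl⟩
    rw [h3, hr] at h4
    exact h4 hx
  have hsq' : IsPullback (IsOpenImmersion.lift V.ι (j ≫ p) hj) j V.ι p := by
    apply IsOpenImmersion.isPullback
    · exact (IsOpenImmersion.lift_fac _ _ _).symm
    · apply Opens.ext
      have h5 : Set.range j = p ⁻¹' (Set.range V.ι) := by
        rw [Scheme.Opens.range_ι, h3, hr]
        rfl
      exact h5.symm
  exact ⟨T, J.subscheme, V, J.subschemeι, V.ι, b, _, hV, hsq.flip.paste_vert hp,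
    hsq'.paste_vert hp⟩

/-- the base change of a morphism to a base change -/
theorem exists_bc_map {B₁ B₂ : Subring K} (h₁ : B ≤ B₁) (h₂ : B₁ ≤ B₂) (h : B ≤ B₂)
    {Z' : Scheme.{0}} (i' : Z' ⟶ bc y₀ h₁) :
    ∃ m : bc (i' ≫ bcs y₀ h₁) h₂ ⟶ bc y₀ h,
      IsPullback (pullback.fst (i' ≫ bcs y₀ h₁) (incl h₂)) m i' (trans y₀ h₁ h₂ h) :=
  ⟨_, IsPullback.of_bot' (IsPullback.of_hasPullback (i' ≫ bcs y₀ h₁) (incl h₂))
    (isPullback_trans y₀ h₁ h₂ h)⟩

/-- the base change of a base change -/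
theorem bc_bcs {B₁ B₂ : Subring K} (h₁ : B ≤ B₁) (h₂ : B₁ ≤ B₂) (h : B ≤ B₂) :
    Nonempty (bc (bcs y₀ h₁) h₂ ≅ bc y₀ h) :=
  ⟨(isPullback_trans y₀ h₁ h₂ h).isoPullback.symm⟩

end

end Pool.Agent.Helper45.LS
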