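import Pool.Agent.Helper45.LS.Pair
import Pool.Agent.Helper45.LS.Defs
import Pool.Agent.Helper45.LG.Scheme

/-!
# Spreading out of schemes
-/

set_option autoImplicit false

namespace Pool.Agent.Helper45.LS

open AlgebraicGeometry CategoryTheory Limits TopologicalSpace Filter Pool.Agent.Helper45.LG

variable {K : Type} [Field K]

/-- a finitely generated subring is contained in all large subrings -/
theorem eventually_le {l : Filter (Subring K)} (hl : ∀ x : K, ∀ᶠ B in l, x ∈ B) {B : Subring K}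
    (hB : FT B) : ∀ᶠ B' in l, B ≤ B' := by
  obtain ⟨S, hS⟩ := hB.out
  have h : ∀ᶠ B' in l, ∀ x ∈ S, (x : K) ∈ B' := by
    rw [eventually_all_finset]
    exact fun x _ => hl x
  filter_upwards [h] with B' h' x hx
  have h1 : (⟨x, hx⟩ : B) ∈ Algebra.adjoin ℤ (S : Set B) := by
    rw [hS]
    trivial
  have h2 : ∀ y ∈ Algebra.adjoin ℤ (S : Set B), (y : K) ∈ B' := by
    intro y hy
    induction hy using Algebra.adjoin_induction with
    | mem x hx => exact h' x hx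
    | algebraMap r =>
      have : ((algebraMap ℤ B r : B) : K) = (r : K) := by simp
      rw [this]
      exact intCast_mem B' r
    | add x y _ _ hx hy => exact add_mem hx hy
    | mul x y _ _ hx hy => exact mul_mem hx hy
  exact h2 _ h1

theorem exists_finset {B : Subring K} (hB : FT B) :
    ∃ T : Finset K, ∀ B' : Subring K, (∀ x ∈ T, x ∈ B') → B ≤ B' := by
  classical
  obtain ⟨S, hS⟩ := hB.out
  refine ⟨S.image (fun x : B => (x : K)), fun B' h' => ?_⟩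
  have h2 : ∀ y ∈ Algebra.adjoin ℤ (S : Set B), (y : K) ∈ B' := by
    intro y hy
    induction hy using Algebra.adjoin_induction with
    | mem x hx => exact h' x (Finset.mem_image_of_mem _ hx)
    | algebraMap r =>
      have : ((algebraMap ℤ B r : B) : K) = (r : K) := by simp
      rw [this]
      exact intCast_mem B' r
    | add x y _ _ hx hy => exact add_mem hx hy
    | mul x y _ _ hx hy => exact mul_mem hx hy
  intro x hx
  exact h2 ⟨x, hx⟩ (by rw [hS]; trivial)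

/-- the base changes of the models of `f` belong to `P`, along the filter `l` -/
def Spr (P : Scheme.{0} → Prop) (l : Filter (Subring K)) {Y : Scheme.{0}}
    (f : Y ⟶ Spec (CommRingCat.of K)) : Prop :=
  ∀ (B : Subring K) (Y₀ : Scheme.{0}) (y₀ : Y₀ ⟶ Spec (CommRingCat.of B)) (a : Y ⟶ Y₀), FT B →
    IsFT y₀ → IsPullback a f y₀ (toB B) → ∀ᶠ B' in l, ∀ h : B ≤ B', P (bc y₀ h)

theorem arithmetic_of_isFT {R : Type} [CommRing R] (hR : Algebra.FiniteType ℤ R) {X : Scheme.{0}}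
    {f : X ⟶ Spec (CommRingCat.of R)} (hf : IsFT f) : Arithmetic X := by
  obtain ⟨g, h1, h2, h3⟩ := arithmetic_of_finiteType hR
  obtain ⟨h1', h2', h3'⟩ := hf.comp (g := g) ⟨h1, h2, h3⟩
  exact ⟨f ≫ g, h1', h2', h3'⟩

section

variable {P : Scheme.{0} → Prop} {l : Filter (Subring K)} (hP : MorinClosed P)
  (hl : ∀ x : K, ∀ᶠ B in l, x ∈ B) (hft : ∀ᶠ B in l, FT B) {Y : Scheme.{0}}
  {f : Y ⟶ Spec (CommRingCat.of K)}

include hP hl hft

/-- one model is enough -/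
theorem Spr.of_model {B : Subring K} {Y₀ : Scheme.{0}} (y₀ : Y₀ ⟶ Spec (CommRingCat.of B))
    {a : Y ⟶ Y₀} (hB : FT B) (hy : IsFT y₀) (H : IsPullback a f y₀ (toB B))
    (h : ∀ᶠ B' in l, ∀ h : B ≤ B', P (bc y₀ h)) : Spr P l f := by
  intro B₁ Y₁ y₁ a₁ hB₁ hy₁ H₁
  obtain ⟨T₁, hT₁⟩ := exists_finset hB₁
  have h12 : B₁ ≤ adj B T₁ := hT₁ _ (fun x hx => mem_adj B hx)
  have hB₂ : FT (adj B T₁) := ft_adj hB T₁
  have h02 : B ≤ adj B T₁ := le_adj B T₁
  generalize adj B T₁ = B₂ at h12 hB₂ h02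
  obtain ⟨T, hT⟩ := exists_iso (bcs y₀ h02) (bcs y₁ h12) hB₂ (isFT_bcs y₀ hy h02)
    (isFT_bcs y₁ hy₁ h12) (isPullback_lft y₀ H h02) (isPullback_lft y₁ H₁ h12)
  have hT' : ∀ᶠ B' in l, ∀ x ∈ T, x ∈ B' := by
    rw [eventually_all_finset]
    exact fun x _ => hl x
  filter_upwards [h, hft, hT', eventually_le hl hB₂] with B' h1 h2 h3 h4 h5
  obtain ⟨e⟩ := hT B' h4 h3
  obtain ⟨e₀⟩ := bc_bcs y₀ h02 h4 (h02.trans h4)
  obtain ⟨e₁⟩ := bc_bcs y₁ h12 h4 h5
  exact hP.iso _ _ (arithmetic_of_isFT h2 (isFT_bcs y₀ hy (h02.trans h4)))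
    ⟨e₀.symm ≪≫ e ≪≫ e₁⟩ (h1 (h02.trans h4))

omit hl hft hP in
theorem Spr.of_iso {X : Scheme.{0}} (e : X ≅ Y) (h : Spr P l f) : Spr P l (e.hom ≫ f) := by
  intro B Y₀ y₀ a hB hy H
  refine h B Y₀ y₀ (e.inv ≫ a) hB hy ?_
  refine IsPullback.of_iso H e (Iso.refl _) (Iso.refl _) (Iso.refl _) ?_ ?_ ?_ ?_
  · simp
  · simp
  · simp
  · simp

omit hl hft hP in
/-- the common part of the three rules for closed subschemes -/
theorem exists_pair_model {B : Subring K} {Y₀ : Scheme.{0}} (y₀ : Y₀ ⟶ Spec (CommRingCat.of B))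
    {a : Y ⟶ Y₀} (hB : FT B) (hy : IsFT y₀) (H : IsPullback a f y₀ (toB B)) {Z U : Scheme.{0}}
    {i : Z ⟶ Y} {j : U ⟶ Y} (h : ClosedOpen i j) :
    ∃ (B₁ : Subring K) (_ : B ≤ B₁) (_ : FT B₁) (Z' U' : Scheme.{0})
      (z : Z' ⟶ Spec (CommRingCat.of B₁)) (u : U' ⟶ Spec (CommRingCat.of B₁)) (b : Z ⟶ Z')
      (c : U ⟶ U'), IsFT z ∧ IsFT u ∧ IsPullback b (i ≫ f) z (toB B₁) ∧
      IsPullback c (j ≫ f) u (toB B₁) ∧ ∀ (B' : Subring K) (h' : B₁ ≤ B') (h'' : B ≤ B'),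
      FT B' → Arithmetic (bc y₀ h'') ∧ ∃ (i' : bc z h' ⟶ bc y₀ h'') (j' : bc u h' ⟶ bc y₀ h''),
        ClosedOpen i' j' := by
  obtain ⟨T, Z', U', i', j', b, c, h1, h2, h3⟩ := exists_pair y₀ hy H h
  have hB₁ : FT (adj B T) := ft_adj hB T
  have h01 : B ≤ adj B T := le_adj B T
  have hz : IsFT (bcs y₀ (le_adj B T)) := isFT_bcs y₀ hy _
  have hN : IsLocallyNoetherian (bc y₀ (le_adj B T)) := by
    have e1 := hz.lft
    have e2 := isLocallyNoetherian_spec hB₁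
    exact LocallyOfFiniteType.isLocallyNoetherian (bcs y₀ (le_adj B T))
  have hi : IsFT i' := by
    have := h1.closed
    exact ⟨inferInstance, inferInstance, inferInstance⟩
  have hj : IsFT j' := by
    have := h1.isOpen
    exact ⟨inferInstance, inferInstance, inferInstance⟩
  refine ⟨adj B T, h01, hB₁, Z', U', i' ≫ bcs y₀ (le_adj B T), j' ≫ bcs y₀ (le_adj B T), b, c,
    hi.comp hz, hj.comp hz, h2, h3, fun B' h' h'' hB' => ⟨arithmetic_of_isFT hB'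
      (isFT_bcs y₀ hy h''), ?_⟩⟩
  obtain ⟨m, hm⟩ := exists_bc_map y₀ (le_adj B T) h' h'' i'
  obtain ⟨n, hn⟩ := exists_bc_map y₀ (le_adj B T) h' h'' j'
  exact ⟨m, n, closedOpen_of_isPullback hm hn h1⟩

theorem Spr.glue {Z U : Scheme.{0}} {i : Z ⟶ Y} {j : U ⟶ Y} (h : ClosedOpen i j)
    (h1 : Spr P l (i ≫ f)) (h2 : Spr P l (j ≫ f)) : Spr P l f := by
  intro B Y₀ y₀ a hB hy H
  obtain ⟨B₁, h01, hB₁, Z', U', z, u, b, c, hz, hu, h3, h4, h5⟩ := exists_pair_model y₀ hB hy H h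
  filter_upwards [hft, h1 _ _ z b hB₁ hz h3, h2 _ _ u c hB₁ hu h4, eventually_le hl hB₁]
    with B' e1 e2 e3 e4 h''
  obtain ⟨e5, i', j', e6⟩ := h5 B' e4 h'' e1
  exact hP.glue _ _ _ i' j' e5 e6 (e2 e4) (e3 e4)

theorem Spr.closed {Z U : Scheme.{0}} {i : Z ⟶ Y} {j : U ⟶ Y} (hm : HasModel f)
    (h : ClosedOpen i j) (h1 : Spr P l f) (h2 : Spr P l (j ≫ f)) : Spr P l (i ≫ f) := by
  obtain ⟨B, Y₀, y₀, a, hB, hy1, hy2, hy3, H⟩ := hm
  have hy : IsFT y₀ := ⟨hy1, hy2, hy3⟩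
  obtain ⟨B₁, h01, hB₁, Z', U', z, u, b, c, hz, hu, h3, h4, h5⟩ := exists_pair_model y₀ hB hy H h
  refine Spr.of_model hP hl hft z hB₁ hz h3 ?_
  filter_upwards [hft, h1 _ _ y₀ a hB hy H, h2 _ _ u c hB₁ hu h4] with B' e1 e2 e3 h'
  have h'' : B ≤ B' := h01.trans h'
  obtain ⟨e5, i', j', e6⟩ := h5 B' h' h'' e1
  exact hP.closed _ _ _ i' j' e5 e6 (e2 h'') (e3 h')

theorem Spr.opn {Z U : Scheme.{0}} {i : Z ⟶ Y} {j : U ⟶ Y} (hm : HasModel f)
    (h : ClosedOpen i j) (h1 : Spr P l f) (h2 : Spr P l (i ≫ f)) : Spr P l (j ≫ f) := by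
  obtain ⟨B, Y₀, y₀, a, hB, hy1, hy2, hy3, H⟩ := hm
  have hy : IsFT y₀ := ⟨hy1, hy2, hy3⟩
  obtain ⟨B₁, h01, hB₁, Z', U', z, u, b, c, hz, hu, h3, h4, h5⟩ := exists_pair_model y₀ hB hy H h
  refine Spr.of_model hP hl hft u hB₁ hu h4 ?_
  filter_upwards [hft, h1 _ _ y₀ a hB hy H, h2 _ _ z b hB₁ hz h3] with B' e1 e2 e3 h'
  have h'' : B ≤ B' := h01.trans h'
  obtain ⟨e5, i', j', e6⟩ := h5 B' h' h'' e1
  exact hP.opn _ _ _ i' j' e5 e6 (e2 h'') (e3 h')

end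

theorem isPullback_rep {C D R S : Type} [CommRing C] [CommRing D] [CommRing R] [CommRing S]
    [Algebra C D] [Algebra C R] [Algebra D S] {σ ρ : Type} {x : σ → R}
    {f : ρ → MvPolynomial σ C} {y : σ → S} (hx : Rep x f)
    (hy : Rep y (fun k => MvPolynomial.map (algebraMap C D) (f k))) :
    ∃ g : R →+* S, IsPullback (Spec.map (CommRingCat.ofHom g))
      (Spec.map (CommRingCat.ofHom (algebraMap D S)))
      (Spec.map (CommRingCat.ofHom (algebraMap C R)))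
      (Spec.map (CommRingCat.ofHom (algebraMap C D))) := by
  obtain ⟨e, -⟩ := (hx.baseChange (D := D)).equiv hy
  let g : R →+* S := (e : TensorProduct C D R →+* S).comp
    (Algebra.TensorProduct.includeRight : R →ₐ[C] TensorProduct C D R).toRingHom
  refine ⟨g, ?_⟩
  have h1 := CommRingCat.isPushout_tensorProduct C D R
  have h2 : IsPushout (CommRingCat.ofHom (algebraMap C R)) (CommRingCat.ofHom (algebraMap C D))
      (CommRingCat.ofHom g) (CommRingCat.ofHom (algebraMap D S)) := by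
    refine IsPushout.of_iso h1.flip (Iso.refl _) (Iso.refl _) (Iso.refl _)
      e.toRingEquiv.toCommRingCatIso ?_ ?_ ?_ ?_
    · simp
    · simp
    · ext r
      simp [g]
    · apply CommRingCat.hom_ext
      ext d
      exact (e.commutes d)
  exact isPullback_SpecMap_of_isPushout _ _ _ _ h2

end Pool.Agent.Helper45.LS
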