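import Pool.Agent.Helper45.LS.Spr

/-!
# Spreading out of affine schemes
-/

set_option autoImplicit false

namespace Pool.Agent.Helper45.LS

open AlgebraicGeometry CategoryTheory Limits TopologicalSpace Filter Pool.Agent.Helper45.LG

variable {K : Type} [Field K] {P : Scheme.{0} → Prop} {l : Filter (Subring K)}

theorem isFT_spec {C R : Type} [CommRing C] [CommRing R] [Algebra C R]
    (h : Algebra.FiniteType C R) : IsFT (Spec.map (CommRingCat.ofHom (algebraMap C R))) := by
  refine ⟨?_, inferInstance, inferInstance⟩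
  rw [HasRingHomProperty.Spec_iff (P := @LocallyOfFiniteType)]
  exact RingHom.finiteType_algebraMap.2 h

theorem finiteType_std' {C : Type} [CommRing C] {σ ρ : Type} [Finite σ]
    (f : ρ → MvPolynomial σ C) : Algebra.FiniteType C (Std f) := inferInstance

theorem Spr.affine [l.NeBot] (hP : MorinClosed P) (hl : ∀ x : K, ∀ᶠ B in l, x ∈ B)
    (hft : ∀ᶠ B in l, FT B) {R : Type} [CommRing R] [Algebra K R] (hR : Algebra.FiniteType K R)
    (h : Spread (onRings P) l R) : Spr P l (Spec.map (CommRingCat.ofHom (algebraMap K R))) := by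
  obtain ⟨n, m, x, f, hx⟩ := exists_rep hR
  obtain ⟨B, ⟨f', hf'⟩, hB⟩ := ((exists_lifts hl f).and hft).exists
  have hx' : Rep x (fun k => MvPolynomial.map (algebraMap B K) (f' k)) := by
    have : (fun k => MvPolynomial.map (algebraMap B K) (f' k)) = f := funext hf'
    rw [this]
    exact hx
  obtain ⟨g, H⟩ := isPullback_rep (rep_std f') hx'
  refine Spr.of_model hP hl hft (Spec.map (CommRingCat.ofHom (algebraMap B (Std f')))) hB
    (isFT_spec (finiteType_std' f')) H ?_
  filter_upwards [h _ _ _ _ hx, hft] with B' h1 h2 h3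
  let _ : Algebra B B' := (Subring.inclusion h3).toAlgebra
  let f'' : Fin m → MvPolynomial (Fin n) B' := fun k => MvPolynomial.map (algebraMap B B') (f' k)
  have h4 : onRings P (Std f'') := h1 f'' (fun k => by
    simp only [f'']
    rw [MvPolynomial.map_map]
    exact hf' k)
  obtain ⟨g', H'⟩ := isPullback_rep (D := B') (rep_std f') (rep_std f'')
  have H'' : IsPullback (Spec.map (CommRingCat.ofHom g'))
      (Spec.map (CommRingCat.ofHom (algebraMap B' (Std f''))))
      (Spec.map (CommRingCat.ofHom (algebraMap B (Std f')))) (incl h3) := H'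
  exact hP.iso _ _ (arithmetic_of_finiteType (finiteType_std h2 f'')) ⟨H''.isoPullback⟩ h4

end Pool.Agent.Helper45.LS
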