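import Pool.Agent.Helper45.LS.SprAff
import Pool.Agent.Helper45.LG.RingMain

/-!
# Spreading out of the seeds
-/

set_option autoImplicit false

namespace Pool.Agent.Helper45.LS

open AlgebraicGeometry CategoryTheory Limits TopologicalSpace Filter Pool.Agent.Helper45.LG

/-- the map of the spectra given by an isomorphism of rings -/
noncomputable def specEquiv {R S : Type} [CommRing R] [CommRing S] (e : R ≃+* S) :
    Spec (CommRingCat.of S) ≅ Spec (CommRingCat.of R) where
  hom := Spec.map (CommRingCat.ofHom (e : R →+* S))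
  inv := Spec.map (CommRingCat.ofHom (e.symm : S →+* R))
  hom_inv_id := by
    rw [← Spec.map_comp, ← CommRingCat.ofHom_comp]
    simp
  inv_hom_id := by
    rw [← Spec.map_comp, ← CommRingCat.ofHom_comp]
    simp

theorem pullback_equiv {R₁ R₂ S₁ S₂ : Type} [CommRing R₁] [CommRing R₂] [CommRing S₁]
    [CommRing S₂] (u : R₁ →+* R₂) (v : S₁ →+* S₂) (e₁ : R₁ ≃+* S₁) (e₂ : R₂ ≃+* S₂)
    (h : (e₂ : R₂ →+* S₂).comp u = v.comp (e₁ : R₁ →+* S₁)) {X : Scheme.{0}}
    (g : X ⟶ Spec (CommRingCat.of S₁)) :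
    Nonempty (pullback (g ≫ (specEquiv e₁).hom) (Spec.map (CommRingCat.ofHom u)) ≅
      pullback g (Spec.map (CommRingCat.ofHom v))) := by
  have h1 : Spec.map (CommRingCat.ofHom u) ≫ (specEquiv e₁).inv =
      (specEquiv e₂).inv ≫ Spec.map (CommRingCat.ofHom v) := by
    have h2 : u.comp (e₁.symm : S₁ →+* R₁) = (e₂.symm : S₂ →+* R₂).comp v := by
      ext s
      obtain ⟨r, rfl⟩ := e₁.surjective s
      have h3 : e₂ (u r) = v (e₁ r) := congrArg (fun χ : R₁ →+* S₂ => χ r) h
      simp [← h3]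
    change Spec.map (CommRingCat.ofHom u) ≫ Spec.map (CommRingCat.ofHom (e₁.symm : S₁ →+* R₁)) =
      Spec.map (CommRingCat.ofHom (e₂.symm : S₂ →+* R₂)) ≫ Spec.map (CommRingCat.ofHom v)
    rw [← Spec.map_comp, ← Spec.map_comp, ← CommRingCat.ofHom_comp, ← CommRingCat.ofHom_comp, h2]
  exact ⟨asIso (pullback.map _ _ _ _ (𝟙 X) (specEquiv e₂).inv (specEquiv e₁).inv (by simp) h1)⟩

/-- the seeds spread out -/
theorem Spr.seed {P : Scheme.{0} → Prop} (hP : MorinClosed P)
    {Q : ∀ (R : Type) [CommRing R], Prop} (p : ℕ) [Fact p.Prime] {K : Type} [Field K]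
    {l : Filter (Subring K)} (hl : ∀ x : K, ∀ᶠ B in l, x ∈ B)
    (hgood : ∀ᶠ B in l, GoodSub Q (fun C _ => Nonempty (C ≃+* ZMod p)) B)
    {X : Scheme.{0}} (f : X ⟶ Spec (CommRingCat.of K)) (h : LS.Seed P f) : Spr P l f := by
  obtain ⟨k, _, _, X₀, g, a, hk, hg1, hg2, hg3, H, hPk⟩ := h
  have hg : IsFT g := ⟨hg1, hg2, hg3⟩
  have hft : ∀ᶠ B in l, FT B := by
    filter_upwards [hgood] with B hB
    have h1 := hB.finite
    have : Module.Finite ℤ B := Module.Finite.of_finite
    exact Module.Finite.finiteType _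
  obtain ⟨B, ε, hε⟩ : ∃ (B : Subring K) (ε : B ≃+* k), ∀ b : B, algebraMap k K (ε b) = b := by
    refine ⟨(algebraMap k K).range, (RingEquiv.ofBijective (algebraMap k K).rangeRestrict
      ⟨fun x y hxy => (algebraMap k K).injective (congrArg Subtype.val hxy),
        (algebraMap k K).rangeRestrict_surjective⟩).symm, ?_⟩
    intro b
    obtain ⟨x, rfl⟩ := (algebraMap k K).rangeRestrict_surjective b
    have h1 : (RingEquiv.ofBijective (algebraMap k K).rangeRestrict
      ⟨fun x y hxy => (algebraMap k K).injective (congrArg Subtype.val hxy),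
        (algebraMap k K).rangeRestrict_surjective⟩).symm ((algebraMap k K).rangeRestrict x) = x :=
      RingEquiv.symm_apply_apply (RingEquiv.ofBijective (algebraMap k K).rangeRestrict _) x
    rw [h1]
    rfl
  have hBfin : Finite B := Finite.of_equiv _ ε.symm.toEquiv
  have hB : FT B := by
    have : Module.Finite ℤ B := Module.Finite.of_finite
    exact Module.Finite.finiteType _
  have hiso : IsFT (specEquiv ε).hom := ⟨inferInstance, inferInstance, inferInstance⟩
  have H' : IsPullback a f (g ≫ (specEquiv ε).hom) (toB B) := by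
    refine IsPullback.of_iso H (Iso.refl _) (Iso.refl _) (Iso.refl _) (specEquiv ε) ?_ ?_ ?_ ?_
    · simp
    · simp
    · simp
    · have h2 : (algebraMap k K).comp (ε : B →+* k) = B.subtype := by
        ext b
        exact hε b
      change Spec.map (CommRingCat.ofHom (algebraMap k K)) ≫
        Spec.map (CommRingCat.ofHom (ε : B →+* k)) = 𝟙 _ ≫ toB B
      rw [← Spec.map_comp, ← CommRingCat.ofHom_comp, h2, Category.id_comp]
      rfl
  refine Spr.of_model hP hl hft (g ≫ (specEquiv ε).hom) hB (hg.comp hiso) H' ?_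
  filter_upwards [hgood] with B' h2 h3
  have hfin := h2.finite
  obtain ⟨k', _, e'⟩ : ∃ (k' : Type) (_ : Field k'), Nonempty (B' ≃+* k') :=
    ⟨B', (Finite.isField_of_domain B').toField, ⟨RingEquiv.refl _⟩⟩
  obtain ⟨e'⟩ := e'
  have hfin' : Finite k' := Finite.of_equiv _ e'.toEquiv
  let _ : Algebra k k' := (((e' : B' →+* k').comp (Subring.inclusion h3)).comp
    (ε.symm : k →+* B)).toAlgebra
  have h4 := hPk k'
  obtain ⟨E⟩ := pullback_equiv (Subring.inclusion h3) (algebraMap k k') ε e' (by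
    ext b
    change e' (Subring.inclusion h3 b) = e' (Subring.inclusion h3 (ε.symm (ε b)))
    rw [ε.symm_apply_apply]) g
  have h5 : Algebra.FiniteType ℤ k' := by
    have : Module.Finite ℤ k' := Module.Finite.of_finite
    exact Module.Finite.finiteType _
  exact hP.iso _ _ (arithmetic_of_isFT h5 (hg.of_isPullback (IsPullback.of_hasPullback g
    (Spec.map (CommRingCat.ofHom (algebraMap k k')))))) ⟨E.symm⟩ h4

end Pool.Agent.Helper45.LS
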